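import Pool.Agent.H.MP_5be563_lc.PT.Conv

/-!
Machines for `Poly` functions, with arbitrary finite alphabets for input and output.
-/

namespace Pool.Agent.H.MP_521f94_lc

open Pool.Agent.H.MP_5be563_lc.PT Turing

namespace Raw

/-- the stacks -/
inductive KK
  | s (k : Stk) | I | T | O
  deriving DecidableEq, Fintype

/-- the alphabets -/
abbrev GG (Γ Δ : Type) : KK → Type
  | .s _ => Bool
  | .I => Γ
  | .T => Option Γ
  | .O => Δ

section lift

variable {Γ Δ E L : Type}

/-- contents of all stacks -/
def join (S : Sto) (i : List Γ) (t : List (Option Γ)) (o : List Δ) : ∀ k, List (GG Γ Δ k)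
  | .s k => S k
  | .I => i
  | .T => t
  | .O => o

@[simp] theorem join_s (S : Sto) (i : List Γ) (t : List (Option Γ)) (o : List Δ) (k : Stk) :
    join S i t o (.s k) = S k := rfl
@[simp] theorem join_I (S : Sto) (i : List Γ) (t : List (Option Γ)) (o : List Δ) :
    join S i t o .I = i := rfl
@[simp] theorem join_T (S : Sto) (i : List Γ) (t : List (Option Γ)) (o : List Δ) :
    join S i t o .T = t := rfl
@[simp] theorem join_O (S : Sto) (i : List Γ) (t : List (Option Γ)) (o : List Δ) :
    join S i t o .O = o := rfl

@[simp] theorem upd_s (S : Sto) (i : List Γ) (t : List (Option Γ)) (o : List Δ) (k : Stk)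
    (l : List Bool) : Function.update (join S i t o) (.s k) l =
      join (Function.update S k l) i t o := by
  funext k'
  cases k' with
  | s k' =>
    by_cases h : k' = k
    · subst h; simp
    · have h' : (KK.s k') ≠ .s k := by intro e; cases e; exact h rfl
      rw [Function.update_of_ne h', join_s, join_s, Function.update_of_ne h]
  | I => rw [Function.update_of_ne (by simp)]; rfl
  | T => rw [Function.update_of_ne (by simp)]; rfl
  | O => rw [Function.update_of_ne (by simp)]; rfl

@[simp] theorem upd_I (S : Sto) (i i' : List Γ) (t : List (Option Γ)) (o : List Δ) :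
    Function.update (join S i t o) .I i' = join S i' t o := by
  funext k'
  cases k' with
  | s k' => rw [Function.update_of_ne (by simp)]; rfl
  | I => simp
  | T => rw [Function.update_of_ne (by simp)]; rfl
  | O => rw [Function.update_of_ne (by simp)]; rfl

@[simp] theorem upd_T (S : Sto) (i : List Γ) (t t' : List (Option Γ)) (o : List Δ) :
    Function.update (join S i t o) .T t' = join S i t' o := by
  funext k'
  cases k' with
  | s k' => rw [Function.update_of_ne (by simp)]; rfl
  | I => rw [Function.update_of_ne (by simp)]; rfl
  | T => simp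
  | O => rw [Function.update_of_ne (by simp)]; rfl

@[simp] theorem upd_O (S : Sto) (i : List Γ) (t : List (Option Γ)) (o o' : List Δ) :
    Function.update (join S i t o) .O o' = join S i t o' := by
  funext k'
  cases k' with
  | s k' => rw [Function.update_of_ne (by simp)]; rfl
  | I => rw [Function.update_of_ne (by simp)]; rfl
  | T => rw [Function.update_of_ne (by simp)]; rfl
  | O => simp

/-- statements on the four stacks as statements on all stacks -/
def liftS : TM2.Stmt Gam L (Option Bool) → TM2.Stmt (GG Γ Δ) (Bool ⊕ L) (Option Bool × E)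
  | .push k f q => .push (.s k) (fun v => f v.1) (liftS q)
  | .peek k f q => .peek (.s k) (fun v x => (f v.1 x, v.2)) (liftS q)
  | .pop k f q => .pop (.s k) (fun v x => (f v.1 x, v.2)) (liftS q)
  | .load a q => .load (fun v => (a v.1, v.2)) (liftS q)
  | .branch f a b => .branch (fun v => f v.1) (liftS a) (liftS b)
  | .goto l => .goto (fun v => .inr (l v.1))
  | .halt => .halt

/-- configurations -/
def liftC (e : E) (i : List Γ) (t : List (Option Γ)) (o : List Δ)
    (c : TM2.Cfg Gam L (Option Bool)) : TM2.Cfg (GG Γ Δ) (Bool ⊕ L) (Option Bool × E) :=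
  ⟨c.l.map Sum.inr, (c.var, e), join c.stk i t o⟩

theorem stepAux_liftS (e : E) (i : List Γ) (t : List (Option Γ)) (o : List Δ) :
    ∀ (q : TM2.Stmt Gam L (Option Bool)) (v : Option Bool) (S : Sto),
    TM2.stepAux (liftS q) (v, e) (join S i t o) = liftC e i t o (TM2.stepAux q v S) := by
  intro q
  induction q with
  | push k f q ih =>
    intro v S
    simp only [liftS, TM2.stepAux]
    rw [← ih, join_s]
    congr 1
    exact upd_s S i t o k _
  | peek k f q ih =>
    intro v S
    simp only [liftS, TM2.stepAux]
    rw [← ih, join_s]
  | pop k f q ih =>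
    intro v S
    simp only [liftS, TM2.stepAux]
    rw [← ih, join_s]
    congr 1
    exact upd_s S i t o k _
  | load a q ih =>
    intro v S
    simp only [liftS, TM2.stepAux]
    rw [← ih]
  | branch f a b iha ihb =>
    intro v S
    simp only [liftS, TM2.stepAux]
    cases f v
    · exact ihb v S
    · exact iha v S
  | goto l => intro v S; rfl
  | halt => intro v S; rfl

/-- `n` steps of a machine lead from `c` to `c'`. -/
def Steps {K : Type} [DecidableEq K] {G : K → Type} {L σ : Type}
    (M : L → TM2.Stmt G L σ) (c c' : TM2.Cfg G L σ) (n : ℕ) : Prop :=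
  (flip bind (TM2.step M))^[n] (some c) = some c'

theorem Steps.trans {K : Type} [DecidableEq K] {G : K → Type} {L σ : Type}
    {M : L → TM2.Stmt G L σ} {c c' c'' : TM2.Cfg G L σ}
    {n m : ℕ} (h : Steps M c c' n) (h' : Steps M c' c'' m) : Steps M c c'' (n + m) := by
  unfold Steps at *
  rw [Nat.add_comm, Function.iterate_add_apply, h, h']

theorem Steps.one {K : Type} [DecidableEq K] {G : K → Type} {L σ : Type}
    {M : L → TM2.Stmt G L σ} {c c' : TM2.Cfg G L σ}
    (h : TM2.step M c = some c') : Steps M c c' 1 := by
  unfold Steps
  simpa [flip] using h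

theorem Steps.refl {K : Type} [DecidableEq K] {G : K → Type} {L σ : Type}
    (M : L → TM2.Stmt G L σ) (c : TM2.Cfg G L σ) : Steps M c c 0 := rfl

theorem iter_none {K : Type} [DecidableEq K] {G : K → Type} {L σ : Type}
    (M : L → TM2.Stmt G L σ) (n : ℕ) :
    (flip bind (TM2.step M))^[n] (none : Option (TM2.Cfg G L σ)) = none := by
  induction n with
  | zero => rfl
  | succ n ih => rw [Function.iterate_succ_apply]; exact ih

/-- simulation up to the last label -/
theorem sim {A : Type} (M : Option A → TM2.Stmt Gam (Option A) (Option Bool))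
    (hM : M none = .halt)
    (M' : (Bool ⊕ Option A) → TM2.Stmt (GG Γ Δ) (Bool ⊕ Option A) (Option Bool × E))
    (hM' : ∀ a, M' (.inr (some a)) = liftS (M (some a)))
    (e : E) (i : List Γ) (t : List (Option Γ)) (o : List Δ)
    (c' : TM2.Cfg Gam (Option A) (Option Bool)) (hc' : c'.l = some none) :
    ∀ (n : ℕ) (c : TM2.Cfg Gam (Option A) (Option Bool)), StepsTo M c c' n →
      Steps M' (liftC e i t o c) (liftC e i t o c') n := by
  intro n
  induction n with
  | zero =>
    intro c h
    have : c = c' := Option.some.inj h
    subst this
    exact Steps.refl _ _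
  | succ n ih =>
    intro c h
    unfold StepsTo at h
    rw [Function.iterate_succ_apply] at h
    have h0 : flip bind (TM2.step M) (some c) = TM2.step M c := rfl
    rw [h0] at h
    rcases c with ⟨l, v, S⟩
    cases l with
    | none =>
      exfalso
      have h1 : TM2.step M (⟨none, v, S⟩ : TM2.Cfg Gam (Option A) (Option Bool)) = none := rfl
      rw [h1, iter_none] at h
      cases h
    | some l =>
      have h1 : TM2.step M (⟨some l, v, S⟩ : TM2.Cfg Gam (Option A) (Option Bool)) =
          some (TM2.stepAux (M l) v S) := rfl
      rw [h1] at h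
      cases l with
      | none =>
        exfalso
        rw [hM] at h
        have h2 : TM2.stepAux (.halt : TM2.Stmt Gam (Option A) (Option Bool)) v S =
            ⟨none, v, S⟩ := rfl
        rw [h2] at h
        cases n with
        | zero =>
          have h3 := Option.some.inj h
          rw [← h3] at hc'
          cases hc'
        | succ n =>
          rw [Function.iterate_succ_apply] at h
          have h3 : flip bind (TM2.step M) (some (⟨none, v, S⟩ :
            TM2.Cfg Gam (Option A) (Option Bool))) = none := rfl
          rw [h3, iter_none] at h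
          cases h
      | some a =>
        have h2 := ih _ h
        have h3 : Steps M' (liftC e i t o ⟨some (some a), v, S⟩)
            (liftC e i t o (TM2.stepAux (M (some a)) v S)) 1 := by
          apply Steps.one
          change some (TM2.stepAux (M' (.inr (some a))) (v, e) (join S i t o)) = _
          rw [hM', stepAux_liftS]
        rw [Nat.add_comm]
        exact h3.trans h2

end lift

section machine

variable {Γ Δ E L : Type}

/-- push the bits of a list, the head first -/
def pushL : List Bool → TM2.Stmt (GG Γ Δ) L E → TM2.Stmt (GG Γ Δ) L E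
  | [], q => q
  | b :: l, q => .push (.s .M) (fun _ => b) (pushL l q)

theorem stepAux_pushL (q : TM2.Stmt (GG Γ Δ) L E) (v : E) (i : List Γ) (t : List (Option Γ))
    (o : List Δ) (a b c : List Bool) : ∀ (l m : List Bool),
    TM2.stepAux (pushL l q) v (join (mk4 m a b c) i t o) =
      TM2.stepAux q v (join (mk4 (l.reverse ++ m) a b c) i t o) := by
  intro l
  induction l with
  | nil => intro m; rfl
  | cons x l ih =>
    intro m
    simp only [pushL, TM2.stepAux, join_s, mk4_M]
    have h1 := upd_s (mk4 m a b c) i t o .M (x :: m)
    rw [upd_M] at h1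
    rw [h1, ih]
    simp

/-- push the code of the symbol in the state -/
def pushSym [DecidableEq Γ] (sym : E → Option Γ) (code : Γ → List Bool) : List Γ →
    TM2.Stmt (GG Γ Δ) L E → TM2.Stmt (GG Γ Δ) L E
  | [], q => q
  | g :: l, q => .branch (fun v => decide (sym v = some g)) (pushL (code g) q)
      (pushSym sym code l q)

theorem stepAux_pushSym [DecidableEq Γ] (sym : E → Option Γ) (code : Γ → List Bool)
    (q : TM2.Stmt (GG Γ Δ) L E) (v : E) (g : Γ) (hv : sym v = some g) (i : List Γ)
    (t : List (Option Γ)) (o : List Δ) (m a b c : List Bool) : ∀ (l : List Γ), g ∈ l →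
    TM2.stepAux (pushSym sym code l q) v (join (mk4 m a b c) i t o) =
      TM2.stepAux q v (join (mk4 ((code g).reverse ++ m) a b c) i t o) := by
  intro l
  induction l with
  | nil => intro h; simp at h
  | cons x l ih =>
    intro h
    by_cases hx : g = x
    · subst hx
      simp only [pushSym, TM2.stepAux, hv, decide_true, cond_true]
      exact stepAux_pushL q v i t o a b c (code g) m
    · have h1 : g ∈ l := by
        rcases List.mem_cons.1 h with h | h
        · exact absurd h hx
        · exact h
      have h2 : ¬ (some g = some x) := by simpa using hx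
      simp only [pushSym, TM2.stepAux, hv, h2, decide_false, cond_false]
      exact ih h1

/-- write the symbol with a given index -/
def outSym (cnt : E → ℕ) (idx : Δ → ℕ) : List Δ →
    TM2.Stmt (GG Γ Δ) L E → TM2.Stmt (GG Γ Δ) L E
  | [], q => q
  | d :: l, q => .branch (fun v => decide (cnt v = idx d)) (.push .O (fun _ => d) q)
      (outSym cnt idx l q)

theorem stepAux_outSym (cnt : E → ℕ) (idx : Δ → ℕ) (hidx : Function.Injective idx)
    (q : TM2.Stmt (GG Γ Δ) L E) (v : E) (d : Δ) (hv : cnt v = idx d) (S : Sto) (i : List Γ)
    (t : List (Option Γ)) (o : List Δ) : ∀ (l : List Δ), d ∈ l →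
    TM2.stepAux (outSym cnt idx l q) v (join S i t o) =
      TM2.stepAux q v (join S i t (d :: o)) := by
  intro l
  induction l with
  | nil => intro h; simp at h
  | cons x l ih =>
    intro h
    by_cases hx : d = x
    · subst hx
      simp only [outSym, TM2.stepAux, hv, decide_true, cond_true, join_O]
      congr 1
      exact upd_O S i t o _
    · have h1 : d ∈ l := by
        rcases List.mem_cons.1 h with h | h
        · exact absurd h hx
        · exact h
      have h2 : ¬ (idx d = idx x) := fun h' => hx (hidx h')
      simp only [outSym, TM2.stepAux, hv, h2, decide_false, cond_false]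
      exact ih h1

end machine

section final

variable {Γ Δ : Type} [Fintype Γ] [Fintype Δ] [DecidableEq Γ] [Enc Γ]

/-- the state -/
abbrev ST (Γ : Type) (n : ℕ) : Type := Option Bool × (Option Γ × Fin (n + 1))

/-- the program of the whole machine -/
noncomputable def prog (p : Prog) (idx : Δ → ℕ) (n : ℕ) :
    (Bool ⊕ Option (Lab p)) → TM2.Stmt (GG Γ Δ) (Bool ⊕ Option (Lab p)) (ST Γ n)
  | .inl false => .pop .I (fun v x => (v.1, x, v.2.2))
      (.branch (fun v => v.2.1.isSome) (.push .T (fun v => v.2.1) (.goto fun _ => .inl false))
        (.push (.s .M) (fun _ => false) (.goto fun _ => .inl true)))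
  | .inl true => .pop .T (fun v x => (v.1, x.getD none, v.2.2))
      (.branch (fun v => v.2.1.isSome)
        (pushSym (fun v => v.2.1) (fun g => (enc g).bits.reverse ++ [true]) Finset.univ.toList
          (.goto fun _ => .inl true))
        (.goto fun _ => .inr (some (start p))))
  | .inr (some a) => liftS (comp p some none a)
  | .inr none => .pop (.s .M) (fun v x => (x, v.2))
      (.branch (fun v => v.1 == some true)
        (.load (fun v => (v.1, v.2.1, v.2.2 + 1)) (.goto fun _ => .inr none))
        (.branch (fun v => v.1 == some false)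
          (outSym (fun v => v.2.2.val) idx Finset.univ.toList
            (.load (fun v => (v.1, v.2.1, 0)) (.goto fun _ => .inr none)))
          (.load (fun _ => (none, none, 0)) .halt)))

variable (p : Prog) (idx : Δ → ℕ) (n : ℕ)

theorem phase1 (o : List Δ) (m a b c : List Bool) (v : Option Bool) (e : Fin (n + 1)) :
    ∀ (i : List Γ) (t : List (Option Γ)) (g : Option Γ),
    Steps (prog p idx n) ⟨some (.inl false), (v, g, e), join (mk4 m a b c) i t o⟩
      ⟨some (.inl true), (v, none, e), join (mk4 (false :: m) a b c) []
        (i.reverse.map some ++ t) o⟩ (i.length + 1) := by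
  intro i
  induction i with
  | nil =>
    intro t g
    apply Steps.one
    simp only [TM2.step, prog, TM2.stepAux, join_I, List.head?_nil, List.tail_nil,
      Option.isSome_none, cond_false, upd_I, join_s, mk4_M]
    have h1 := upd_s (mk4 m a b c) ([] : List Γ) t o .M (false :: m)
    rw [upd_M] at h1
    rw [h1]
    rfl
  | cons x i ih =>
    intro t g
    have h1 : Steps (prog p idx n) ⟨some (.inl false), (v, g, e), join (mk4 m a b c) (x :: i) t o⟩
        ⟨some (.inl false), (v, some x, e), join (mk4 m a b c) i (some x :: t) o⟩ 1 := by
      apply Steps.one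
      simp only [TM2.step, prog, TM2.stepAux, join_I, List.head?_cons, List.tail_cons,
        Option.isSome_some, cond_true, upd_I, join_T]
      rw [upd_T]
    have h2 := h1.trans (ih (some x :: t) (some x))
    rw [List.length_cons, Nat.add_comm i.length 1, Nat.add_assoc]
    simpa using h2

theorem phase2 (o : List Δ) (a b c : List Bool) (v : Option Bool) (e : Fin (n + 1)) :
    ∀ (t : List Γ) (m : List Bool) (g : Option Γ),
    Steps (prog p idx n) ⟨some (.inl true), (v, g, e), join (mk4 m a b c) [] (t.map some) o⟩
      ⟨some (.inr (some (start p))), (v, none, e),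
        join (mk4 (t.foldl (fun m g => true :: ((enc g).bits ++ m)) m) a b c) [] [] o⟩
      (t.length + 1) := by
  intro t
  induction t with
  | nil =>
    intro m g
    apply Steps.one
    simp only [TM2.step, prog, TM2.stepAux, List.map_nil, join_T, List.head?_nil, List.tail_nil,
      Option.getD_none, Option.isSome_none, cond_false, upd_T]
    rfl
  | cons x t ih =>
    intro m g
    have h1 : Steps (prog p idx n) ⟨some (.inl true), (v, g, e),
          join (mk4 m a b c) [] ((x :: t).map some) o⟩
        ⟨some (.inl true), (v, some x, e),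
          join (mk4 (true :: ((enc x).bits ++ m)) a b c) [] (t.map some) o⟩ 1 := by
      apply Steps.one
      simp only [TM2.step, prog, TM2.stepAux, List.map_cons, join_T, List.head?_cons,
        List.tail_cons, Option.getD_some, Option.isSome_some, cond_true, upd_T]
      rw [stepAux_pushSym (fun v : ST Γ n => v.2.1) (fun g => (enc g).bits.reverse ++ [true])
        _ _ x rfl _ _ _ _ _ _ _ _ (by simp)]
      simp [TM2.stepAux]
    have h2 := h1.trans (ih (true :: ((enc x).bits ++ m)) (some x))
    rw [List.length_cons, Nat.add_comm t.length 1, Nat.add_assoc]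
    simpa using h2

theorem phase4 (hidx : Function.Injective idx) (hn : ∀ d, idx d < n) (i : List Γ)
    (t : List (Option Γ)) (a b c : List Bool) (g : Option Γ) :
    ∀ (y : List Δ) (v : Option Bool) (o : List Δ),
    Steps (prog p idx n) ⟨some (.inr none), (v, g, 0), join (mk4
        (y.flatMap (fun d => List.replicate (idx d) true ++ [false])) a b c) i t o⟩
      ⟨none, (none, none, 0), join (mk4 [] a b c) i t (y.reverse ++ o)⟩
      ((y.flatMap (fun d => List.replicate (idx d) true ++ [false])).length + 1) := by
  have key : ∀ (k : ℕ) (m : List Bool) (v : Option Bool) (j : ℕ) (hj : j + k < n + 1)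
      (o : List Δ),
      ∃ v', Steps (prog p idx n) ⟨some (.inr none), (v, g, ⟨j, by omega⟩),
        join (mk4 (List.replicate k true ++ m) a b c) i t o⟩
      ⟨some (.inr none), (v', g, ⟨j + k, hj⟩), join (mk4 m a b c) i t o⟩ k := by
    intro k
    induction k with
    | zero => intro m v j hj o; exact ⟨v, rfl⟩
    | succ k ih =>
      intro m v j hj o
      obtain ⟨v', h1⟩ := ih m (some true) (j + 1) (by omega) o
      refine ⟨v', ?_⟩
      have h2 : Steps (prog p idx n) ⟨some (.inr none), (v, g, ⟨j, by omega⟩),
          join (mk4 (List.replicate (k + 1) true ++ m) a b c) i t o⟩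
        ⟨some (.inr none), (some true, g, ⟨j + 1, by omega⟩),
          join (mk4 (List.replicate k true ++ m) a b c) i t o⟩ 1 := by
        apply Steps.one
        rw [List.replicate_succ]
        simp only [List.cons_append, TM2.step, prog, TM2.stepAux, join_s, mk4_M,
          List.head?_cons, List.tail_cons, beq_self_eq_true, cond_true]
        have h3 := upd_s (mk4 (true :: (List.replicate k true ++ m)) a b c) i t o .M
          (List.replicate k true ++ m)
        rw [upd_M] at h3
        rw [h3]
        have h4 : (⟨j, by omega⟩ + 1 : Fin (n + 1)) = ⟨j + 1, by omega⟩ := by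
          apply Fin.ext
          rw [Fin.val_add_one_of_lt]
          exact Fin.lt_def.2 (by simp; omega)
        rw [h4]
      have h5 := h2.trans h1
      have h6 : (⟨j + 1 + k, by omega⟩ : Fin (n + 1)) = ⟨j + (k + 1), by omega⟩ :=
        Fin.ext (by simp; omega)
      rw [h6, Nat.add_comm 1 k] at h5
      exact h5
  intro y
  induction y with
  | nil =>
    intro v o
    apply Steps.one
    simp only [List.flatMap_nil, TM2.step, prog, TM2.stepAux, join_s, mk4_M,
      List.head?_nil, List.tail_nil]
    have h3 := upd_s (mk4 [] a b c) i t o .M []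
    rw [upd_M] at h3
    rw [h3]
    simp
  | cons d y ih =>
    intro v o
    obtain ⟨v', h1⟩ := key (idx d) (false :: (y.flatMap
      (fun d => List.replicate (idx d) true ++ [false]))) v 0 (by have := hn d; omega) o
    have h2 : Steps (prog p idx n) ⟨some (.inr none), (v', g, ⟨0 + idx d, by
          have := hn d; omega⟩),
        join (mk4 (false :: (y.flatMap
          (fun d => List.replicate (idx d) true ++ [false]))) a b c) i t o⟩
        ⟨some (.inr none), (some false, g, 0), join (mk4 (y.flatMap
          (fun d => List.replicate (idx d) true ++ [false])) a b c) i t (d :: o)⟩ 1 := by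
      apply Steps.one
      simp only [TM2.step, prog, TM2.stepAux, join_s, mk4_M, List.head?_cons, List.tail_cons]
      have h3 := upd_s (mk4 (false :: (y.flatMap
          (fun d => List.replicate (idx d) true ++ [false]))) a b c) i t o .M
          (y.flatMap (fun d => List.replicate (idx d) true ++ [false]))
      rw [upd_M] at h3
      rw [h3]
      have h4 : ((some false : Option Bool) == some true) = false := rfl
      have h5 : ((some false : Option Bool) == some false) = true := rfl
      rw [h4, h5, cond_false, cond_true]
      rw [stepAux_outSym (fun v : ST Γ n => v.2.2.val) idx hidx _ _ d (by simp) _ _ _ _ _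
        (by simp)]
      rfl
    have h3 := (h1.trans h2).trans (ih (some false) (d :: o))
    have e1 : (d :: y).flatMap (fun d => List.replicate (idx d) true ++ [false]) =
        List.replicate (idx d) true ++ (false :: (y.flatMap
          (fun d => List.replicate (idx d) true ++ [false]))) := by simp
    have e2 : ((d :: y).flatMap (fun d => List.replicate (idx d) true ++ [false])).length + 1 =
        idx d + 1 + ((y.flatMap
          (fun d => List.replicate (idx d) true ++ [false])).length + 1) := by
      rw [e1]; simp; omega
    have e3 : (d :: y).reverse ++ o = y.reverse ++ (d :: o) := by simp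
    rw [e2, e1, e3]
    exact h3

/-- the machine -/
noncomputable def mach : FinTM2 where
  K := KK
  k₀ := .I
  k₁ := .O
  Γ := GG Γ Δ
  Λ := Bool ⊕ Option (Lab p)
  main := .inl false
  σ := ST Γ n
  initialState := (none, none, 0)
  Γk₀Fin := inferInstanceAs (Fintype Γ)
  m := prog p idx n

/-- the number of an element -/
noncomputable def nidx (d : Δ) : ℕ := (Fintype.equivFin Δ d).val

omit [Enc Γ] [Fintype Γ] [DecidableEq Γ] in
theorem nidx_inj : Function.Injective (nidx : Δ → ℕ) := fun _ _ h =>
  (Fintype.equivFin Δ).injective (Fin.ext h)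

theorem nidx_lt (d : Δ) : nidx d < Fintype.card Δ := (Fintype.equivFin Δ d).isLt

omit [Fintype Γ] [DecidableEq Γ] in
theorem bits_eq (x : List Γ) :
    x.reverse.foldl (fun m g => true :: ((enc g).bits ++ m)) [false] = (enc x).bits := by
  rw [List.foldl_reverse]
  induction x with
  | nil => rfl
  | cons g x ih => rw [List.foldr_cons, ih]; rfl

/-- the code of the four stack program, ending with a halt -/
def prog0 : Option (Lab p) → TM2.Stmt Gam (Option (Lab p)) (Option Bool)
  | some a => comp p some none a
  | none => .halt

theorem outputs (hidx : Function.Injective idx) (hn : ∀ d, idx d < n) (x : List Γ) (y : List Δ)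
    (B : ℕ) (h : Run p (stk [enc x] []) (mk4 (y.reverse.flatMap
      (fun d => List.replicate (idx d) true ++ [false])) [] [] []) B) :
    Nonempty (TM2OutputsInTime (mach (Γ := Γ) p idx n) x (some y)
      (x.length + 1 + (x.length + 1) + (B + ((y.reverse.flatMap
      (fun d => List.replicate (idx d) true ++ [false])).length + 1)))) := by
  obtain ⟨N, hN, hev⟩ := h
  have h1 := phase1 (Γ := Γ) p idx n [] [] [] [] [] none 0 x [] none
  have h2 := phase2 (Γ := Γ) p idx n [] [] [] [] none 0 x.reverse [false] none
  have e1 : x.reverse.map some ++ [] = x.reverse.map (some : Γ → Option Γ) := by simp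
  rw [e1] at h1
  have h12 := h1.trans h2
  rw [bits_eq, List.length_reverse] at h12
  obtain ⟨v', h3⟩ := ev_steps (prog0 p) hev some none (fun a => rfl) none
  have h3' := sim (Γ := Γ) (Δ := Δ) (E := Option Γ × Fin (n + 1)) (prog0 p) rfl
    (prog p idx n) (fun a => rfl) (none, 0) [] [] [] _ rfl N _ h3
  have h4 := phase4 (Γ := Γ) p idx n hidx hn [] [] [] [] [] none y.reverse v' []
  have e3 : liftC (Γ := Γ) (Δ := Δ) (L := Option (Lab p)) ((none, 0) : Option Γ × Fin (n + 1))
      [] [] [] ⟨some (some (start p)), none, stk [enc x] []⟩ =
      ⟨some (.inr (some (start p))), (none, none, 0),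
        join (mk4 (enc x).bits [] [] []) [] [] []⟩ := by
    unfold liftC
    have : stk [enc x] [] = mk4 (enc x).bits [] [] [] := by simp [stk]
    rw [this]
    rfl
  rw [e3] at h3'
  have h5 := h12.trans (h3'.trans h4)
  have hi : Turing.initList (mach (Γ := Γ) p idx n) x =
      (⟨some (.inl false), (none, none, 0), join (mk4 [] [] [] []) x [] []⟩ :
        TM2.Cfg (GG Γ Δ) (Bool ⊕ Option (Lab p)) (ST Γ n)) := by
    unfold Turing.initList
    congr 1
    funext k
    cases k with
    | s k => cases k <;> rfl
    | I => rfl
    | T => rfl
    | O => rfl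
  have ho : Turing.haltList (mach (Γ := Γ) p idx n) y =
      (⟨none, (none, none, 0), join (mk4 [] [] [] []) [] [] (y.reverse.reverse ++ [])⟩ :
        TM2.Cfg (GG Γ Δ) (Bool ⊕ Option (Lab p)) (ST Γ n)) := by
    unfold Turing.haltList
    congr 1
    funext k
    cases k with
    | s k => cases k <;> rfl
    | I => rfl
    | T => rfl
    | O => simp [mach]
  refine ⟨⟨⟨x.length + 1 + (x.length + 1) + (N + ((y.reverse.flatMap
      (fun d => List.replicate (idx d) true ++ [false])).length + 1)), ?_⟩, ?_⟩⟩
  · rw [hi]
    simp only [Option.map_some, ho]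
    exact h5
  · simp only
    omega

end final

/-- A `Poly` function between lists over finite alphabets is computed in polynomial time by a
stack machine working on the strings themselves. -/
theorem tm2_of_poly {Γ Δ : Type} [Finite Γ] [Finite Δ] [Enc Γ] [Enc Δ] {f : List Γ → List Δ}
    (hf : Poly f) :
    Nonempty (TM2ComputableInPolyTime (id : List Γ → List Γ) (id : List Δ → List Δ) f) := by
  classical
  let _ := Fintype.ofFinite Γ
  let _ := Fintype.ofFinite Δ
  have hidx : Poly (nidx : Δ → ℕ) := Poly.of_finite _
  have hnidx : ∀ {α : Type} [Enc α] {g : α → Δ}, Poly g → Poly (fun a => nidx (g a)) :=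
    fun hg => Poly.comp hidx hg
  have hg : Poly (fun s : List Γ => (f s).reverse.flatMap
      (fun d => List.replicate (nidx d) true ++ [false])) := by
    refine Poly.flatMap (f := fun _ d => List.replicate (nidx d) true ++ [false])
      (l := fun s => (f s).reverse) ?_ (by fun_prop)
    exact Poly.append (Poly.replicate (hnidx Poly.snd) (by fun_prop)) (by fun_prop)
  obtain ⟨Q, hQ⟩ := hg.sz_le
  obtain ⟨p, P, h⟩ := hg
  obtain ⟨K, hK⟩ : ∃ K : ℕ, ∀ g : Γ, sz g ≤ K := by
    obtain ⟨K, hK⟩ := (Set.finite_range (fun g : Γ => sz g)).bddAbove
    exact ⟨K, fun g => hK ⟨g, rfl⟩⟩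
  have hsz : ∀ s : List Γ, sz s ≤ s.length * (K + 1) + 1 := fun s =>
    sz_le_of_forall s K (fun g _ => hK g)
  let R : Polynomial ℕ := Polynomial.X * Polynomial.C (K + 1) + 1
  have hR : ∀ s : List Γ, sz s ≤ R.eval s.length := by
    intro s
    simpa [R] using hsz s
  let q : Prog := .seq p ofEnc
  have hrun : ∀ s : List Γ, Run q (stk [enc s] []) (mk4 ((f s).reverse.flatMap
      (fun d => List.replicate (nidx d) true ++ [false])) [] [] [])
      (P.eval (R.eval s.length) + (32 * Q.eval (R.eval s.length) + 2)) := by
    intro s
    refine Run.mono (Run.seq (h s []) (run_ofEnc _)) ?_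
    have h1 : P.eval (sz s) ≤ P.eval (R.eval s.length) := poly_mono P (hR s)
    have h2 := (hQ s).trans (poly_mono Q (hR s))
    have h3 := length_lt_sz ((f s).reverse.flatMap
      (fun d => List.replicate (nidx d) true ++ [false]))
    beta_reduce at h2 ⊢
    omega
  let time : Polynomial ℕ := Polynomial.X + 1 + (Polynomial.X + 1) +
    ((P.comp R + (32 * Q.comp R + 2)) + (Q.comp R + 1))
  refine ⟨{ tm := mach (Γ := Γ) (Δ := Δ) q nidx (Fintype.card Δ)
            inputAlphabet := Equiv.refl _
            outputAlphabet := Equiv.refl _
            time := time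
            outputsFun := fun s => ?_ }⟩
  have key : Nonempty (TM2OutputsInTime (mach (Γ := Γ) (Δ := Δ) q nidx (Fintype.card Δ)) s
      (some (f s)) (time.eval s.length)) := by
    obtain ⟨h1⟩ := outputs q nidx (Fintype.card Δ) nidx_inj nidx_lt s (f s) _ (hrun s)
    refine ⟨⟨h1.toEvalsTo, h1.steps_le_m.trans ?_⟩⟩
    have h2 := (hQ s).trans (poly_mono Q (hR s))
    have h3 := length_lt_sz ((f s).reverse.flatMap
      (fun d => List.replicate (nidx d) true ++ [false]))
    simp only [time, Polynomial.eval_add, Polynomial.eval_X, Polynomial.eval_one,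
      Polynomial.eval_comp, Polynomial.eval_mul, Polynomial.eval_ofNat]
    beta_reduce at h2 ⊢
    omega
  have key2 : ∀ (l1 : List Γ) (l2 : List Δ), l1 = s → l2 = f s →
      TM2OutputsInTime (mach (Γ := Γ) (Δ := Δ) q nidx (Fintype.card Δ)) l1 (some l2)
        (time.eval s.length) := by
    rintro _ _ rfl rfl
    exact Classical.choice key
  exact key2 _ _ (List.map_id _) (List.map_id _)

/-- a string function computed by a machine is `Poly` -/
theorem poly_of_tm2_id {Γ Δ : Type} [Enc Γ] [Enc Δ] {f : List Γ → List Δ}
    (h : Nonempty (TM2ComputableInPolyTime (id : List Γ → List Γ) (id : List Δ → List Δ) f)) :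
    Poly f := by
  obtain ⟨h⟩ := h
  exact poly_of_tm2 (ea := (id : List Γ → List Γ)) (eb := (id : List Δ → List Δ)) h Poly.id

/-- General form: inputs and outputs given by encodings into strings over finite alphabets, the
input encoding having a polynomial-time left inverse. -/
theorem tm2_of_poly_enc {α β Γ Δ : Type} [Enc α] [Enc β] [Finite Γ] [Finite Δ] [Enc Γ] [Enc Δ]
    {ea : α → List Γ} {eb : β → List Δ} {f : α → β} (dc : List Γ → α) (hdc : Poly dc)
    (hd : ∀ a, dc (ea a) = a) (heb : Poly eb) (hf : Poly f) :
    Nonempty (TM2ComputableInPolyTime ea eb f) := by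
  have h1 : Poly (fun s => eb (f (dc s))) := by fun_prop
  obtain ⟨M⟩ := tm2_of_poly h1
  exact ⟨{ tm := M.tm
           inputAlphabet := M.inputAlphabet
           outputAlphabet := M.outputAlphabet
           time := M.time
           outputsFun := fun x => by
            have := M.outputsFun (ea x)
            simp only [id] at this
            rw [hd] at this
            exact this }⟩

end Raw

end Pool.Agent.H.MP_521f94_lc
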