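import Pool.Agent.H.MP_521f94_lc.Terms

namespace Pool.Agent.H.MP_521f94_lc

open MvPolynomial

/-- one step of a certificate: the operation and the next polynomial -/
abbrev CStep := Option (Bool × List ℕ × ℕ) × List Term

/-- the polynomial reconstructed from a step -/
def recon (gens : List (List Term)) (c : CStep) : List Term :=
  match c.1 with
  | none => c.2 ++ c.2
  | some o => mulT o.1 o.2.1 (gens.getD o.2.2 []) ++ c.2

/-- the check of a certificate -/
def check (m : ℕ) (gens : List (List Term)) : List Term → List CStep → Bool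
  | f, [] => same m f []
  | f, c :: cs => same m f (recon gens c) && check m gens c.2 cs

theorem check_sound {m : ℕ} {gens : List (List Term)} {J : Ideal (MvPolynomial (Fin m) ℤ)}
    (hg : ∀ g ∈ gens, polyOf m g ∈ J) : ∀ (cs : List CStep) (f : List Term),
    check m gens f cs = true → polyOf m f ∈ J := by
  intro cs
  induction cs with
  | nil =>
    intro f h
    rw [check, same_iff, polyOf_nil] at h
    rw [h]; exact J.zero_mem
  | cons c cs ih =>
    intro f h
    rw [check, Bool.and_eq_true, same_iff] at h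
    rw [h.1]
    have h1 := ih c.2 h.2
    unfold recon
    split
    · rw [polyOf_append]; exact J.add_mem h1 h1
    · rename_i o _
      rw [polyOf_append, polyOf_mulT]
      refine J.add_mem ?_ h1
      rw [zsmul_eq_mul]
      apply J.mul_mem_left
      apply J.mul_mem_left
      rw [List.getD_eq_getElem?_getD]
      rcases lt_or_ge o.2.2 gens.length with h2 | h2
      · rw [List.getElem?_eq_getElem h2]
        exact hg _ (List.getElem_mem h2)
      · rw [List.getElem?_eq_none h2]
        simp [polyOf_nil]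

/-- size bounds for a list of terms -/
def TBd (m A D : ℕ) (L : List Term) : Prop :=
  L.length ≤ A ∧ ∀ t ∈ L, t.2.length ≤ D ∧ ∀ i ∈ t.2, i < m

/-- size bounds for a certificate step -/
def CBd (m A D r : ℕ) (c : CStep) : Prop :=
  TBd m A D c.2 ∧ ∀ o ∈ c.1, o.2.1.length ≤ D ∧ (∀ i ∈ o.2.1, i < m) ∧ o.2.2 < r

theorem check_complete {m : ℕ} {gs : Finset (MvPolynomial (Fin m) ℤ)} {gens : List (List Term)}
    (hg : ∀ g ∈ gs, ∃ j, ∃ h : j < gens.length, polyOf m gens[j] = g) {A D : ℕ}
    {f : MvPolynomial (Fin m) ℤ} {n : ℕ} (hc : Chain gs A D f n) : ∀ (f0 : List Term),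
    polyOf m f0 = f → ∃ cs : List CStep, cs.length = n ∧ check m gens f0 cs = true ∧
      ∀ c ∈ cs, CBd m A D gens.length c := by
  induction hc with
  | nil =>
    intro f0 hf0
    refine ⟨[], rfl, ?_, by simp⟩
    rw [check, same_iff, hf0, polyOf_nil]
  | @sub f n s α g hgs hα hN hT _ ih =>
    intro f0 hf0
    obtain ⟨L, h1, h2, h3⟩ := exists_polyOf m f
    obtain ⟨cs, hn, hch, hb⟩ := ih L h1
    obtain ⟨j, hj, hgj⟩ := hg g hgs
    obtain ⟨l, hl1, hl2, hl3⟩ := exists_expo m α
    refine ⟨(some (s, l, j), L) :: cs, by simp [hn], ?_, ?_⟩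
    · rw [check, Bool.and_eq_true, same_iff]
      refine ⟨?_, hch⟩
      rw [hf0]
      simp only [recon]
      rw [polyOf_append, polyOf_mulT, hl1, h1, List.getD_eq_getElem?_getD,
        List.getElem?_eq_getElem hj, Option.getD_some, hgj]
    · intro c hc
      rcases List.mem_cons.1 hc with rfl | hc
      · refine ⟨⟨by simp only; omega, fun t ht => ⟨((h3 t ht).1).trans hT, (h3 t ht).2⟩⟩, ?_⟩
        intro o ho
        simp at ho
        subst ho
        exact ⟨by simp only; omega, hl3, hj⟩
      · exact hb c hc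
  | @dbl f n hN hT _ ih =>
    intro f0 hf0
    obtain ⟨L, h1, h2, h3⟩ := exists_polyOf m f
    obtain ⟨cs, hn, hch, hb⟩ := ih L h1
    refine ⟨(none, L) :: cs, by simp [hn], ?_, ?_⟩
    · rw [check, Bool.and_eq_true, same_iff]
      refine ⟨?_, hch⟩
      rw [hf0]
      simp only [recon]
      rw [polyOf_append, h1]
    · intro c hc
      rcases List.mem_cons.1 hc with rfl | hc
      · refine ⟨⟨by simp only; omega, fun t ht => ⟨((h3 t ht).1).trans hT, (h3 t ht).2⟩⟩, ?_⟩
        intro o ho
        simp at ho
      · exact hb c hc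

/-- membership in a fixed ideal has short certificates -/
theorem exists_cert {m : ℕ} (J : Ideal (MvPolynomial (Fin m) ℤ)) :
    ∃ (gens : List (List Term)) (P : Polynomial ℕ),
      (∀ (cs : List CStep) (f : List Term), check m gens f cs = true → polyOf m f ∈ J) ∧
      ∀ (d : ℕ) (f : List Term), polyOf m f ∈ J → f.length ≤ d → (∀ t ∈ f, t.2.length ≤ d) →
        ∃ cs : List CStep, cs.length ≤ P.eval d ∧ check m gens f cs = true ∧
          ∀ c ∈ cs, CBd m (P.eval d) (P.eval d) gens.length c := by
  classical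
  obtain ⟨gs, hgs, P, hP⟩ := chain_main J
  choose rep hrep using fun f : MvPolynomial (Fin m) ℤ => exists_polyOf m f
  refine ⟨gs.toList.map rep, P, ?_, ?_⟩
  · intro cs f h
    apply check_sound _ cs f h
    intro g hg
    obtain ⟨g', hg', rfl⟩ := List.mem_map.1 hg
    rw [(hrep g').1]
    exact hgs g' (Finset.mem_toList.1 hg')
  · intro d f hf hd1 hd2
    obtain ⟨n, hn, hch⟩ := hP d _ hf (totalDegree_polyOf_le m f d hd2)
      ((N1_polyOf_le m f).trans hd1)
    obtain ⟨cs, h1, h2, h3⟩ := check_complete (gens := gs.toList.map rep) (by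
      intro g hg
      obtain ⟨j, hj, hgj⟩ := List.getElem_of_mem (Finset.mem_toList.2 hg)
      refine ⟨j, by simpa using hj, ?_⟩
      rw [List.getElem_map, (hrep _).1, hgj]) hch f rfl
    exact ⟨cs, by omega, h2, h3⟩

end Pool.Agent.H.MP_521f94_lc
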