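import Pool.Agent.H.MP_521f94_lc.Rep

namespace Pool.Agent.H.MP_521f94_lc

open MvPolynomial

/-- sign of a Boolean -/
def sg (s : Bool) : ℤ := if s then 1 else -1

/-- Chains of small polynomials, ending in `0`. -/
inductive Chain {m : ℕ} (gs : Finset (MvPolynomial (Fin m) ℤ)) (A D : ℕ) :
    MvPolynomial (Fin m) ℤ → ℕ → Prop
  | nil : Chain gs A D 0 0
  | sub {f : MvPolynomial (Fin m) ℤ} {n : ℕ} (s : Bool) (α : Fin m →₀ ℕ)
      (g : MvPolynomial (Fin m) ℤ) : g ∈ gs → α.degree ≤ D → N1 f ≤ A → f.totalDegree ≤ D →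
      Chain gs A D f n → Chain gs A D (sg s • (monomial α 1 * g) + f) (n + 1)
  | dbl {f : MvPolynomial (Fin m) ℤ} {n : ℕ} : N1 f ≤ A → f.totalDegree ≤ D →
      Chain gs A D f n → Chain gs A D (f + f) (n + 1)

theorem N1_list_sum_le {ι σ : Type*} (l : List ι) (s : ι → ℤ) (h : ι → MvPolynomial σ ℤ) (H : ℕ)
    (hs : ∀ i ∈ l, (s i).natAbs ≤ 1) (hH : ∀ i ∈ l, N1 (h i) ≤ H) (F : MvPolynomial σ ℤ) :
    N1 ((l.map fun i => s i • h i).sum + F) ≤ l.length * H + N1 F := by
  induction l with
  | nil => simp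
  | cons i l ih =>
    have h1 := ih (fun i hi => hs i (by simp [hi])) (fun i hi => hH i (by simp [hi]))
    rw [List.map_cons, List.sum_cons, add_assoc]
    refine (N1_add_le _ _).trans ?_
    have h2 : N1 (s i • h i) ≤ H := by
      refine (N1_smul _ _).trans ?_
      calc (s i).natAbs * N1 (h i) ≤ 1 * H :=
            Nat.mul_le_mul (hs i (by simp)) (hH i (by simp))
        _ = H := one_mul _
    simp only [List.length_cons]
    linarith

theorem totalDegree_list_sum_le {ι σ : Type*} (l : List ι) (s : ι → ℤ)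
    (h : ι → MvPolynomial σ ℤ) (D : ℕ) (hD : ∀ i ∈ l, (h i).totalDegree ≤ D)
    (F : MvPolynomial σ ℤ) (hF : F.totalDegree ≤ D) :
    ((l.map fun i => s i • h i).sum + F).totalDegree ≤ D := by
  induction l with
  | nil => simpa using hF
  | cons i l ih =>
    have h1 := ih (fun i hi => hD i (by simp [hi]))
    rw [List.map_cons, List.sum_cons, add_assoc]
    refine (totalDegree_add _ _).trans (max_le ?_ h1)
    exact (totalDegree_smul_le _ _).trans (hD i (by simp))

theorem chain_add {m : ℕ} {gs : Finset (MvPolynomial (Fin m) ℤ)} {A D H : ℕ} {ι : Type*}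
    (e : ι → Fin m →₀ ℕ) (g : ι → MvPolynomial (Fin m) ℤ) (hg : ∀ i, g i ∈ gs)
    (he : ∀ i, (e i).degree ≤ D) (hD : ∀ i, (monomial (e i) 1 * g i).totalDegree ≤ D)
    (hH : ∀ i, N1 (monomial (e i) 1 * g i) ≤ H) (s : ι → ℤ)
    (hs : ∀ i, s i = 0 ∨ s i = 1 ∨ s i = -1) (F : MvPolynomial (Fin m) ℤ) (n : ℕ)
    (hF : F.totalDegree ≤ D) (hc : Chain gs A D F n) : ∀ (l : List ι),
    l.length * H + N1 F ≤ A →
    ∃ n' ≤ n + l.length,
      Chain gs A D ((l.map fun i => s i • (monomial (e i) 1 * g i)).sum + F) n' := by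
  intro l
  induction l with
  | nil => intro _; exact ⟨n, by simp, by simpa using hc⟩
  | cons i l ih =>
    intro hA
    simp only [List.length_cons] at hA
    have hA' : l.length * H + N1 F ≤ A := by
      have : l.length * H ≤ (l.length + 1) * H := Nat.mul_le_mul_right _ (by omega)
      omega
    obtain ⟨n', hn', hc'⟩ := ih hA'
    have hs1 : ∀ i ∈ l, (s i).natAbs ≤ 1 := by
      intro i _
      rcases hs i with h | h | h <;> simp [h]
    have hN := (N1_list_sum_le l s (fun i => monomial (e i) 1 * g i) H hs1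
      (fun i _ => hH i) F).trans hA'
    have hT := totalDegree_list_sum_le l s (fun i => monomial (e i) 1 * g i) D
      (fun i _ => hD i) F hF
    rw [List.map_cons, List.sum_cons, add_assoc]
    rcases hs i with h | h | h
    · refine ⟨n', by simp; omega, ?_⟩
      rw [h, zero_smul, zero_add]
      exact hc'
    · refine ⟨n' + 1, by simp; omega, ?_⟩
      have := Chain.sub true (e i) (g i) (hg i) (he i) hN hT hc'
      rw [h]
      simpa [sg] using this
    · refine ⟨n' + 1, by simp; omega, ?_⟩
      have := Chain.sub false (e i) (g i) (hg i) (he i) hN hT hc'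
      rw [h]
      simpa [sg] using this

theorem int_halve (c : ℤ) : ∃ s c' : ℤ, c = s + (c' + c') ∧ (s = 0 ∨ s = 1 ∨ s = -1) ∧
    2 * c'.natAbs ≤ c.natAbs := by
  rcases le_total 0 c with h | h
  · exact ⟨c % 2, c / 2, by omega, by omega, by omega⟩
  · exact ⟨-((-c) % 2), -((-c) / 2), by omega, by omega, by omega⟩

theorem chain_bits {m : ℕ} {gs : Finset (MvPolynomial (Fin m) ℤ)} {A D H : ℕ} {ι : Type*}
    (e : ι → Fin m →₀ ℕ) (g : ι → MvPolynomial (Fin m) ℤ) (hg : ∀ i, g i ∈ gs)
    (he : ∀ i, (e i).degree ≤ D) (hD : ∀ i, (monomial (e i) 1 * g i).totalDegree ≤ D)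
    (hH : ∀ i, N1 (monomial (e i) 1 * g i) ≤ H) (l : List ι) (hl : l.length * H ≤ A) :
    ∀ (K : ℕ) (c : ι → ℤ), (∀ i, (c i).natAbs < 2 ^ K) →
      N1 ((l.map fun i => c i • (monomial (e i) 1 * g i)).sum) ≤ A →
      ∃ n ≤ K * (l.length + 1),
        Chain gs (3 * A) D ((l.map fun i => c i • (monomial (e i) 1 * g i)).sum) n := by
  intro K
  induction K with
  | zero =>
    intro c hc _
    refine ⟨0, by simp, ?_⟩
    have h1 : ∀ i, c i = 0 := by
      intro i
      have := hc i
      simp at this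
      exact this
    simp only [h1, zero_smul]
    have : (l.map fun _ => (0 : MvPolynomial (Fin m) ℤ)).sum = 0 := by simp
    rw [this]
    exact Chain.nil
  | succ K ih =>
    intro c hc hA
    choose s c' hcs hs hcc using fun i => int_halve (c i)
    have hc' : ∀ i, (c' i).natAbs < 2 ^ K := by
      intro i
      have h1 := hc i
      have h2 := hcc i
      rw [pow_succ] at h1
      omega
    let F : MvPolynomial (Fin m) ℤ := (l.map fun i => c' i • (monomial (e i) 1 * g i)).sum
    have hF : (l.map fun i => c i • (monomial (e i) 1 * g i)).sum =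
        (l.map fun i => s i • (monomial (e i) 1 * g i)).sum + (F + F) := by
      simp only [F]
      rw [← List.sum_map_add, ← List.sum_map_add]
      congr 1
      apply List.map_congr_left
      intro i _
      conv_lhs => rw [hcs i]
      rw [add_smul, add_smul]
    have hFD : F.totalDegree ≤ D := by
      have := totalDegree_list_sum_le l c' (fun i => monomial (e i) 1 * g i) D
        (fun i _ => hD i) 0 (by simp)
      simpa [F] using this
    have hs1 : ∀ i ∈ l, (s i).natAbs ≤ 1 := by
      intro i _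
      rcases hs i with h | h | h <;> simp [h]
    have hFN : 2 * N1 F ≤ 2 * A := by
      rw [← N1_double]
      have h1 : F + F = (l.map fun i => (-s i) • (monomial (e i) 1 * g i)).sum +
          (l.map fun i => c i • (monomial (e i) 1 * g i)).sum := by
        have h3 : (l.map fun i => (-s i) • (monomial (e i) (1 : ℤ) * g i) +
            s i • (monomial (e i) 1 * g i)) = l.map fun _ => 0 := by
          apply List.map_congr_left
          intro i _
          rw [neg_smul, neg_add_cancel]
        have h4 : (l.map fun i => (-s i) • (monomial (e i) (1 : ℤ) * g i)).sum +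
            (l.map fun i => s i • (monomial (e i) 1 * g i)).sum = 0 := by
          rw [← List.sum_map_add, h3]
          simp
        rw [hF, ← add_assoc, h4, zero_add]
      rw [h1]
      refine (N1_list_sum_le l (fun i => -s i) (fun i => monomial (e i) 1 * g i) H
        (fun i hi => by simpa using hs1 i hi) (fun i _ => hH i) _).trans ?_
      omega
    obtain ⟨n, hn, hch⟩ := ih c' hc' (by simp only [F] at hFN; omega)
    have hFN1 : N1 F ≤ A := by omega
    have h2 : Chain gs (3 * A) D (F + F) (n + 1) := Chain.dbl (by omega) hFD hch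
    have hFFD : (F + F).totalDegree ≤ D := (totalDegree_add _ _).trans (max_le hFD hFD)
    obtain ⟨n', hn', hch'⟩ := chain_add e g hg he hD hH s hs (F + F) (n + 1) hFFD h2 l
      (by rw [N1_double]; omega)
    refine ⟨n', ?_, ?_⟩
    · refine hn'.trans ?_
      rw [Nat.add_mul]
      omega
    · rw [hF]; exact hch'

theorem Chain.mono {m : ℕ} {gs : Finset (MvPolynomial (Fin m) ℤ)} {A A' D D' : ℕ}
    (hA : A ≤ A') (hD : D ≤ D') {f : MvPolynomial (Fin m) ℤ} {n : ℕ} (h : Chain gs A D f n) :
    Chain gs A' D' f n := by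
  induction h with
  | nil => exact Chain.nil
  | sub s α g hg hα hN hT _ ih =>
    exact Chain.sub s α g hg (hα.trans hD) (hN.trans hA) (hT.trans hD) ih
  | dbl hN hT _ ih => exact Chain.dbl (hN.trans hA) (hT.trans hD) ih

theorem chain_main {m : ℕ} (J : Ideal (MvPolynomial (Fin m) ℤ)) :
    ∃ gs : Finset (MvPolynomial (Fin m) ℤ), (∀ g ∈ gs, g ∈ J) ∧
      ∃ P : Polynomial ℕ, ∀ (d : ℕ) (f : MvPolynomial (Fin m) ℤ), f ∈ J → f.totalDegree ≤ d →
        N1 f ≤ d → ∃ n ≤ P.eval d, Chain gs (P.eval d) (P.eval d) f n := by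
  classical
  obtain ⟨gs, C, hgs, hC, hrep⟩ := exists_rep J
  let H : ℕ := ∑ g ∈ gs, N1 g
  let T : ℕ := ∑ g ∈ gs, g.totalDegree
  -- length of the list of indices
  let PL : Polynomial ℕ := Polynomial.C gs.card * (Polynomial.X + 1) ^ m
  let PA : Polynomial ℕ := 3 * (Polynomial.X + PL * Polynomial.C H)
  let PD : Polynomial ℕ := Polynomial.C m * Polynomial.X + Polynomial.C T
  let PK : Polynomial ℕ := Polynomial.X + Polynomial.C C * (Polynomial.X + 1) ^ m
  refine ⟨gs, hgs, PA + PD + PK * (PL + 1), fun d f hf hd hN => ?_⟩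
  obtain ⟨c, hc1, hc2⟩ := hrep d f hf hd
  let ι := gs × (box m d)
  let e : ι → Fin m →₀ ℕ := fun i => i.2.1
  let g : ι → MvPolynomial (Fin m) ℤ := fun i => i.1.1
  let l : List ι := (Finset.univ : Finset ι).toList
  have hlen : l.length ≤ PL.eval d := by
    simp only [l, PL, Finset.length_toList, Finset.card_univ, Fintype.card_prod,
      Fintype.card_coe, Polynomial.eval_mul, Polynomial.eval_C, Polynomial.eval_pow,
      Polynomial.eval_add, Polynomial.eval_X, Polynomial.eval_one, ι]
    exact Nat.mul_le_mul_left _ (card_box_le m d)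
  have hH : ∀ i : ι, N1 (monomial (e i) 1 * g i) ≤ H := fun i =>
    (N1_monomial_mul _ _).trans
      (Finset.single_le_sum (f := fun g => N1 g) (fun _ _ => Nat.zero_le _) i.1.2)
  have he : ∀ i : ι, (e i).degree ≤ m * d := by
    intro i
    have h1 := mem_box.1 i.2.2
    rw [Finsupp.degree_eq_sum]
    calc ∑ j, (e i) j ≤ ∑ _j : Fin m, d := Finset.sum_le_sum fun j _ => h1 j
      _ = m * d := by simp
  have heD : ∀ i : ι, (e i).degree ≤ m * d + T := fun i => (he i).trans (Nat.le_add_right _ _)
  have hD : ∀ i : ι, (monomial (e i) 1 * g i).totalDegree ≤ m * d + T := by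
    intro i
    refine (totalDegree_mul _ _).trans (Nat.add_le_add ?_ ?_)
    · refine (totalDegree_monomial_le _ _).trans ?_
      exact he i
    · exact Finset.single_le_sum (f := fun g : MvPolynomial (Fin m) ℤ => g.totalDegree)
        (fun _ _ => Nat.zero_le _) i.1.2
  have hfl : (l.map fun i => c i.1 i.2.1 • (monomial (e i) 1 * g i)).sum = f := by
    conv_rhs => rw [hc2]
    simp only [l]
    rw [Finset.sum_map_toList, Fintype.sum_prod_type]
    apply Finset.sum_congr rfl
    intro g' _
    rw [← Finset.sum_coe_sort (box m d)]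
  have hK : ∀ i : ι, (c i.1 i.2.1).natAbs < 2 ^ (PK.eval d) := by
    intro i
    have h1 := hc1 i.1 i.2.1
    have h2 : N1 f < 2 ^ d := lt_of_le_of_lt hN Nat.lt_two_pow_self
    have h3 : C ^ ((d + 1) ^ m) ≤ 2 ^ (C * (d + 1) ^ m) := by
      rw [pow_mul]
      exact Nat.pow_le_pow_left Nat.lt_two_pow_self.le _
    have h4 : PK.eval d = d + C * (d + 1) ^ m := by simp [PK]
    rw [h4, pow_add]
    refine lt_of_le_of_lt h1 ?_
    have h5 : 0 < 2 ^ (C * (d + 1) ^ m) := by positivity
    calc N1 f * C ^ ((d + 1) ^ m) ≤ N1 f * 2 ^ (C * (d + 1) ^ m) := Nat.mul_le_mul_left _ h3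
      _ < 2 ^ d * 2 ^ (C * (d + 1) ^ m) := Nat.mul_lt_mul_of_pos_right h2 h5
  let A := d + PL.eval d * H
  obtain ⟨n, hn, hch⟩ := chain_bits (gs := gs) (A := A) e g (fun i => i.1.2) heD hD hH l
    ((Nat.mul_le_mul_right _ hlen).trans (by simp only [A]; omega)) (PK.eval d)
    (fun i => c i.1 i.2.1) hK (by rw [hfl]; simp only [A]; omega)
  rw [hfl] at hch
  have hPA : PA.eval d = 3 * A := by simp [PA, A]
  have hPD : PD.eval d = m * d + T := by simp [PD]
  refine ⟨n, ?_, hch.mono ?_ ?_⟩
  · refine hn.trans ?_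
    simp only [Polynomial.eval_add, Polynomial.eval_mul, Polynomial.eval_one]
    have := Nat.mul_le_mul_left (PK.eval d) (Nat.add_le_add_right hlen 1)
    omega
  · simp only [Polynomial.eval_add]
    omega
  · simp only [Polynomial.eval_add]
    omega

end Pool.Agent.H.MP_521f94_lc
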