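import Mathlib

namespace Pool.Agent.H.MP_521f94_lc

open Finset

theorem abv_int_le {K : Type*} [Field K] (v : AbsoluteValue K ℝ) (n : ℤ) :
    v (n : K) ≤ |(n : ℝ)| := by
  have h1 : ∀ n : ℕ, v (n : K) ≤ (n : ℝ) := by
    intro n
    induction n with
    | zero => simp
    | succ n ih =>
      push_cast
      exact (v.add_le _ _).trans (by simpa using ih)
  obtain ⟨m, rfl | rfl⟩ := n.eq_nat_or_neg
  · simpa using h1 m
  · simpa using h1 m

/-- Independence of powers from an absolute value. -/
theorem indep_of_abv {K : Type*} [Field K] (v : AbsoluteValue K ℝ) (τ : K) (hτ : 1 < v τ)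
    (κ : ℝ) (hκ : 1 ≤ κ) (hlow : ∀ n : ℤ, n ≠ 0 → (κ ^ n.natAbs)⁻¹ ≤ v (n : K)) :
    ∃ c : ℕ, 1 ≤ c ∧ ∀ N : ℕ, 1 ≤ N → ∀ d : ℕ → ℤ, (∀ j, |d j| ≤ N) →
      (∑ j ∈ range (N + 1), (d j : K) * τ ^ (c * N * j) = 0) → ∀ j ≤ N, d j = 0 := by
  obtain ⟨c, hc⟩ := pow_unbounded_of_one_lt (4 * κ) hτ
  have hc1 : 1 ≤ c := by
    by_contra h
    have : c = 0 := by omega
    subst this
    norm_num at hc
    linarith
  refine ⟨c, hc1, fun N hN d hd hsum => ?_⟩
  by_contra hcon
  push Not at hcon
  -- the largest index with nonzero coefficient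
  let S := (range (N + 1)).filter fun j => d j ≠ 0
  have hS : S.Nonempty := by
    obtain ⟨j, hj, hdj⟩ := hcon
    exact ⟨j, by simp [S, hdj]; omega⟩
  obtain ⟨J, hJS, hJmax⟩ := S.exists_max_image id hS
  have hJ1 : J < N + 1 := by
    have := (mem_filter.1 hJS).1
    simpa using this
  have hJ2 : d J ≠ 0 := (mem_filter.1 hJS).2
  have hzero : ∀ j, J < j → j < N + 1 → d j = 0 := by
    intro j hj hjN
    by_contra h
    have := hJmax j (by simp [S, h]; omega)
    simp at this
    omega
  have hsplit : ∑ j ∈ range (N + 1), (d j : K) * τ ^ (c * N * j) =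
      ∑ j ∈ range (J + 1), (d j : K) * τ ^ (c * N * j) := by
    symm
    apply sum_subset
    · intro j hj
      simp at hj ⊢
      omega
    · intro j hj hj2
      simp at hj hj2
      rw [hzero j (by omega) (by omega)]
      simp
  rw [hsplit, sum_range_succ] at hsum
  have h1 : (d J : K) * τ ^ (c * N * J) = -∑ j ∈ range J, (d j : K) * τ ^ (c * N * j) := by
    linear_combination hsum
  have h2 : v (d J : K) * v τ ^ (c * N * J) ≤
      ∑ j ∈ range J, v ((d j : K) * τ ^ (c * N * j)) := by
    rw [← map_pow, ← map_mul, h1, v.map_neg]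
    exact v.sum_le _ _
  have hpos : 0 < v τ := by linarith
  rcases Nat.eq_zero_or_pos J with rfl | hJpos
  · simp at h2
    have h3 : v ((d 0 : ℤ) : K) = 0 := by rw [h2]; simp
    have h4 := hlow (d 0) hJ2
    rw [h3] at h4
    have : 0 < (κ ^ (d 0).natAbs)⁻¹ := by positivity
    linarith
  · have h3 : ∑ j ∈ range J, v ((d j : K) * τ ^ (c * N * j)) ≤
        (N : ℝ) * ((N : ℝ) * v τ ^ (c * N * (J - 1))) := by
      have h5 : ∀ j ∈ range J, v ((d j : K) * τ ^ (c * N * j)) ≤
          (N : ℝ) * v τ ^ (c * N * (J - 1)) := by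
        intro j hj
        rw [mem_range] at hj
        rw [map_mul, map_pow]
        have h6 : v ((d j : ℤ) : K) ≤ N := by
          refine (abv_int_le v _).trans ?_
          have := hd j
          exact_mod_cast this
        have h7 : v τ ^ (c * N * j) ≤ v τ ^ (c * N * (J - 1)) :=
          pow_le_pow_right₀ hτ.le (Nat.mul_le_mul_left _ (by omega))
        exact mul_le_mul h6 h7 (by positivity) (by positivity)
      refine (sum_le_card_nsmul _ _ _ h5).trans ?_
      rw [card_range, nsmul_eq_mul]
      have : (J : ℝ) ≤ N := by exact_mod_cast (by omega : J ≤ N)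
      exact mul_le_mul_of_nonneg_right this (by positivity)
    have h4 : v τ ^ (c * N * J) = v τ ^ (c * N * (J - 1)) * (v τ ^ c) ^ N := by
      rw [← pow_mul, ← pow_add]
      congr 1
      obtain ⟨k, rfl⟩ : ∃ k, J = k + 1 := ⟨J - 1, by omega⟩
      simp
      ring
    have hP : 0 < v τ ^ (c * N * (J - 1)) := by positivity
    have h5 : v (d J : K) * (v τ ^ c) ^ N ≤ (N : ℝ) * N := by
      have h6 : v τ ^ (c * N * (J - 1)) * (v (d J : K) * (v τ ^ c) ^ N) ≤
          v τ ^ (c * N * (J - 1)) * ((N : ℝ) * N) := by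
        calc v τ ^ (c * N * (J - 1)) * (v (d J : K) * (v τ ^ c) ^ N)
            = v (d J : K) * v τ ^ (c * N * J) := by rw [h4]; ring
          _ ≤ _ := h2.trans h3
          _ = _ := by ring
      exact le_of_mul_le_mul_left h6 hP
    have h6 : (κ ^ N)⁻¹ ≤ v (d J : K) := by
      refine le_trans ?_ (hlow (d J) hJ2)
      have hle : (d J).natAbs ≤ N := by
        have := hd J
        rw [Int.abs_eq_natAbs] at this
        exact_mod_cast this
      have := pow_le_pow_right₀ hκ hle
      have h0 : 0 < κ ^ (d J).natAbs := by positivity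
      exact inv_anti₀ h0 this
    have hκpos : 0 < κ := by linarith
    have h7 : (v τ ^ c) ^ N ≤ (N : ℝ) * N * κ ^ N := by
      have h8 : (κ ^ N)⁻¹ * (v τ ^ c) ^ N ≤ (N : ℝ) * N :=
        (mul_le_mul_of_nonneg_right h6 (by positivity)).trans h5
      have h9 : 0 < κ ^ N := by positivity
      calc (v τ ^ c) ^ N = κ ^ N * ((κ ^ N)⁻¹ * (v τ ^ c) ^ N) := by
            field_simp
        _ ≤ κ ^ N * ((N : ℝ) * N) := mul_le_mul_of_nonneg_left h8 h9.le
        _ = _ := by ring
    have h8 : (4 * κ) ^ N < (v τ ^ c) ^ N :=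
      pow_lt_pow_left₀ hc (by positivity) (by omega)
    have h9 : (N : ℝ) * N ≤ 4 ^ N := by
      have h10 : (N : ℝ) ≤ 2 ^ N := by exact_mod_cast Nat.lt_two_pow_self.le
      calc (N : ℝ) * N ≤ 2 ^ N * 2 ^ N := mul_le_mul h10 h10 (by positivity) (by positivity)
        _ = 4 ^ N := by rw [← mul_pow]; norm_num
    have h10 : (N : ℝ) * N * κ ^ N ≤ (4 * κ) ^ N := by
      rw [mul_pow]
      exact mul_le_mul_of_nonneg_right h9 (by positivity)
    linarith

/-- lower bound for integers, nonarchimedean case -/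
theorem nonarch_low {K : Type*} [Field K] [CharZero K] (v : AbsoluteValue K ℝ) (hna : IsNonarchimedean v) :
    ∃ κ : ℝ, 1 ≤ κ ∧ ∀ n : ℤ, n ≠ 0 → (κ ^ n.natAbs)⁻¹ ≤ v (n : K) := by
  have hle1 : ∀ n : ℕ, v (n : K) ≤ 1 := by
    intro n
    induction n with
    | zero => simp
    | succ n ih =>
      push_cast
      refine (hna _ _).trans ?_
      simp [ih]
  have key : ∃ κ : ℝ, 1 ≤ κ ∧ ∀ n : ℕ, n ≠ 0 → (κ ^ n)⁻¹ ≤ v (n : K) := by
    by_cases h : ∃ l : ℕ, l ≠ 0 ∧ v (l : K) < 1
    · classical
      have hl := Nat.find_spec h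
      have hmin : ∀ m < Nat.find h, ¬ (m ≠ 0 ∧ v (m : K) < 1) := fun m hm => Nat.find_min h hm
      set l := Nat.find h
      obtain ⟨hl0, hl1⟩ := hl
      have hl2 : 2 ≤ l := by
        rcases Nat.lt_or_ge l 2 with h2 | h2
        · have : l = 1 := by omega
          rw [this] at hl1
          simp at hl1
        · exact h2
      have hv0 : 0 < v (l : K) ∨ v (l : K) = 0 := by
        rcases (v.nonneg (l : K)).lt_or_eq with h | h
        · exact Or.inl h
        · exact Or.inr h.symm
      rcases hv0 with hv0 | hv0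
      · refine ⟨(v (l : K))⁻¹, (one_le_inv₀ hv0).2 hl1.le, ?_⟩
        intro n
        induction n using Nat.strong_induction_on with
        | _ n ih =>
          intro hn
          rw [inv_pow, inv_inv]
          by_cases hr : n % l = 0
          · obtain ⟨q, rfl⟩ := Nat.dvd_of_mod_eq_zero hr
            have hq0 : q ≠ 0 := by rintro rfl; simp at hn
            have hqlt : q < l * q := by nlinarith [Nat.pos_of_ne_zero hq0]
            have h1 := ih q hqlt hq0
            rw [inv_pow, inv_inv] at h1
            push_cast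
            rw [map_mul]
            calc v (l : K) ^ (l * q) ≤ v (l : K) ^ (q + 1) :=
                  pow_le_pow_of_le_one hv0.le hl1.le (by omega)
              _ = v (l : K) * v (l : K) ^ q := by ring
              _ ≤ v (l : K) * v (q : K) := mul_le_mul_of_nonneg_left h1 hv0.le
          · have hlt : n % l < l := Nat.mod_lt _ (by omega)
            have h1 : v ((n % l : ℕ) : K) = 1 := by
              by_contra hne
              exact hmin _ hlt ⟨hr, lt_of_le_of_ne (hle1 _) hne⟩
            have h2 : v (n : K) = 1 := by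
              refine le_antisymm (hle1 n) ?_
              by_contra hlt2
              push Not at hlt2
              have h3 : ((n % l : ℕ) : K) = (n : K) + -((l : K) * ((n / l : ℕ) : K)) := by
                have := Nat.mod_add_div n l
                have h4 : (n : K) = ((n % l + l * (n / l) : ℕ) : K) := by rw [this]
                rw [h4]
                push_cast
                ring
              have h4 := hna (n : K) (-((l : K) * ((n / l : ℕ) : K)))
              rw [← h3, h1, v.map_neg, map_mul] at h4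
              have h5 : v (l : K) * v ((n / l : ℕ) : K) < 1 := by
                calc v (l : K) * v ((n / l : ℕ) : K) ≤ v (l : K) * 1 :=
                      mul_le_mul_of_nonneg_left (hle1 _) hv0.le
                  _ < 1 := by simpa using hl1
              rcases le_max_iff.1 h4 with h6 | h6 <;> linarith
            rw [h2]
            exact pow_le_one₀ hv0.le hl1.le
      · exfalso
        rw [v.eq_zero] at hv0
        exact hl0 (by exact_mod_cast hv0)
    · push Not at h
      refine ⟨1, le_rfl, fun n hn => ?_⟩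
      simpa using h n hn
  obtain ⟨κ, hκ, h⟩ := key
  refine ⟨κ, hκ, fun n hn => ?_⟩
  obtain ⟨m, rfl | rfl⟩ := n.eq_nat_or_neg
  · simpa using h m (by simpa using hn)
  · simpa using h m (by simpa using hn)

theorem exists_abv {K : Type*} [Field K] [NumberField K] (τ : K) (h0 : τ ≠ 0)
    (hτ : ∀ n : ℕ, 1 ≤ n → τ ^ n ≠ 1) :
    ∃ (v : AbsoluteValue K ℝ) (κ : ℝ), 1 < v τ ∧ 1 ≤ κ ∧
      ∀ n : ℤ, n ≠ 0 → (κ ^ n.natAbs)⁻¹ ≤ v (n : K) := by
  by_cases h : ∃ φ : K →+* ℂ, 1 < ‖φ τ‖
  · obtain ⟨φ, hφ⟩ := h
    refine ⟨NumberField.place φ, 1, by simpa [NumberField.place_apply] using hφ, le_rfl,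
      fun n hn => ?_⟩
    have h1 : (1 : ℝ) ≤ |(n : ℝ)| := by
      exact_mod_cast Int.one_le_abs hn
    simpa [NumberField.place_apply] using h1
  · push Not at h
    by_cases hi : IsIntegral ℤ τ
    · obtain ⟨n, hn, h1⟩ := NumberField.Embeddings.pow_eq_one_of_norm_le_one K ℂ h0 hi h
      exact absurd h1 (hτ n hn)
    · have h1 : ∃ v : IsDedekindDomain.HeightOneSpectrum (NumberField.RingOfIntegers K),
          1 < v.valuation K τ := by
        by_contra hcon
        push Not at hcon
        have h2 := IsDedekindDomain.HeightOneSpectrum.mem_integers_of_valuation_le_one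
          (R := NumberField.RingOfIntegers K) K τ hcon
        obtain ⟨y, hy⟩ := h2
        exact hi (by rw [← hy]; exact y.isIntegral_coe)
      obtain ⟨v, hv⟩ := h1
      have hv2 : 1 < NumberField.HeightOneSpectrum.adicAbv K v τ := by
        rw [NumberField.HeightOneSpectrum.adicAbv_def]
        have h3 := WithZeroMulInt.toNNReal_strictMono
          (NumberField.HeightOneSpectrum.one_lt_absNorm_nnreal v) hv
        rw [map_one] at h3
        exact_mod_cast h3
      obtain ⟨κ, hκ, hlow⟩ := nonarch_low (NumberField.HeightOneSpectrum.adicAbv K v)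
        (NumberField.HeightOneSpectrum.isNonarchimedean_adicAbv K v)
      exact ⟨_, κ, hv2, hκ, hlow⟩

/-- transcendental case -/
theorem indep_transc {F D : Type*} [Field F] [CommRing D] [Algebra F D] (τ : D)
    (ht : Transcendental F τ) (N : ℕ) (hN : 1 ≤ N) (d : ℕ → ℤ)
    (h : ∑ j ∈ range (N + 1), (d j : D) * τ ^ (1 * N * j) = 0) : ∀ j ≤ N, (d j : F) = 0 := by
  let P : Polynomial F := ∑ j ∈ range (N + 1), Polynomial.C (d j : F) * Polynomial.X ^ (1 * N * j)
  have hP : Polynomial.aeval τ P = 0 := by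
    simp only [P, map_sum, map_mul, Polynomial.aeval_C, map_pow, Polynomial.aeval_X, map_intCast]
    exact h
  have hP0 : P = 0 := by
    by_contra hne
    exact ht ⟨P, hne, hP⟩
  intro j hj
  have hc : P.coeff (1 * N * j) = (d j : F) := by
    simp only [P, Polynomial.finsetSum_coeff, Polynomial.coeff_C_mul, Polynomial.coeff_X_pow]
    rw [sum_eq_single j]
    · simp
    · intro i _ hij
      have : ¬ (1 * N * j = 1 * N * i) := by
        intro h
        have h2 : N * j = N * i := by simpa using h
        exact hij (Nat.eq_of_mul_eq_mul_left (by omega) h2).symm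
      simp only [this, if_false, mul_zero]
    · intro hj2
      simp at hj2
      omega
  rw [← hc, hP0]
  simp

theorem indep_domain {D : Type*} [CommRing D] [IsDomain D] (τ : D) (h0 : τ ≠ 0)
    (hτ : ∀ n : ℕ, 1 ≤ n → τ ^ n ≠ 1) :
    ∃ p c : ℕ, p ≠ 1 ∧ 1 ≤ c ∧ ∀ N : ℕ, 1 ≤ N → ∀ d : ℕ → ℤ, (∀ j, |d j| ≤ N) →
      (∑ j ∈ range (N + 1), (d j : D) * τ ^ (c * N * j) = 0) → ∀ j ≤ N, (p : ℤ) ∣ d j := by
  obtain ⟨p, hp⟩ := CharP.exists D
  rcases CharP.char_is_prime_or_zero D p with hpr | rfl
  · have : Fact p.Prime := ⟨hpr⟩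
    let : Algebra (ZMod p) D := ZMod.algebra D p
    have ht : Transcendental (ZMod p) τ := by
      intro halg
      have hint : IsIntegral (ZMod p) τ := halg.isIntegral
      have hfin : Module.Finite (ZMod p) (Algebra.adjoin (ZMod p) {τ}) :=
        ⟨(Submodule.fg_top (Subalgebra.toSubmodule (Algebra.adjoin (ZMod p) {τ}))).2
          hint.fg_adjoin_singleton⟩
      have hfin2 : Finite (Algebra.adjoin (ZMod p) {τ}) := Module.finite_of_finite (ZMod p)
      let f : ℕ → Algebra.adjoin (ZMod p) {τ} := fun n =>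
        ⟨τ ^ n, Subalgebra.pow_mem _ (Algebra.self_mem_adjoin_singleton _ _) n⟩
      obtain ⟨i, j, hij, hf⟩ := Finite.exists_ne_map_eq_of_infinite f
      have hf' : τ ^ i = τ ^ j := congrArg Subtype.val hf
      rcases lt_or_gt_of_ne hij with hlt | hlt
      · obtain ⟨k, rfl⟩ := Nat.exists_eq_add_of_lt hlt
        apply hτ (k + 1) (by omega)
        have h1 : τ ^ i * τ ^ (k + 1) = τ ^ i * 1 := by
          rw [← pow_add, mul_one, ← add_assoc, ← hf']
        exact mul_left_cancel₀ (pow_ne_zero _ h0) h1
      · obtain ⟨k, rfl⟩ := Nat.exists_eq_add_of_lt hlt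
        apply hτ (k + 1) (by omega)
        have h1 : τ ^ j * τ ^ (k + 1) = τ ^ j * 1 := by
          rw [← pow_add, mul_one, ← add_assoc, hf']
        exact mul_left_cancel₀ (pow_ne_zero _ h0) h1
    refine ⟨p, 1, hpr.one_lt.ne', le_rfl, fun N hN d _ hsum j hj => ?_⟩
    have := indep_transc (F := ZMod p) τ ht N hN d hsum j hj
    exact (ZMod.intCast_zmod_eq_zero_iff_dvd _ _).1 this
  · have : CharZero D := CharP.charP_to_charZero D
    let F := FractionRing D
    have : CharZero F := by
      exact charZero_of_injective_algebraMap (IsFractionRing.injective D F)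
    let τ' : F := algebraMap D F τ
    have h0' : τ' ≠ 0 := by
      intro h
      exact h0 ((IsFractionRing.to_map_eq_zero_iff (K := F)).1 h)
    have hτ' : ∀ n : ℕ, 1 ≤ n → τ' ^ n ≠ 1 := by
      intro n hn h
      apply hτ n hn
      apply IsFractionRing.injective D F
      rw [map_pow, map_one]
      exact h
    have hmap : ∀ (m : ℕ) (N : ℕ) (d : ℕ → ℤ),
        (∑ j ∈ range (N + 1), (d j : D) * τ ^ (m * N * j) = 0) →
        ∑ j ∈ range (N + 1), (d j : F) * τ' ^ (m * N * j) = 0 := by
      intro m N d h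
      have := congrArg (algebraMap D F) h
      simpa [map_sum, map_mul, map_pow] using this
    by_cases halg : IsAlgebraic ℚ τ'
    · let K := IntermediateField.adjoin ℚ {τ'}
      have : FiniteDimensional ℚ K :=
        IntermediateField.adjoin.finiteDimensional halg.isIntegral
      have : NumberField K := { }
      let σ : K := ⟨τ', IntermediateField.mem_adjoin_simple_self ℚ τ'⟩
      have hσ0 : σ ≠ 0 := by
        intro h
        exact h0' (congrArg Subtype.val h)
      have hσ : ∀ n : ℕ, 1 ≤ n → σ ^ n ≠ 1 := by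
        intro n hn h
        exact hτ' n hn (congrArg Subtype.val h)
      obtain ⟨v, κ, hv, hκ, hlow⟩ := exists_abv σ hσ0 hσ
      obtain ⟨c, hc, hind⟩ := indep_of_abv v σ hv κ hκ hlow
      refine ⟨0, c, by norm_num, hc, fun N hN d hd hsum j hj => ?_⟩
      have h1 := hmap c N d hsum
      have h2 : ∑ j ∈ range (N + 1), (d j : K) * σ ^ (c * N * j) = 0 := by
        apply Subtype.val_injective
        push_cast
        exact h1
      have h3 := hind N hN d hd h2 j hj
      simp [h3]
    · refine ⟨0, 1, by norm_num, le_rfl, fun N hN d hd hsum j hj => ?_⟩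
      have h1 := hmap 1 N d hsum
      have h2 := indep_transc (F := ℚ) τ' halg N hN d h1 j hj
      have h3 : d j = 0 := by exact_mod_cast h2
      simp [h3]

end Pool.Agent.H.MP_521f94_lc
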