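import Pool.Agent.H.MP_521f94_lc.Struct
import Pool.Agent.H.MP_521f94_lc.Indep

namespace Pool.Agent.H.MP_521f94_lc

/-- the conjugate of `b` by the `q`-th power of `T` -/
def cj {G : Type*} [Group G] (T b : G) (q : ℤ) : G := T ^ q * b * (T ^ q)⁻¹

/-- product of conjugates over a list of positions -/
def cfg {G : Type*} [Group G] (T b : G) (L : List ℤ) : G := (L.map (cj T b)).prod

theorem sum_list_count {M : Type*} [AddCommGroup M] (N : ℕ) (f : ℕ → M) (L : List ℤ)
    (h : ∀ q ∈ L, 0 ≤ q ∧ q ≤ N) :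
    (L.map (fun q => f q.toNat)).sum = ∑ j ∈ Finset.range (N + 1), (L.count (j : ℤ) : ℤ) • f j := by
  induction L with
  | nil => simp
  | cons a L ih =>
    have h1 := ih (fun q hq => h q (by simp [hq]))
    have h2 := h a (by simp)
    rw [List.map_cons, List.sum_cons, h1]
    obtain ⟨k, rfl⟩ := Int.eq_ofNat_of_zero_le h2.1
    have hk : k ∈ Finset.range (N + 1) := by
      have := h2.2
      simp; omega
    have h3 : ∀ j ∈ Finset.range (N + 1), (((((k : ℤ) :: L).count (j : ℤ) : ℕ) : ℤ)) • f j =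
        (if j = k then f j else 0) + ((L.count (j : ℤ) : ℕ) : ℤ) • f j := by
      intro j _
      rw [List.count_cons]
      by_cases hj : j = k
      · subst hj
        simp [add_smul, add_comm]
      · have : ¬ ((k : ℤ) = (j : ℤ)) := by
          intro h
          exact hj (by exact_mod_cast h.symm)
        simp [hj, this]
    rw [Finset.sum_congr rfl h3, Finset.sum_add_distrib, Finset.sum_ite_eq' _ k]
    simp [hk]

variable {G : Type*} [Group G] (hG : Metab G)

theorem cfg_eq (T : G) (b : CM G hG) (L : List ℤ) (h : ∀ q ∈ L, 0 ≤ q) :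
    cfg T (ofCM hG b) L = ofCM hG ((L.map (fun q => gr T ^ q.toNat • b)).sum) := by
  induction L with
  | nil => simp [cfg]
  | cons a L ih =>
    have h1 := ih (fun q hq => h q (by simp [hq]))
    have h2 := h a (by simp)
    obtain ⟨k, rfl⟩ := Int.eq_ofNat_of_zero_le h2
    unfold cfg at *
    rw [List.map_cons, List.prod_cons, h1, List.map_cons, List.sum_cons, ofCM_add]
    congr 1
    rw [← gr_pow, ofCM_gr_smul, cj]
    simp

include hG in
theorem exists_clock [Group.FG G] (hV : ¬ VNilp G) :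
    ∃ (t b : G) (p c : ℕ), p ≠ 1 ∧ 1 ≤ c ∧ b ∈ commutator G ∧
      ∀ N : ℕ, 1 ≤ N → ∀ (L1 L2 : List ℤ) (s : ℤ), (∀ q ∈ L1, 0 ≤ q ∧ q ≤ N) →
        (∀ q ∈ L2, 0 ≤ q ∧ q ≤ N) → L1.length ≤ N → L2.length ≤ N →
        cfg (t ^ (c * N)) b L1 * (t ^ (c * N)) ^ s = cfg (t ^ (c * N)) b L2 →
        s = 0 ∧ ∀ q : ℤ, (p : ℤ) ∣ (L1.count q : ℤ) - (L2.count q : ℤ) := by
  classical
  by_contra hcon
  apply hV
  apply vnilp_of hG
  intro t P hP b hb
  by_contra hcon2
  push Not at hcon2
  apply hcon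
  let R := MonoidAlgebra ℤ (Abelianization G)
  have hdom : IsDomain (R ⧸ P) := Ideal.Quotient.isDomain P
  let τ : R ⧸ P := Ideal.Quotient.mk P (gr t)
  have hτu : IsUnit τ := (isUnit_gr t).map _
  have hτ : ∀ n : ℕ, 1 ≤ n → τ ^ n ≠ 1 := by
    intro n hn h
    apply hcon2 n hn
    rw [← Ideal.Quotient.eq, map_pow, map_one]
    exact h
  obtain ⟨p, c, hp, hc, hind⟩ := indep_domain τ hτu.ne_zero hτ
  refine ⟨t, ofCM hG b, p, c, hp, hc, ofCM_mem hG b, ?_⟩
  intro N hN L1 L2 s hL1 hL2 hl1 hl2 heq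
  have hcN : 1 ≤ c * N := Nat.mul_pos hc hN
  -- the shift vanishes
  have hs : s = 0 := by
    by_contra hs
    have h1 : (t ^ (c * N)) ^ s ∈ commutator G := by
      have h2 := cfg_eq hG (t ^ (c * N)) b L1 (fun q hq => (hL1 q hq).1)
      have h3 := cfg_eq hG (t ^ (c * N)) b L2 (fun q hq => (hL2 q hq).1)
      rw [h2, h3] at heq
      have h4 := (commutator G).mul_mem ((commutator G).inv_mem (ofCM_mem hG ((L1.map
        (fun q => gr (t ^ (c * N)) ^ q.toNat • b)).sum))) (ofCM_mem hG ((L2.map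
        (fun q => gr (t ^ (c * N)) ^ q.toNat • b)).sum))
      rw [← heq, inv_mul_cancel_left] at h4
      exact h4
    -- a positive power also lies in the commutator subgroup
    have h2 : t ^ (c * N * s.natAbs) ∈ commutator G := by
      rw [pow_mul]
      rcases Int.natAbs_eq s with h5 | h5
      · rw [h5, zpow_natCast] at h1
        exact h1
      · rw [h5, zpow_neg, zpow_natCast] at h1
        exact (commutator G).inv_mem_iff.1 h1
    have h3 : gr (t ^ (c * N * s.natAbs)) • b = b := by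
      apply ofCM_inj
      rw [ofCM_gr_smul, hG _ h2 _ (ofCM_mem hG b)]
      group
    have h4 : gr t ^ (c * N * s.natAbs) - 1 ∈ P := by
      rw [hb, sub_smul, one_smul, ← gr_pow, h3, sub_self]
    apply hcon2 (c * N * s.natAbs) ?_ h4
    exact Nat.mul_pos hcN (Int.natAbs_pos.2 hs)
  refine ⟨hs, ?_⟩
  subst hs
  rw [zpow_zero, mul_one, cfg_eq hG _ _ _ (fun q hq => (hL1 q hq).1),
    cfg_eq hG _ _ _ (fun q hq => (hL2 q hq).1)] at heq
  have heq2 := ofCM_inj hG heq
  rw [sum_list_count N (fun k => gr (t ^ (c * N)) ^ k • b) L1 hL1,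
    sum_list_count N (fun k => gr (t ^ (c * N)) ^ k • b) L2 hL2] at heq2
  let d : ℕ → ℤ := fun j => (L1.count (j : ℤ) : ℤ) - (L2.count (j : ℤ) : ℤ)
  have hd : ∀ j, |d j| ≤ N := by
    intro j
    have h1 : L1.count (j : ℤ) ≤ N := List.count_le_length.trans hl1
    have h2 : L2.count (j : ℤ) ≤ N := List.count_le_length.trans hl2
    rw [abs_le]
    constructor <;> simp only [d] <;> omega
  have hsum : ∑ j ∈ Finset.range (N + 1), (d j : R ⧸ P) * τ ^ (c * N * j) = 0 := by
    have h1 : (∑ j ∈ Finset.range (N + 1), (d j : R) * gr t ^ (c * N * j)) • b = 0 := by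
      rw [Finset.sum_smul]
      rw [← sub_eq_zero, ← Finset.sum_sub_distrib] at heq2
      rw [← heq2]
      apply Finset.sum_congr rfl
      intro j _
      rw [← sub_smul, mul_smul, gr_pow, ← pow_mul]
      simp only [d]
      rw [Int.cast_smul_eq_zsmul]
    have h2 := (hb _).2 h1
    have h3 := Ideal.Quotient.eq_zero_iff_mem.2 h2
    simpa [map_sum, map_mul, map_pow] using h3
  have hfin := hind N hN d hd hsum
  intro q
  by_cases hq : 0 ≤ q ∧ q ≤ N
  · obtain ⟨k, rfl⟩ := Int.eq_ofNat_of_zero_le hq.1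
    exact hfin k (by have := hq.2; omega)
  · have h1 : L1.count q = 0 := by
      rw [List.count_eq_zero]
      exact fun h => hq (hL1 q h)
    have h2 : L2.count q = 0 := by
      rw [List.count_eq_zero]
      exact fun h => hq (hL2 q h)
    simp [h1, h2]

end Pool.Agent.H.MP_521f94_lc
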