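import Pool.Agent.H.MP_5be563_lc.PT.Conv

/-!
Decoding of typed data from trees, in polynomial time.
-/

namespace Pool.Agent.H.MP_521f94_lc

open Pool.Agent.H.MP_5be563_lc.PT

/-- total decoders which are left inverses of the encodings -/
class Dec (α : Type) [Enc α] where
  dec : D → α
  dec_enc : ∀ a : α, dec (enc a) = a
  poly : Poly dec

export Dec (dec)

theorem dec_enc {α : Type} [Enc α] [Dec α] (a : α) : dec (enc a) = a := Dec.dec_enc a

@[fun_prop]
theorem poly_dec {α β : Type} [Enc α] [Dec α] [Enc β] {f : β → D} (hf : Poly f) :
    Poly (fun b => (dec (f b) : α)) := Poly.comp (f := (dec : D → α)) Dec.poly hf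

/-- the list of trees on the right spine -/
def unD : D → List D
  | .nil => []
  | .cons a b => a :: unD b

theorem enc_unD (d : D) : enc (unD d) = d := by
  induction d with
  | nil => rfl
  | cons a b _ ih =>
    change D.cons (enc a) (enc (unD b)) = _
    rw [ih]; rfl

@[fun_prop]
theorem poly_unD {β : Type} [Enc β] {f : β → D} (hf : Poly f) : Poly (fun b => unD (f b)) :=
  hf.congr_enc fun b => enc_unD (f b)

theorem unD_encList {α : Type} [Enc α] (l : List α) : unD (enc l) = l.map enc := by
  induction l with
  | nil => rfl
  | cons a l ih =>
    change enc a :: unD (enc l) = _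
    rw [ih]; rfl

theorem unD_encNat (n : ℕ) : unD (enc n) = List.replicate n D.nil := by
  induction n with
  | zero => rfl
  | succ n ih =>
    change D.nil :: unD (enc n) = _
    rw [ih]; rfl

instance : Dec Unit where
  dec _ := ()
  dec_enc _ := rfl
  poly := by fun_prop

instance : Dec Bool where
  dec d := !(unD d).isEmpty
  dec_enc a := by cases a <;> rfl
  poly := by fun_prop

instance : Dec ℕ where
  dec d := (unD d).length
  dec_enc a := by rw [unD_encNat]; simp
  poly := by fun_prop

instance {α : Type} [Enc α] [Dec α] : Dec (List α) where
  dec d := (unD d).map dec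
  dec_enc a := by
    rw [unD_encList, List.map_map]
    have : (dec ∘ enc : α → α) = id := by
      funext x; exact dec_enc x
    rw [this, List.map_id]
  poly := by fun_prop

/-- first component -/
def lft : D → D
  | .nil => .nil
  | .cons a _ => a

/-- second component -/
def rgt : D → D
  | .nil => .nil
  | .cons _ b => b

theorem lft_eq (d : D) : lft d = (unD d).headD .nil := by cases d <;> rfl

@[fun_prop]
theorem poly_lft {β : Type} [Enc β] {f : β → D} (hf : Poly f) : Poly (fun b => lft (f b)) := by
  have : Poly (fun b => (unD (f b)).headD .nil) := by fun_prop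
  refine (show (fun b => lft (f b)) = _ from ?_) ▸ this
  funext b; exact lft_eq _

@[fun_prop]
theorem poly_rgt {β : Type} [Enc β] {f : β → D} (hf : Poly f) : Poly (fun b => rgt (f b)) := by
  have : Poly (fun b => (unD (f b)).tail) := by fun_prop
  refine this.congr_enc fun b => ?_
  cases f b with
  | nil => rfl
  | cons x y =>
    change y = enc (unD y)
    rw [enc_unD]

instance {α β : Type} [Enc α] [Dec α] [Enc β] [Dec β] : Dec (α × β) where
  dec d := (dec (lft d), dec (rgt d))
  dec_enc := by
    rintro ⟨a, b⟩
    change (dec (enc a), dec (enc b)) = _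
    rw [dec_enc, dec_enc]
  poly := by fun_prop

instance {α : Type} [Enc α] [Dec α] : Dec (Option α) where
  dec d := if (unD d).isEmpty = true then none else some (dec (rgt d))
  dec_enc := by
    intro a
    cases a with
    | none => rfl
    | some a =>
      change some (dec (enc a)) = _
      rw [dec_enc]
  poly := by fun_prop

end Pool.Agent.H.MP_521f94_lc
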