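import Mathlib

/-!
The definitions used in the statement of the main theorem: languages in NP, NP-complete
languages, words over the generators of a group, and the subset sum problem of a group.
-/

namespace Pool.Agent.H.MP_521f94_lc

open Turing

/-- A language `L` over the alphabet `Γ` is in NP: there are a polynomial `p` and a verifier `V`
which is computable in polynomial time (by the machines `FinTM2` of Mathlib), such that
`s ∈ L` exactly when some witness `w`, a bit string of length at most `p (length of s)`, is
accepted. The pair `(s, w)` is given to the verifier as the string `s` followed by the string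
`w`, over the alphabet `Γ ⊕ Bool`. -/
def InNP {Γ : Type} (L : Set (List Γ)) : Prop :=
  ∃ (p : Polynomial ℕ) (V : List Γ × List Bool → Bool),
    Nonempty (TM2ComputableInPolyTime
      (fun z : List Γ × List Bool => z.1.map Sum.inl ++ z.2.map (Sum.inr : Bool → Γ ⊕ Bool))
      (fun b : Bool => [b]) V) ∧
    ∀ s, s ∈ L ↔ ∃ w : List Bool, w.length ≤ p.eval s.length ∧ V (s, w) = true

/-- The language `A` reduces to the language `L` by a polynomial-time many-one reduction: a
function on strings computable in polynomial time (by the machines `FinTM2` of Mathlib) which
maps members of `A`, and only these, to members of `L`. -/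
def Reduces {Γ Δ : Type} (A : Set (List Γ)) (L : Set (List Δ)) : Prop :=
  ∃ f : List Γ → List Δ,
    Nonempty (TM2ComputableInPolyTime (id : List Γ → List Γ) (id : List Δ → List Δ) f) ∧
    ∀ s, s ∈ A ↔ f s ∈ L

/-- The language `L` is NP-complete: it is in NP, and every language in NP over a finite alphabet
reduces to it. -/
def NPComplete {Δ : Type} (L : Set (List Δ)) : Prop :=
  InNP L ∧ ∀ (Γ : Type) [Fintype Γ] (A : Set (List Γ)), InNP A → Reduces A L

/-- Words over the letters `x₀, ..., x_{r-1}` and their inverses: the letter `(i, true)` is `xᵢ`,
and the letter `(i, false)` is its inverse. -/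
abbrev Word (r : ℕ) : Type := List (Fin r × Bool)

/-- The element of the group given by a word. -/
def wordVal {G : Type*} [Group G] {r : ℕ} (x : Fin r → G) (w : Word r) : G :=
  (w.map fun l => if l.2 = true then x l.1 else (x l.1)⁻¹).prod

/-- The instance `w₁, ..., w_k, w` written as a string, letter by letter: the words
`w₁, ..., w_k`, each followed by the separator `none`, and then the word `w`. -/
def encodeInst {r : ℕ} (ws : List (Word r)) (w : Word r) : List (Option (Fin r × Bool)) :=
  (ws.flatMap fun u => u.map some ++ [none]) ++ w.map some

/-- The subset sum problem of the group `G` with the generators `x₀, ..., x_{r-1}`: the strings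
of the instances `w₁, ..., w_k, w` such that `w = w₁ ^ ε₁ * ... * w_k ^ ε_k` in `G` for some
`ε₁, ..., ε_k ∈ {0, 1}`. -/
def SSP {G : Type*} [Group G] {r : ℕ} (x : Fin r → G) : Set (List (Option (Fin r × Bool))) :=
  {s | ∃ (ws : List (Word r)) (w : Word r), s = encodeInst ws w ∧
    ∃ ε : Fin ws.length → Fin 2,
      wordVal x w = (List.ofFn fun i => wordVal x ws[i] ^ (ε i : ℕ)).prod}

end Pool.Agent.H.MP_521f94_lc
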