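import Pool.Agent.H.MP_521f94_lc.Chain

namespace Pool.Agent.H.MP_521f94_lc

open MvPolynomial

/-- signed monomials; a monomial is a list of variable indices -/
abbrev Term := Bool × List ℕ

/-- the exponent of a list of variable indices -/
noncomputable def expo (m : ℕ) (α : List ℕ) : Fin m →₀ ℕ :=
  Finsupp.equivFunOnFinite.symm fun i => α.count i.val

theorem expo_apply (m : ℕ) (α : List ℕ) (i : Fin m) : expo m α i = α.count i.val := rfl

theorem expo_append (m : ℕ) (α β : List ℕ) : expo m (α ++ β) = expo m α + expo m β := by
  ext i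
  simp [expo_apply]

theorem expo_nil (m : ℕ) : expo m [] = 0 := by
  ext i
  simp [expo_apply]

/-- the polynomial of a list of terms -/
noncomputable def polyOf (m : ℕ) (L : List Term) : MvPolynomial (Fin m) ℤ :=
  (L.map fun t => sg t.1 • monomial (expo m t.2) 1).sum

theorem polyOf_nil (m : ℕ) : polyOf m [] = 0 := rfl

theorem polyOf_cons (m : ℕ) (t : Term) (L : List Term) :
    polyOf m (t :: L) = sg t.1 • monomial (expo m t.2) 1 + polyOf m L := by
  simp [polyOf]

theorem polyOf_append (m : ℕ) (L L' : List Term) :
    polyOf m (L ++ L') = polyOf m L + polyOf m L' := by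
  simp [polyOf]

/-- equality of monomials -/
def eqm (m : ℕ) (α β : List ℕ) : Bool :=
  (List.range m).all fun i =>
    (α.filter fun j => j == i).length == (β.filter fun j => j == i).length

theorem count_eq (l : List ℕ) (i : ℕ) : l.count i = (l.filter fun j => j == i).length := by
  rw [List.count_eq_countP, List.countP_eq_length_filter]

theorem eqm_iff (m : ℕ) (α β : List ℕ) : eqm m α β = true ↔ expo m α = expo m β := by
  unfold eqm
  rw [List.all_eq_true]
  constructor
  · intro h
    ext i
    have := h i.val (by simp)
    rw [beq_iff_eq] at this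
    rw [expo_apply, expo_apply, count_eq, count_eq]
    exact this
  · intro h i hi
    rw [beq_iff_eq]
    have := DFunLike.congr_fun h ⟨i, by simpa using hi⟩
    rw [expo_apply, expo_apply, count_eq, count_eq] at this
    exact this

/-- number of terms with a given sign and monomial -/
def cnt (m : ℕ) (s : Bool) (α : List ℕ) (L : List Term) : ℕ :=
  (L.filter fun t => (t.1 == s) && eqm m t.2 α).length

theorem coeff_polyOf (m : ℕ) (α : List ℕ) (L : List Term) :
    coeff (expo m α) (polyOf m L) = (cnt m true α L : ℤ) - cnt m false α L := by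
  classical
  induction L with
  | nil => simp [polyOf_nil, cnt]
  | cons t L ih =>
    rw [polyOf_cons, coeff_add, ih, coeff_smul, coeff_monomial]
    unfold cnt
    rw [List.filter_cons, List.filter_cons]
    by_cases h : expo m t.2 = expo m α
    · have h2 : eqm m t.2 α = true := (eqm_iff m _ _).2 h
      cases ht : t.1 <;> simp [h, h2, sg]
      · omega
      · omega
    · have h2 : eqm m t.2 α = false := by
        rw [← Bool.not_eq_true, eqm_iff]; exact h
      simp [h, h2]

theorem coeff_polyOf_eq_zero (m : ℕ) (γ : Fin m →₀ ℕ) (L : List Term)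
    (h : ∀ t ∈ L, expo m t.2 ≠ γ) : coeff γ (polyOf m L) = 0 := by
  classical
  induction L with
  | nil => simp [polyOf_nil]
  | cons t L ih =>
    rw [polyOf_cons, coeff_add, ih (fun t ht => h t (by simp [ht])), coeff_smul, coeff_monomial,
      if_neg (h t (by simp))]
    simp

/-- equality of the polynomials of two lists of terms -/
def same (m : ℕ) (L1 L2 : List Term) : Bool :=
  (L1 ++ L2).all fun t =>
    cnt m true t.2 L1 + cnt m false t.2 L2 == cnt m false t.2 L1 + cnt m true t.2 L2

theorem same_iff (m : ℕ) (L1 L2 : List Term) : same m L1 L2 = true ↔ polyOf m L1 = polyOf m L2 := by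
  unfold same
  rw [List.all_eq_true]
  constructor
  · intro h
    ext γ
    by_cases hγ : ∃ t ∈ L1 ++ L2, expo m t.2 = γ
    · obtain ⟨t, ht, rfl⟩ := hγ
      have h1 := h t ht
      rw [beq_iff_eq] at h1
      rw [coeff_polyOf, coeff_polyOf]
      omega
    · push Not at hγ
      rw [coeff_polyOf_eq_zero m γ L1 (fun t ht => hγ t (by simp [ht])),
        coeff_polyOf_eq_zero m γ L2 (fun t ht => hγ t (by simp [ht]))]
  · intro h t _
    rw [beq_iff_eq]
    have h1 := congrArg (coeff (expo m t.2)) h
    rw [coeff_polyOf, coeff_polyOf] at h1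
    omega

/-- multiplication by a signed monomial -/
def mulT (s : Bool) (α : List ℕ) (g : List Term) : List Term :=
  g.map fun t => (t.1 == s, α ++ t.2)

theorem polyOf_mulT (m : ℕ) (s : Bool) (α : List ℕ) (g : List Term) :
    polyOf m (mulT s α g) = sg s • (monomial (expo m α) 1 * polyOf m g) := by
  induction g with
  | nil => simp [mulT, polyOf_nil]
  | cons t g ih =>
    have h1 : mulT s α (t :: g) = (t.1 == s, α ++ t.2) :: mulT s α g := rfl
    rw [h1, polyOf_cons, ih, polyOf_cons, mul_add, smul_add, expo_append]
    congr 1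
    have h2 : (monomial (expo m α + expo m t.2) (1 : ℤ) : MvPolynomial (Fin m) ℤ) =
        monomial (expo m α) 1 * monomial (expo m t.2) 1 := by
      rw [monomial_mul]; simp
    rw [h2, mul_smul_comm, smul_smul]
    congr 1
    cases s <;> cases t.1 <;> simp [sg]

/-- exponent vectors as lists -/
theorem exists_expo (m : ℕ) (α : Fin m →₀ ℕ) :
    ∃ l : List ℕ, expo m l = α ∧ l.length = α.degree ∧ ∀ i ∈ l, i < m := by
  classical
  induction α using Finsupp.induction with
  | zero => exact ⟨[], expo_nil m, by simp, by simp⟩
  | single_add i n β _ _ ih =>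
    obtain ⟨l, h1, h2, h3⟩ := ih
    refine ⟨List.replicate n i.val ++ l, ?_, ?_, ?_⟩
    · rw [expo_append, h1]
      congr 1
      ext j
      rw [expo_apply, List.count_replicate]
      by_cases h : i = j
      · subst h; simp
      · have : ¬ (i.val = j.val) := fun h' => h (Fin.ext h')
        simp [h, this]
    · rw [List.length_append, List.length_replicate, h2, map_add, Finsupp.degree_single]
    · intro k hk
      rcases List.mem_append.1 hk with h | h
      · rw [(List.mem_replicate.1 h).2]; exact i.2
      · exact h3 k h

theorem exists_polyOf_smul (m : ℕ) (α : Fin m →₀ ℕ) (c : ℤ) :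
    ∃ L : List Term, polyOf m L = monomial α c ∧ L.length = c.natAbs ∧
      ∀ t ∈ L, t.2.length = α.degree ∧ ∀ i ∈ t.2, i < m := by
  obtain ⟨l, h1, h2, h3⟩ := exists_expo m α
  have key : ∀ (b : Bool) (n : ℕ), polyOf m (List.replicate n (b, l)) = monomial α (sg b * n) := by
    intro b n
    induction n with
    | zero => simp [polyOf_nil]
    | succ n ih =>
      rw [List.replicate_succ, polyOf_cons, ih, h1, smul_monomial, ← map_add]
      congr 1
      push_cast
      rw [smul_eq_mul]
      ring
  rcases Int.natAbs_eq c with h | h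
  · refine ⟨List.replicate c.natAbs (true, l), ?_, by simp, ?_⟩
    · rw [key]; congr 1; simp [sg]; omega
    · intro t ht; rw [(List.mem_replicate.1 ht).2]; exact ⟨h2, h3⟩
  · refine ⟨List.replicate c.natAbs (false, l), ?_, by simp, ?_⟩
    · rw [key]; congr 1
      have : sg false = -1 := rfl
      rw [this]; omega
    · intro t ht; rw [(List.mem_replicate.1 ht).2]; exact ⟨h2, h3⟩

theorem exists_polyOf (m : ℕ) (f : MvPolynomial (Fin m) ℤ) :
    ∃ L : List Term, polyOf m L = f ∧ L.length = N1 f ∧
      ∀ t ∈ L, t.2.length ≤ f.totalDegree ∧ ∀ i ∈ t.2, i < m := by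
  classical
  have key : ∀ s : Finset (Fin m →₀ ℕ), s ⊆ f.support →
      ∃ L : List Term, polyOf m L = ∑ α ∈ s, monomial α (coeff α f) ∧
        L.length = ∑ α ∈ s, (coeff α f).natAbs ∧
        ∀ t ∈ L, t.2.length ≤ f.totalDegree ∧ ∀ i ∈ t.2, i < m := by
    intro s
    induction s using Finset.induction_on with
    | empty => intro _; exact ⟨[], by simp [polyOf_nil], by simp, by simp⟩
    | insert α s hα ih =>
      intro hs
      obtain ⟨L, h1, h2, h3⟩ := ih (fun x hx => hs (Finset.mem_insert_of_mem hx))
      obtain ⟨L', h1', h2', h3'⟩ := exists_polyOf_smul m α (coeff α f)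
      refine ⟨L' ++ L, ?_, ?_, ?_⟩
      · rw [polyOf_append, h1, h1', Finset.sum_insert hα]
      · rw [List.length_append, h2, h2', Finset.sum_insert hα]
      · intro t ht
        rcases List.mem_append.1 ht with h | h
        · refine ⟨?_, (h3' t h).2⟩
          rw [(h3' t h).1]
          exact le_totalDegree (hs (Finset.mem_insert_self _ _))
        · exact h3 t h
  obtain ⟨L, h1, h2, h3⟩ := key f.support (Finset.Subset.refl _)
  exact ⟨L, by rw [h1]; exact (support_sum_monomial_coeff f), h2, h3⟩

theorem N1_polyOf_le (m : ℕ) (L : List Term) : N1 (polyOf m L) ≤ L.length := by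
  classical
  induction L with
  | nil => simp [polyOf_nil, N1_zero]
  | cons t L ih =>
    rw [polyOf_cons]
    refine (N1_add_le _ _).trans ?_
    have h1 : N1 (sg t.1 • monomial (expo m t.2) (1 : ℤ)) ≤ 1 := by
      refine (N1_smul _ _).trans ?_
      have h2 : (sg t.1).natAbs = 1 := by cases t.1 <;> simp [sg]
      rw [h2, one_mul]
      unfold N1
      refine (Finset.sum_le_sum_of_subset (support_monomial_subset)).trans ?_
      simp
    simp only [List.length_cons]
    omega

theorem totalDegree_polyOf_le (m : ℕ) (L : List Term) (d : ℕ) (h : ∀ t ∈ L, t.2.length ≤ d) :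
    (polyOf m L).totalDegree ≤ d := by
  induction L with
  | nil => simp [polyOf_nil]
  | cons t L ih =>
    rw [polyOf_cons]
    refine (totalDegree_add _ _).trans (max_le ?_ (ih (fun t ht => h t (by simp [ht]))))
    refine (totalDegree_smul_le _ _).trans ((totalDegree_monomial_le _ _).trans ?_)
    refine le_trans ?_ (h t (by simp))
    change (expo m t.2).degree ≤ _
    rw [Finsupp.degree_eq_sum]
    simp only [expo_apply]
    have h1 : ∀ (l : List ℕ) (s : Finset ℕ), ∑ i ∈ s, l.count i ≤ l.length := by
      intro l s
      induction l with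
      | nil => simp
      | cons a l ih =>
        simp only [List.count_cons, Finset.sum_add_distrib, List.length_cons]
        refine Nat.add_le_add ih ?_
        have : ∀ i ∈ s, (if (a == i) = true then 1 else 0) = if a = i then 1 else 0 := by
          intro i _; simp
        rw [Finset.sum_congr rfl this, Finset.sum_ite_eq]
        split <;> simp
    calc ∑ i : Fin m, t.2.count i.val = ∑ i ∈ Finset.range m, t.2.count i :=
          (Finset.sum_range fun i => t.2.count i).symm
      _ ≤ _ := h1 _ _

end Pool.Agent.H.MP_521f94_lc
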