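import Pool.Agent.H.MP_521f94_lc.Struct
import Pool.Agent.H.MP_521f94_lc.Terms

namespace Pool.Agent.H.MP_521f94_lc

open MvPolynomial

variable {G : Type*} [Group G] (hG : Metab G)

/-- functions from the abelianization to the commutator subgroup -/
def FM (G : Type*) [Group G] (hG : Metab G) : Type _ := Abelianization G → CM G hG

noncomputable instance : AddCommGroup (FM G hG) := Pi.addCommGroup

/-- translation action -/
noncomputable def transRep : Abelianization G →* Module.End ℤ (FM G hG) where
  toFun q := AddMonoidHom.toIntLinearMap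
    { toFun := fun ψ q' => ψ (q⁻¹ * q')
      map_zero' := rfl
      map_add' := fun _ _ => rfl }
  map_one' := by
    ext ψ
    change (fun q' => ψ (1⁻¹ * q')) = ψ
    funext q'
    rw [inv_one, one_mul]
  map_mul' := by
    intro a b
    ext ψ
    change (fun q' => ψ ((a * b)⁻¹ * q')) = fun q' => ψ (b⁻¹ * (a⁻¹ * q'))
    funext q'
    rw [mul_inv_rev, mul_assoc]

noncomputable instance : Module (MonoidAlgebra ℤ (Abelianization G)) (FM G hG) :=
  Module.compHom (FM G hG)
    (MonoidAlgebra.lift ℤ (Module.End ℤ (FM G hG)) (Abelianization G) (transRep hG)).toRingHom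

theorem gr_smul_FM (g : G) (ψ : FM G hG) (q : Abelianization G) :
    (gr g • ψ : FM G hG) q = ψ ((Abelianization.of g)⁻¹ * q) := by
  have : gr g • ψ = transRep hG (Abelianization.of g) ψ := by
    change (MonoidAlgebra.lift ℤ (Module.End ℤ (FM G hG)) (Abelianization G) (transRep hG))
      (gr g) ψ = _
    rw [gr, MonoidAlgebra.lift_of]
  rw [this]
  rfl

noncomputable instance : Module (MonoidAlgebra ℤ (Abelianization G))ᵐᵒᵖ (FM G hG) :=
  Module.compHom (FM G hG) (RingEquiv.toOpposite (MonoidAlgebra ℤ (Abelianization G))).symm.toRingHom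

instance : IsCentralScalar (MonoidAlgebra ℤ (Abelianization G)) (FM G hG) :=
  ⟨fun _ _ => rfl⟩

/-- a section of the abelianization map -/
noncomputable def sec (q : Abelianization G) : G :=
  Function.surjInv (f := (Abelianization.of : G → Abelianization G))
    (QuotientGroup.mk'_surjective _) q

theorem of_sec (q : Abelianization G) : Abelianization.of (sec q) = q :=
  Function.surjInv_eq (f := (Abelianization.of : G → Abelianization G))
    (QuotientGroup.mk'_surjective _) q

theorem mem_commutator_of {g : G} (h : Abelianization.of g = 1) : g ∈ commutator G :=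
  (QuotientGroup.eq_one_iff g).1 h

theorem der_mem (g : G) (q : Abelianization G) :
    (sec q)⁻¹ * g * sec ((Abelianization.of g)⁻¹ * q) ∈ commutator G := by
  apply mem_commutator_of
  rw [map_mul, map_mul, map_inv, of_sec, of_sec]
  rw [mul_assoc, mul_inv_cancel_left, inv_mul_cancel]

/-- the Kaloujnine-Krasner derivation -/
noncomputable def der (g : G) : FM G hG := fun q => toCM hG _ (der_mem g q)

theorem der_mul (g h : G) : der hG (g * h) = der hG g + gr g • der hG h := by
  funext q
  change der hG (g * h) q = der hG g q + (gr g • der hG h : FM G hG) q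
  rw [gr_smul_FM]
  apply ofCM_inj
  rw [ofCM_add]
  simp only [der, ofCM_toCM, map_mul, mul_inv_rev]
  rw [mul_assoc (Abelianization.of h)⁻¹]
  group

theorem der_one : der hG (1 : G) = 0 := by
  have h := der_mul hG (1 : G) 1
  rw [mul_one, gr_one, one_smul] at h
  have : der hG (1 : G) + 0 = der hG (1 : G) + der hG (1 : G) := by rw [add_zero]; exact h
  exact (add_left_cancel this).symm

theorem der_inv (g : G) : der hG g⁻¹ = -(gr g⁻¹ • der hG g) := by
  have h := der_mul hG g⁻¹ g
  rw [inv_mul_cancel, der_one] at h
  exact eq_neg_of_add_eq_zero_left h.symm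

theorem eq_one_of_der {g : G} (h1 : gr g = 1) (h2 : der hG g = 0) : g = 1 := by
  have h3 : Abelianization.of g = 1 := by
    apply MonoidAlgebra.of_injective (R := ℤ)
    rw [map_one]
    exact h1
  have h4 := congrArg (ofCM hG) (congrFun h2 1)
  have h5 : (sec (1 : Abelianization G))⁻¹ * g * sec ((Abelianization.of g)⁻¹ * 1) = 1 := h4
  rw [h3, inv_one, one_mul] at h5
  rw [mul_assoc, inv_mul_eq_one] at h5
  exact (mul_eq_right.1 h5.symm)

/-! ### words and polynomials -/

/-- the value of a letter -/
def lval (x : ℕ → G) (l : ℕ × Bool) : G := if l.2 then x l.1 else (x l.1)⁻¹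

/-- the value of a word -/
def wval (x : ℕ → G) (w : List (ℕ × Bool)) : G := (w.map (lval x)).prod

/-- the monomial of the image of a word in the abelianization -/
def qv (w : List (ℕ × Bool)) : List ℕ := w.map fun l => 3 * l.1 + (if l.2 then 0 else 1)

/-- the terms of the derivation of a word -/
def mv : List ℕ → List (ℕ × Bool) → List Term
  | _, [] => []
  | q, l :: w => (l.2, if l.2 then q ++ [3 * l.1 + 2] else q ++ [3 * l.1 + 1, 3 * l.1 + 2]) ::
      mv (q ++ [3 * l.1 + (if l.2 then 0 else 1)]) w

/-- the polynomial which vanishes iff the word is trivial -/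
def wpoly (w : List (ℕ × Bool)) : List Term := (true, qv w) :: (false, []) :: mv [] w

/-- the ring -/
abbrev BR (G : Type*) [Group G] (hG : Metab G) : Type _ :=
  TrivSqZeroExt (MonoidAlgebra ℤ (Abelianization G)) (FM G hG)

/-- values of the variables -/
noncomputable def yv (x : ℕ → G) (i : ℕ) : BR G hG :=
  if i % 3 = 0 then TrivSqZeroExt.inl (gr (x (i / 3)))
  else if i % 3 = 1 then TrivSqZeroExt.inl (gr (x (i / 3))⁻¹)
  else TrivSqZeroExt.inr (der hG (x (i / 3)))

/-- the ring homomorphism -/
noncomputable def ev (x : ℕ → G) (m : ℕ) : MvPolynomial (Fin m) ℤ →+* BR G hG :=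
  eval₂Hom (Int.castRingHom _) (fun i : Fin m => yv hG x i.val)

theorem ev_mono (x : ℕ → G) (m : ℕ) (α : List ℕ) (h : ∀ i ∈ α, i < m) :
    ev hG x m (monomial (expo m α) 1) = (α.map (yv hG x)).prod := by
  induction α with
  | nil =>
    rw [expo_nil]
    simp [ev]
  | cons a α ih =>
    have h1 : a < m := h a (by simp)
    have h2 : expo m (a :: α) = Finsupp.single ⟨a, h1⟩ 1 + expo m α := by
      ext i
      rw [expo_apply, List.count_cons, Finsupp.add_apply, expo_apply, add_comm]
      congr 1
      by_cases hi : a = i.val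
      · have : (⟨a, h1⟩ : Fin m) = i := Fin.ext hi
        simp [hi, this]
      · have : ¬ (⟨a, h1⟩ : Fin m) = i := fun h' => hi (congrArg Fin.val h')
        simp [hi, this]
    have h3 : (monomial (expo m (a :: α)) (1 : ℤ) : MvPolynomial (Fin m) ℤ) =
        X ⟨a, h1⟩ * monomial (expo m α) 1 := by
      rw [h2, X, monomial_mul, one_mul]
    rw [h3, map_mul, ih (fun i hi => h i (by simp [hi])), List.map_cons, List.prod_cons]
    congr 1
    simp [ev]

theorem gr_lval (x : ℕ → G) (l : ℕ × Bool) :
    yv hG x (3 * l.1 + (if l.2 then 0 else 1)) = TrivSqZeroExt.inl (gr (lval x l)) := by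
  unfold yv lval
  cases l.2
  · have h1 : (3 * l.1 + 1) % 3 = 1 := by omega
    have h2 : (3 * l.1 + 1) / 3 = l.1 := by omega
    simp [h1, h2]
  · have h1 : (3 * l.1 + 0) % 3 = 0 := by omega
    have h2 : (3 * l.1 + 0) / 3 = l.1 := by omega
    simp [h1]

theorem ev_qv (x : ℕ → G) (m : ℕ) (w : List (ℕ × Bool)) (h : ∀ l ∈ w, 3 * l.1 + 2 < m) :
    ev hG x m (monomial (expo m (qv w)) 1) = TrivSqZeroExt.inl (gr (wval x w)) := by
  rw [ev_mono]
  · induction w with
    | nil => simp [qv, wval, gr_one]
    | cons l w ih =>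
      have h1 := ih (fun l hl => h l (by simp [hl]))
      have h2 : qv (l :: w) = (3 * l.1 + (if l.2 then 0 else 1)) :: qv w := rfl
      have h3 : wval x (l :: w) = lval x l * wval x w := by simp [wval]
      rw [h2, List.map_cons, List.prod_cons, h1, gr_lval, h3, gr_mul, TrivSqZeroExt.inl_mul]
  · intro i hi
    obtain ⟨l, hl, rfl⟩ := List.mem_map.1 hi
    have := h l hl
    split <;> omega

theorem ev_mv (x : ℕ → G) (m : ℕ) : ∀ (w : List (ℕ × Bool)) (q : List ℕ) (g : G),
    (∀ l ∈ w, 3 * l.1 + 2 < m) → (∀ i ∈ q, i < m) →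
    ev hG x m (monomial (expo m q) 1) = TrivSqZeroExt.inl (gr g) →
    ev hG x m (polyOf m (mv q w)) = TrivSqZeroExt.inr (gr g • der hG (wval x w)) := by
  intro w
  induction w with
  | nil =>
    intro q g _ _ _
    simp [mv, polyOf_nil, wval, der_one]
  | cons l w ih =>
    intro q g h hq hg
    have hl := h l (by simp)
    have h3 : wval x (l :: w) = lval x l * wval x w := by simp [wval]
    have hq' : ∀ i ∈ q ++ [3 * l.1 + (if l.2 then 0 else 1)], i < m := by
      intro i hi
      rcases List.mem_append.1 hi with h' | h'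
      · exact hq i h'
      · simp at h'
        subst h'
        split <;> omega
    have h4 : ev hG x m (monomial (expo m (q ++ [3 * l.1 + (if l.2 then 0 else 1)])) 1) =
        TrivSqZeroExt.inl (gr (g * lval x l)) := by
      rw [ev_mono hG x m _ hq', List.map_append, List.prod_append, ← ev_mono hG x m q hq, hg]
      simp only [List.map_cons, List.map_nil, List.prod_cons, List.prod_nil, mul_one]
      rw [gr_lval, gr_mul, TrivSqZeroExt.inl_mul]
    have h1 := ih _ _ (fun l hl => h l (by simp [hl])) hq' h4
    rw [mv, polyOf_cons, map_add, h1, h3, der_mul, smul_add, gr_mul, mul_smul,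
      TrivSqZeroExt.inr_add]
    congr 1
    have h5 : yv hG x (3 * l.1 + 2) = TrivSqZeroExt.inr (der hG (x l.1)) := by
      unfold yv
      have h1 : (3 * l.1 + 2) % 3 = 2 := by omega
      have h2 : (3 * l.1 + 2) / 3 = l.1 := by omega
      simp [h1, h2]
    have h6 : yv hG x (3 * l.1 + 1) = TrivSqZeroExt.inl (gr (x l.1)⁻¹) := by
      unfold yv
      have h1 : (3 * l.1 + 1) % 3 = 1 := by omega
      have h2 : (3 * l.1 + 1) / 3 = l.1 := by omega
      simp [h1, h2]
    cases hl2 : l.2
    · simp only [Bool.false_eq_true, if_false]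
      rw [map_zsmul, ev_mono hG x m _ (by
        intro i hi
        rcases List.mem_append.1 hi with h' | h'
        · exact hq i h'
        · simp at h'; rcases h' with rfl | rfl <;> omega)]
      rw [List.map_append, List.prod_append, ← ev_mono hG x m q hq, hg]
      simp only [List.map_cons, List.map_nil, List.prod_cons, List.prod_nil, mul_one]
      rw [h5, h6, TrivSqZeroExt.inl_mul_inr, TrivSqZeroExt.inl_mul_inr]
      have h7 : lval x l = (x l.1)⁻¹ := by simp [lval, hl2]
      rw [h7, der_inv, smul_neg, TrivSqZeroExt.inr_neg]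
      have h8 : sg false = -1 := rfl
      rw [h8, neg_smul, one_smul]
    · simp only [if_true]
      rw [map_zsmul, ev_mono hG x m _ (by
        intro i hi
        rcases List.mem_append.1 hi with h' | h'
        · exact hq i h'
        · simp at h'; omega)]
      rw [List.map_append, List.prod_append, ← ev_mono hG x m q hq, hg]
      simp only [List.map_cons, List.map_nil, List.prod_cons, List.prod_nil, mul_one]
      rw [h5, TrivSqZeroExt.inl_mul_inr]
      have h7 : lval x l = x l.1 := by simp [lval, hl2]
      have h8 : sg true = 1 := rfl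
      rw [h7, h8, one_smul]

/-- the word problem is an ideal membership problem -/
theorem wval_eq_one_iff (x : ℕ → G) (m : ℕ) (w : List (ℕ × Bool))
    (h : ∀ l ∈ w, 3 * l.1 + 2 < m) :
    wval x w = 1 ↔ polyOf m (wpoly w) ∈ RingHom.ker (ev hG x m) := by
  have h1 : ev hG x m (polyOf m (wpoly w)) =
      TrivSqZeroExt.inl (gr (wval x w) - 1) + TrivSqZeroExt.inr (der hG (wval x w)) := by
    rw [wpoly, polyOf_cons, polyOf_cons, map_add, map_add, map_zsmul, map_zsmul,
      ev_qv hG x m w h, ev_mv hG x m w [] 1 h (by simp) (by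
        rw [expo_nil]; simp [gr_one]), gr_one, one_smul]
    have h8 : sg false = -1 := rfl
    have h9 : sg true = 1 := rfl
    have h10 : ev hG x m (monomial (expo m []) 1) = 1 := by
      rw [expo_nil]; simp
    change sg true • _ + (sg false • ev hG x m (monomial (expo m []) 1) + _) = _
    rw [h8, h9, h10, one_smul, neg_smul, one_smul, TrivSqZeroExt.inl_sub, TrivSqZeroExt.inl_one]
    abel
  rw [RingHom.mem_ker, h1]
  constructor
  · intro h
    rw [h, gr_one, der_one]
    simp
  · intro h
    apply eq_one_of_der hG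
    · have := congrArg TrivSqZeroExt.fst h
      rw [TrivSqZeroExt.fst_add, TrivSqZeroExt.fst_inl, TrivSqZeroExt.fst_inr, add_zero,
        TrivSqZeroExt.fst_zero, sub_eq_zero] at this
      exact this
    · have := congrArg TrivSqZeroExt.snd h
      simpa using this

end Pool.Agent.H.MP_521f94_lc
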