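import Pool.Agent.H.MP_521f94_lc.Clock

namespace Pool.Agent.H.MP_521f94_lc

/-- base position of the `k`-th token -/
def bs (m k : ℕ) : ℤ := (2 * m + 4) * k + (m + 1)

/-- positions toggled by the variable items -/
def zrun (m : ℕ) (δ : ℕ → Bool) : ℕ → List (Option ℕ) → List ℤ
  | _, [] => []
  | k, some v :: r => if δ v then bs m k :: zrun m δ (k + 1) r else zrun m δ (k + 1) r
  | k, none :: r => zrun m δ (k + 1) r

/-- positions toggled by the token items -/
def run (m : ℕ) : ℤ → ℕ → List (Option ℕ) → List Bool → List ℤ
  | s, k, some _ :: r, e :: ε =>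
    if e then (bs m k + s) :: run m (s + 1) (k + 1) r ε else run m s (k + 1) r ε
  | s, k, none :: r, e :: ε =>
    if e then (bs m k + s) :: run m (s - 1) (k + 1) r ε else run m s (k + 1) r ε
  | _, _, [], _ => []
  | _, _, _ :: _, [] => []

/-- the target -/
def tgt (m : ℕ) : ℕ → List (Option ℕ) → List ℤ
  | _, [] => []
  | k, some _ :: r => bs m k :: tgt m (k + 1) r
  | k, none :: r => (bs m k + 1) :: tgt m (k + 1) r

/-- the meaning of a token list: between two stops exactly one occurrence is true -/
def sem (x : ℕ → Bool) : Bool → List (Option ℕ) → Prop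
  | _, [] => True
  | s, some v :: r => if x v then (s = false ∧ sem x true r) else sem x s r
  | s, none :: r => s = true ∧ sem x false r

theorem zrun_ge (m : ℕ) (δ : ℕ → Bool) : ∀ (r : List (Option ℕ)) (k : ℕ),
    ∀ q ∈ zrun m δ k r, (2 * m + 4) * (k : ℤ) ≤ q ∧ q < (2 * m + 4) * ((k : ℤ) + r.length) := by
  intro r
  induction r with
  | nil => intro k q hq; simp [zrun] at hq
  | cons a r ih =>
    intro k q hq
    have hstep : ∀ q ∈ zrun m δ (k + 1) r, (2 * m + 4) * (k : ℤ) ≤ q ∧
        q < (2 * m + 4) * ((k : ℤ) + (a :: r).length) := by
      intro q hq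
      have := ih (k + 1) q hq
      push_cast at this ⊢
      simp only [List.length_cons]
      push_cast
      constructor <;> nlinarith [this.1, this.2]
    have hbs : (2 * m + 4) * (k : ℤ) ≤ bs m k ∧
        bs m k < (2 * m + 4) * ((k : ℤ) + (a :: r).length) := by
      unfold bs
      simp only [List.length_cons]
      push_cast
      constructor <;> nlinarith
    cases a with
    | none => exact hstep q hq
    | some v =>
      simp only [zrun] at hq
      split at hq
      · rcases List.mem_cons.1 hq with rfl | hq
        · exact hbs
        · exact hstep q hq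
      · exact hstep q hq

theorem tgt_ge (m : ℕ) : ∀ (r : List (Option ℕ)) (k : ℕ),
    ∀ q ∈ tgt m k r, (2 * m + 4) * (k : ℤ) ≤ q ∧ q < (2 * m + 4) * ((k : ℤ) + r.length) := by
  intro r
  induction r with
  | nil => intro k q hq; simp [tgt] at hq
  | cons a r ih =>
    intro k q hq
    have hstep : ∀ q ∈ tgt m (k + 1) r, (2 * m + 4) * (k : ℤ) ≤ q ∧
        q < (2 * m + 4) * ((k : ℤ) + (a :: r).length) := by
      intro q hq
      have := ih (k + 1) q hq
      push_cast at this ⊢
      simp only [List.length_cons]
      push_cast
      constructor <;> nlinarith [this.1, this.2]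
    cases a with
    | none =>
      simp only [tgt] at hq
      rcases List.mem_cons.1 hq with rfl | hq
      · unfold bs
        simp only [List.length_cons]
        push_cast
        constructor <;> nlinarith
      · exact hstep q hq
    | some v =>
      simp only [tgt] at hq
      rcases List.mem_cons.1 hq with rfl | hq
      · unfold bs
        simp only [List.length_cons]
        push_cast
        constructor <;> nlinarith
      · exact hstep q hq

theorem run_ge (m : ℕ) : ∀ (r : List (Option ℕ)) (k : ℕ) (s : ℤ) (ε : List Bool),
    |s| + r.length ≤ m + 1 →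
    ∀ q ∈ run m s k r ε, (2 * m + 4) * (k : ℤ) ≤ q ∧ q < (2 * m + 4) * ((k : ℤ) + r.length) := by
  intro r
  induction r with
  | nil => intro k s ε _ q hq; simp [run] at hq
  | cons a r ih =>
    intro k s ε hs q hq
    have hstep : ∀ (s' : ℤ) (ε : List Bool), |s'| ≤ |s| + 1 → ∀ q ∈ run m s' (k + 1) r ε,
        (2 * m + 4) * (k : ℤ) ≤ q ∧ q < (2 * m + 4) * ((k : ℤ) + (a :: r).length) := by
      intro s' ε hs' q hq
      have := ih (k + 1) s' ε (by
        simp only [List.length_cons] at hs
        push_cast at hs
        linarith) q hq
      push_cast at this ⊢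
      simp only [List.length_cons]
      push_cast
      constructor <;> nlinarith [this.1, this.2]
    have hhead : (2 * m + 4) * (k : ℤ) ≤ bs m k + s ∧
        bs m k + s < (2 * m + 4) * ((k : ℤ) + (a :: r).length) := by
      have h1 := abs_le.1 (le_refl |s|)
      unfold bs
      simp only [List.length_cons] at hs ⊢
      push_cast at hs ⊢
      constructor <;> nlinarith [h1.1, h1.2]
    cases ε with
    | nil => simp [run] at hq
    | cons e ε =>
      have ha1 : |s + 1| ≤ |s| + 1 := by
        have := abs_add_le s 1
        simpa using this
      have ha2 : |s - 1| ≤ |s| + 1 := by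
        have := abs_sub s 1
        simpa using this
      cases a with
      | none =>
        simp only [run] at hq
        split at hq
        · rcases List.mem_cons.1 hq with rfl | hq
          · exact hhead
          · exact hstep _ _ ha2 q hq
        · exact hstep _ _ (by linarith) q hq
      | some v =>
        simp only [run] at hq
        split at hq
        · rcases List.mem_cons.1 hq with rfl | hq
          · exact hhead
          · exact hstep _ _ ha1 q hq
        · exact hstep _ _ (by linarith) q hq

theorem count_zero_of_ge {L : List ℤ} {B q : ℤ} (h : ∀ y ∈ L, B ≤ y) (hq : q < B) :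
    L.count q = 0 := by
  rw [List.count_eq_zero]
  intro hm
  have := h q hm
  omega

theorem bs_lt (m k : ℕ) (x : ℤ) (hx : x ≤ 1) : bs m k + x < (2 * m + 4) * ((k + 1 : ℕ) : ℤ) := by
  unfold bs; push_cast; nlinarith

theorem not_dvd_one {p : ℕ} (hp : p ≠ 1) : ¬ (p : ℤ) ∣ 1 := by
  intro h
  have := Int.natCast_dvd_natCast.1 (by exact_mod_cast h : (p : ℤ) ∣ ((1 : ℕ) : ℤ))
  exact hp (Nat.dvd_one.1 this)

theorem not_dvd_neg_one {p : ℕ} (hp : p ≠ 1) : ¬ (p : ℤ) ∣ -1 := by
  intro h
  exact not_dvd_one hp ((Int.dvd_neg).1 h)

/-- soundness of the token game -/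
theorem sem_of_dvd {p : ℕ} (hp : p ≠ 1) (m : ℕ) (δ : ℕ → Bool) : ∀ (r : List (Option ℕ)) (k : ℕ)
    (s : Bool) (ε : List Bool), ε.length = r.length → r.length ≤ m →
    (∀ q : ℤ, (p : ℤ) ∣ ((zrun m δ k r).count q : ℤ) +
      ((run m (if s then 1 else 0) k r ε).count q : ℤ) - ((tgt m k r).count q : ℤ)) →
    sem (fun v => !δ v) s r := by
  intro r
  induction r with
  | nil => intro k s ε _ _ _; trivial
  | cons a r ih =>
    intro k s ε hε hr h
    cases ε with
    | nil => simp at hε
    | cons e ε =>
    have hε' : ε.length = r.length := by simpa using hε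
    have hr' : r.length ≤ m := by simp at hr; omega
    have hs01 : ∀ s : Bool, |(if s then (1 : ℤ) else 0)| + r.length ≤ m + 1 := by
      intro s
      simp only [List.length_cons] at hr
      cases s <;> simp <;> omega
    have zt : ∀ q < (2 * m + 4) * ((k + 1 : ℕ) : ℤ), (zrun m δ (k + 1) r).count q = 0 :=
      fun q hq => count_zero_of_ge (fun y hy => (zrun_ge m δ r (k + 1) y hy).1) hq
    have tt : ∀ q < (2 * m + 4) * ((k + 1 : ℕ) : ℤ), (tgt m (k + 1) r).count q = 0 :=
      fun q hq => count_zero_of_ge (fun y hy => (tgt_ge m r (k + 1) y hy).1) hq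
    have rt : ∀ (s : Bool), ∀ q < (2 * m + 4) * ((k + 1 : ℕ) : ℤ),
        (run m (if s then 1 else 0) (k + 1) r ε).count q = 0 :=
      fun s q hq => count_zero_of_ge (fun y hy => (run_ge m r (k + 1) _ ε (hs01 s) y hy).1) hq
    have rz : ∀ z : ℤ, |z| ≤ 2 → ∀ q < (2 * m + 4) * ((k + 1 : ℕ) : ℤ),
        (run m z (k + 1) r ε).count q = 0 := by
      intro z hz q hq
      refine count_zero_of_ge (fun y hy => (run_ge m r (k + 1) _ ε ?_ y hy).1) hq
      simp only [List.length_cons] at hr
      omega
    have rz0 := rz 0 (by norm_num)
    have rz1 := rz 1 (by norm_num)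
    have rz2 := rz 2 (by norm_num)
    have rzm := rz (-1) (by norm_num)
    have b0 := bs_lt m k 0 (by norm_num)
    have b1 := bs_lt m k 1 (by norm_num)
    rw [add_zero] at b0
    have ne1 : ∀ y : ℤ, ¬ (y = y + 1) := by intro y; omega
    have ne2 : ∀ y : ℤ, ¬ (y + 1 = y) := by intro y; omega
    cases a with
    | some v =>
      have h0 := h (bs m k)
      have h1 := h (bs m k + 1)
      have htail : ∀ (s' : Bool), (run m (if s then 1 else 0) k (some v :: r) (e :: ε)) =
          (if e then [bs m k + (if s then 1 else 0)] else []) ++
            run m (if s' then 1 else 0) (k + 1) r ε →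
          ∀ q : ℤ, (p : ℤ) ∣ ((zrun m δ (k + 1) r).count q : ℤ) +
            ((run m (if s' then 1 else 0) (k + 1) r ε).count q : ℤ) -
            ((tgt m (k + 1) r).count q : ℤ) := by
        intro s' hs' q
        by_cases hq : q < (2 * m + 4) * ((k + 1 : ℕ) : ℤ)
        · rw [zt q hq, tt q hq, rt s' q hq]
          simp
        · have h2 := h q
          rw [hs', List.count_append] at h2
          have hq0 : ¬ (bs m k = q) := by intro h; omega
          have hq1 : ¬ (bs m k + 1 = q) := by intro h; omega
          have e1 : (if e then [bs m k + (if s then (1 : ℤ) else 0)] else []).count q = 0 := by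
            cases e <;> cases s <;> simp [hq0, hq1]
          have e2 : (zrun m δ k (some v :: r)).count q = (zrun m δ (k + 1) r).count q := by
            simp only [zrun]
            split <;> simp [List.count_cons, hq0]
          have e3 : (tgt m k (some v :: r)).count q = (tgt m (k + 1) r).count q := by
            simp [tgt, List.count_cons, hq0]
          rw [e1, e2, e3, zero_add] at h2
          exact h2
      simp only [zrun, run, tgt] at h0 h1
      cases hδ : δ v <;> cases e <;> cases s
      · -- δ = false, e = false: impossible
        simp [hδ, zt _ b0, tt _ b0, rz0 _ b0] at h0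
        first | exact absurd h0 hp | exact absurd h0 (not_dvd_one hp)
      · simp [hδ, zt _ b0, tt _ b0, rz1 _ b0] at h0
        first | exact absurd h0 hp | exact absurd h0 (not_dvd_one hp)
      · -- δ = false, e = true, s = false
        simp only [sem, hδ]
        refine ⟨trivial, ih (k + 1) true ε hε' hr' (htail true ?_)⟩
        simp [run]
      · -- s = true, e = true
        exfalso
        simp [hδ, zt _ b1, tt _ b1, rz2 _ b1, ne1] at h1
        first | exact absurd h1 hp | exact absurd h1 (not_dvd_one hp)
      · -- δ = true, e = false
        simp only [sem, hδ]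
        refine ih (k + 1) false ε hε' hr' (htail false ?_)
        simp [run]
      · simp only [sem, hδ]
        refine ih (k + 1) true ε hε' hr' (htail true ?_)
        simp [run]
      · -- δ = true, e = true, s = false: count 2 - 1
        exfalso
        simp [hδ, zt _ b0, tt _ b0, rz1 _ b0] at h0
        first | exact absurd h0 hp | exact absurd h0 (not_dvd_one hp)
      · exfalso
        simp [hδ, zt _ b1, tt _ b1, rz2 _ b1, ne1] at h1
        first | exact absurd h1 hp | exact absurd h1 (not_dvd_one hp)
    | none =>
      have h1 := h (bs m k + 1)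
      have htail : ∀ (s' : Bool), (run m (if s then 1 else 0) k (none :: r) (e :: ε)) =
          (if e then [bs m k + (if s then 1 else 0)] else []) ++
            run m (if s' then 1 else 0) (k + 1) r ε →
          ∀ q : ℤ, (p : ℤ) ∣ ((zrun m δ (k + 1) r).count q : ℤ) +
            ((run m (if s' then 1 else 0) (k + 1) r ε).count q : ℤ) -
            ((tgt m (k + 1) r).count q : ℤ) := by
        intro s' hs' q
        by_cases hq : q < (2 * m + 4) * ((k + 1 : ℕ) : ℤ)
        · rw [zt q hq, tt q hq, rt s' q hq]
          simp
        · have h2 := h q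
          rw [hs', List.count_append] at h2
          have hq0 : ¬ (bs m k = q) := by intro h; omega
          have hq1 : ¬ (bs m k + 1 = q) := by intro h; omega
          have e1 : (if e then [bs m k + (if s then (1 : ℤ) else 0)] else []).count q = 0 := by
            cases e <;> cases s <;> simp [hq0, hq1]
          have e2 : (zrun m δ k (none :: r)).count q = (zrun m δ (k + 1) r).count q := by
            simp only [zrun]
          have e3 : (tgt m k (none :: r)).count q = (tgt m (k + 1) r).count q := by
            simp [tgt, List.count_cons, hq1]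
          rw [e1, e2, e3, zero_add] at h2
          exact h2
      simp only [zrun, run, tgt] at h1
      cases e <;> cases s
      · simp [zt _ b1, tt _ b1, rz0 _ b1] at h1
        first | exact absurd h1 hp | exact absurd h1 (not_dvd_one hp)
      · simp [zt _ b1, tt _ b1, rz1 _ b1] at h1
        first | exact absurd h1 hp | exact absurd h1 (not_dvd_one hp)
      · exfalso
        simp [zt _ b1, tt _ b1, rzm _ b1, ne1] at h1
        first | exact absurd h1 hp | exact absurd h1 (not_dvd_one hp)
      · simp only [sem]
        refine ⟨trivial, ih (k + 1) false ε hε' hr' (htail false ?_)⟩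
        simp [run]

/-- the choices made by an assignment -/
def ch (x : ℕ → Bool) : List (Option ℕ) → List Bool
  | [] => []
  | some v :: r => x v :: ch x r
  | none :: r => true :: ch x r

theorem ch_length (x : ℕ → Bool) : ∀ r, (ch x r).length = r.length := by
  intro r
  induction r with
  | nil => rfl
  | cons a r ih => cases a <;> simp [ch, ih]

/-- completeness of the token game -/
theorem perm_of_sem (m : ℕ) (x : ℕ → Bool) : ∀ (r : List (Option ℕ)) (k : ℕ) (s : Bool),
    sem x s r → (zrun m (fun v => !x v) k r ++ run m (if s then 1 else 0) k r (ch x r)).Perm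
      (tgt m k r) := by
  intro r
  induction r with
  | nil => intro k s _; simp [zrun, run, tgt]
  | cons a r ih =>
    intro k s h
    cases a with
    | some v =>
      simp only [sem] at h
      cases hx : x v with
      | true =>
        rw [hx] at h
        simp only [if_true] at h
        obtain ⟨rfl, h⟩ := h
        have h1 := ih (k + 1) true h
        simp only [zrun, run, tgt, ch, hx, Bool.not_true, if_true, Bool.false_eq_true, if_false,
          add_zero, zero_add] at h1 ⊢
        exact List.perm_middle.trans (h1.cons _)
      | false =>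
        rw [hx] at h
        simp only [Bool.false_eq_true, if_false] at h
        have h1 := ih (k + 1) s h
        simp only [zrun, run, tgt, ch, hx, Bool.not_false, if_true, Bool.false_eq_true, if_false,
          List.cons_append]
        exact h1.cons _
    | none =>
      simp only [sem] at h
      obtain ⟨rfl, h⟩ := h
      have h1 := ih (k + 1) false h
      simp only [zrun, run, tgt, ch, if_true, Bool.false_eq_true, if_false, sub_self] at h1 ⊢
      exact List.perm_middle.trans (h1.cons _)

/-! ### the items -/

/-- positions toggled by the item of the variable `i` -/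
def ztog (m i : ℕ) : ℕ → List (Option ℕ) → List ℤ
  | _, [] => []
  | k, some v :: r => if v = i then bs m k :: ztog m i (k + 1) r else ztog m i (k + 1) r
  | k, none :: r => ztog m i (k + 1) r

/-- positions toggled by the chosen variable items -/
def zsel (m k : ℕ) (r : List (Option ℕ)) : List ℕ → List Bool → List ℤ
  | i :: is, d :: ds => (if d then ztog m i k r else []) ++ zsel m k r is ds
  | [], _ => []
  | _ :: _, [] => []

/-- the truth value read off from the choices -/
def dl : List ℕ → List Bool → ℕ → Bool
  | i :: is, d :: ds, v => if v = i then d else dl is ds v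
  | [], _, _ => false
  | _ :: _, [], _ => false

theorem zsel_none (m k : ℕ) (r : List (Option ℕ)) : ∀ (is : List ℕ) (ds : List Bool),
    zsel m k (none :: r) is ds = zsel m (k + 1) r is ds := by
  intro is
  induction is with
  | nil => intro ds; rfl
  | cons i is ih =>
    intro ds
    cases ds with
    | nil => rfl
    | cons d ds => simp only [zsel, ztog, ih]

theorem zsel_nil (m k : ℕ) : ∀ (is : List ℕ) (ds : List Bool), zsel m k [] is ds = [] := by
  intro is
  induction is with
  | nil => intro ds; rfl
  | cons i is ih =>
    intro ds
    cases ds with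
    | nil => rfl
    | cons d ds => simp [zsel, ztog, ih]

theorem zsel_some_notMem (m k : ℕ) (r : List (Option ℕ)) (v : ℕ) : ∀ (is : List ℕ)
    (ds : List Bool), v ∉ is → zsel m k (some v :: r) is ds = zsel m (k + 1) r is ds := by
  intro is
  induction is with
  | nil => intro ds _; rfl
  | cons i is ih =>
    intro ds h
    cases ds with
    | nil => rfl
    | cons d ds =>
      have h1 : v ≠ i := fun h' => h (by simp [h'])
      simp only [zsel, ztog, h1, if_false]
      rw [ih ds (fun h' => h (by simp [h']))]

theorem zsel_some (m k : ℕ) (r : List (Option ℕ)) (v : ℕ) : ∀ (is : List ℕ)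
    (ds : List Bool), is.Nodup → v ∈ is → ds.length = is.length →
    (zsel m k (some v :: r) is ds).Perm
      ((if dl is ds v then [bs m k] else []) ++ zsel m (k + 1) r is ds) := by
  intro is
  induction is with
  | nil => intro ds _ h; simp at h
  | cons i is ih =>
    intro ds hnd hv hl
    cases ds with
    | nil => simp at hl
    | cons d ds =>
      rw [List.nodup_cons] at hnd
      by_cases hvi : v = i
      · subst hvi
        simp only [zsel, ztog, dl, if_true]
        rw [zsel_some_notMem m k r v is ds hnd.1]
        cases d <;> simp
      · have hv' : v ∈ is := by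
          rcases List.mem_cons.1 hv with h | h
          · exact absurd h hvi
          · exact h
        have h1 := ih ds hnd.2 hv' (by simpa using hl)
        simp only [zsel, ztog, dl, hvi, if_false]
        refine (List.Perm.append_left _ h1).trans ?_
        rw [← List.append_assoc, ← List.append_assoc]
        exact List.Perm.append_right _ List.perm_append_comm

theorem zsel_perm (m : ℕ) (is : List ℕ) (ds : List Bool) (hnd : is.Nodup)
    (hl : ds.length = is.length) : ∀ (r : List (Option ℕ)) (k : ℕ),
    (∀ v, some v ∈ r → v ∈ is) → (zsel m k r is ds).Perm (zrun m (dl is ds) k r) := by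
  intro r
  induction r with
  | nil => intro k _; rw [zsel_nil]; simp [zrun]
  | cons a r ih =>
    intro k h
    have h1 := ih (k + 1) (fun v hv => h v (by simp [hv]))
    cases a with
    | none => rw [zsel_none]; exact h1
    | some v =>
      refine (zsel_some m k r v is ds hnd (h v (by simp)) hl).trans ?_
      simp only [zrun]
      cases dl is ds v
      · simpa using h1
      · simpa using h1.cons (bs m k)

/-! ### evaluation in the group -/

/-- product of the chosen elements -/
def selprod {G : Type*} [Group G] : List G → List Bool → G
  | g :: gs, e :: ε => (if e then g else 1) * selprod gs ε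
  | [], _ => 1
  | _ :: _, [] => 1

theorem selprod_append {G : Type*} [Group G] : ∀ (gs : List G) (ε : List Bool) (hs : List G)
    (ε' : List Bool), ε.length = gs.length →
    selprod (gs ++ hs) (ε ++ ε') = selprod gs ε * selprod hs ε' := by
  intro gs
  induction gs with
  | nil =>
    intro ε hs ε' h
    have : ε = [] := List.length_eq_zero_iff.1 (by simpa using h)
    subst this
    simp [selprod]
  | cons g gs ih =>
    intro ε hs ε' h
    cases ε with
    | nil => simp at h
    | cons e ε =>
      simp only [List.cons_append, selprod]
      rw [ih ε hs ε' (by simpa using h), mul_assoc]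

section group

variable {G : Type*} [Group G] (T b : G)

theorem cfg_nil : cfg T b [] = 1 := rfl

theorem cfg_cons (a : ℤ) (L : List ℤ) : cfg T b (a :: L) = cj T b a * cfg T b L := by
  simp [cfg]

theorem cfg_append (L L' : List ℤ) : cfg T b (L ++ L') = cfg T b L * cfg T b L' := by
  simp [cfg]

theorem cj_shift (s q : ℤ) : T ^ s * cj T b q = cj T b (q + s) * T ^ s := by
  unfold cj
  rw [add_comm q s, zpow_add]
  group

theorem cfg_perm (hG : Metab G) (hb : b ∈ commutator G) {L L' : List ℤ} (h : L.Perm L') :
    cfg T b L = cfg T b L' := by
  unfold cfg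
  apply List.Perm.prod_eq' (h.map _)
  rw [List.pairwise_map]
  apply List.pairwise_of_forall
  intro x y
  exact hG _ (conj_mem _ hb) _ (conj_mem _ hb)

/-- values of the token items -/
def xval (m : ℕ) : ℕ → List (Option ℕ) → List G
  | _, [] => []
  | k, some _ :: r => (cj T b (bs m k) * T) :: xval m (k + 1) r
  | k, none :: r => (cj T b (bs m k) * T⁻¹) :: xval m (k + 1) r

theorem xval_length (m : ℕ) : ∀ (r : List (Option ℕ)) (k : ℕ),
    (xval T b m k r).length = r.length := by
  intro r
  induction r with
  | nil => intro k; rfl
  | cons a r ih => intro k; cases a <;> simp [xval, ih]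

theorem xval_selprod (m : ℕ) : ∀ (r : List (Option ℕ)) (k : ℕ) (s : ℤ) (ε : List Bool),
    ∃ z : ℤ, T ^ s * selprod (xval T b m k r) ε = cfg T b (run m s k r ε) * T ^ z := by
  intro r
  induction r with
  | nil => intro k s ε; exact ⟨s, by simp [xval, selprod, run, cfg_nil]⟩
  | cons a r ih =>
    intro k s ε
    cases ε with
    | nil => exact ⟨s, by cases a <;> simp [xval, selprod, run, cfg_nil]⟩
    | cons e ε =>
      cases e with
      | false =>
        obtain ⟨z, hz⟩ := ih (k + 1) s ε
        exact ⟨z, by cases a <;> simpa [xval, selprod, run] using hz⟩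
      | true =>
        cases a with
        | some v =>
          obtain ⟨z, hz⟩ := ih (k + 1) (s + 1) ε
          refine ⟨z, ?_⟩
          simp only [xval, selprod, run, if_true, cfg_cons]
          rw [mul_assoc (cj T b (bs m k + s)), ← hz, ← mul_assoc, ← mul_assoc, cj_shift,
            zpow_add_one]
          simp only [mul_assoc]
        | none =>
          obtain ⟨z, hz⟩ := ih (k + 1) (s - 1) ε
          refine ⟨z, ?_⟩
          simp only [xval, selprod, run, if_true, cfg_cons]
          rw [mul_assoc (cj T b (bs m k + s)), ← hz, ← mul_assoc, ← mul_assoc, cj_shift,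
            zpow_sub_one]
          simp only [mul_assoc]

/-- the total shift for a correct choice vanishes -/
theorem xval_selprod_sem (m : ℕ) (x : ℕ → Bool) : ∀ (r : List (Option ℕ)) (k : ℕ) (s : Bool),
    sem x s (r ++ [none]) → T ^ (if s then (1 : ℤ) else 0) *
      selprod (xval T b m k (r ++ [none])) (ch x (r ++ [none])) =
      cfg T b (run m (if s then 1 else 0) k (r ++ [none]) (ch x (r ++ [none]))) := by
  intro r
  induction r with
  | nil =>
    intro k s h
    simp only [List.nil_append, sem] at h
    obtain ⟨rfl, _⟩ := h
    simp only [List.nil_append, xval, ch, selprod, run, if_true, cfg_cons, cfg_nil, mul_one]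
    have h1 := cj_shift T b 1 (bs m k)
    rw [zpow_one] at h1
    rw [zpow_one, ← mul_assoc, h1, mul_inv_cancel_right]
  | cons a r ih =>
    intro k s h
    cases a with
    | some v =>
      simp only [List.cons_append, sem] at h
      cases hx : x v with
      | true =>
        rw [hx] at h
        simp only [if_true] at h
        obtain ⟨rfl, h⟩ := h
        have h1 := ih (k + 1) true h
        simp only [List.cons_append, xval, ch, hx, selprod, run, if_true, Bool.false_eq_true,
          if_false, cfg_cons, add_zero, zero_add, zpow_zero, one_mul, zpow_one] at h1 ⊢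
        rw [← h1, mul_assoc]
      | false =>
        rw [hx] at h
        simp only [Bool.false_eq_true, if_false] at h
        have h1 := ih (k + 1) s h
        simpa only [List.cons_append, xval, ch, hx, selprod, run, if_true, Bool.false_eq_true,
          if_false, one_mul] using h1
    | none =>
      simp only [List.cons_append, sem] at h
      obtain ⟨rfl, h⟩ := h
      have h1 := ih (k + 1) false h
      have h2 := cj_shift T b 1 (bs m k)
      rw [zpow_one] at h2
      simp only [List.cons_append, xval, ch, selprod, run, if_true, Bool.false_eq_true,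
        if_false, cfg_cons, sub_self, zpow_zero, one_mul, zpow_one] at h1 ⊢
      rw [← h1, ← mul_assoc, ← mul_assoc, h2, mul_inv_cancel_right]

theorem zval_selprod (m k : ℕ) (r : List (Option ℕ)) : ∀ (is : List ℕ) (ds : List Bool),
    selprod (is.map (fun i => cfg T b (ztog m i k r))) ds = cfg T b (zsel m k r is ds) := by
  intro is
  induction is with
  | nil => intro ds; rfl
  | cons i is ih =>
    intro ds
    cases ds with
    | nil => rfl
    | cons d ds =>
      simp only [List.map_cons, selprod, zsel, ih, cfg_append]
      cases d <;> simp [cfg_nil]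

end group

theorem run_length_le (m : ℕ) : ∀ (r : List (Option ℕ)) (k : ℕ) (s : ℤ) (ε : List Bool),
    (run m s k r ε).length ≤ r.length := by
  intro r
  induction r with
  | nil => intro k s ε; simp [run]
  | cons a r ih =>
    intro k s ε
    cases ε with
    | nil => cases a <;> simp [run]
    | cons e ε =>
      have h1 := ih (k + 1) (s + 1) ε
      have h2 := ih (k + 1) (s - 1) ε
      have h3 := ih (k + 1) s ε
      cases a <;> cases e <;> simp [run] <;> omega

theorem zrun_length_le (m : ℕ) (δ : ℕ → Bool) : ∀ (r : List (Option ℕ)) (k : ℕ),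
    (zrun m δ k r).length ≤ r.length := by
  intro r
  induction r with
  | nil => intro k; simp [zrun]
  | cons a r ih =>
    intro k
    have h1 := ih (k + 1)
    cases a with
    | none => simp [zrun]; omega
    | some v => simp only [zrun]; split <;> simp <;> omega

theorem tgt_length (m : ℕ) : ∀ (r : List (Option ℕ)) (k : ℕ),
    (tgt m k r).length = r.length := by
  intro r
  induction r with
  | nil => intro k; simp [tgt]
  | cons a r ih => intro k; cases a <;> simp [tgt, ih]

/-- The token game in a group. -/
theorem game {G : Type*} [Group G] (hG : Metab G) (T b : G) (hb : b ∈ commutator G) {p : ℕ}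
    (hp : p ≠ 1) (n : ℕ) (r : List (Option ℕ)) (hv : ∀ v, some v ∈ r → v < n) (N : ℕ)
    (hN : (2 * (r.length + 1) + 4) * (r.length + 1) ≤ N)
    (hclk : ∀ (L1 L2 : List ℤ) (s : ℤ), (∀ q ∈ L1, 0 ≤ q ∧ q ≤ N) →
        (∀ q ∈ L2, 0 ≤ q ∧ q ≤ N) → L1.length ≤ N → L2.length ≤ N →
        cfg T b L1 * T ^ s = cfg T b L2 →
        s = 0 ∧ ∀ q : ℤ, (p : ℤ) ∣ (L1.count q : ℤ) - (L2.count q : ℤ)) :
    (∃ ε : List Bool, ε.length = n + (r.length + 1) ∧
      selprod ((List.range n).map (fun i => cfg T b (ztog (r.length + 1) i 0 (r ++ [none]))) ++
        xval T b (r.length + 1) 0 (r ++ [none])) ε = cfg T b (tgt (r.length + 1) 0 (r ++ [none])))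
      ↔ ∃ x : ℕ → Bool, sem x false (r ++ [none]) := by
  set m := r.length + 1 with hm
  have hrl : (r ++ [none]).length = m := by simp [hm]
  have hvr : ∀ v, some v ∈ r ++ [none] → v ∈ List.range n := by
    intro v h
    simp at h
    simpa using hv v h
  have hbound : ∀ L : List ℤ, (∀ q ∈ L, (2 * m + 4) * ((0 : ℕ) : ℤ) ≤ q ∧
      q < (2 * m + 4) * (((0 : ℕ) : ℤ) + (r ++ [none]).length)) → ∀ q ∈ L, 0 ≤ q ∧ q ≤ N := by
    intro L hL q hq
    have h1 := hL q hq
    rw [hrl] at h1
    push_cast at h1
    have h2 : ((2 * m + 4) * m : ℤ) ≤ N := by exact_mod_cast hN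
    constructor
    · linarith [h1.1]
    · have := h1.2
      simp only [zero_add] at this
      linarith
  constructor
  · rintro ⟨ε, hε, heq⟩
    obtain ⟨ds, ε', rfl, hds⟩ : ∃ ds ε', ε = ds ++ ε' ∧ ds.length = n :=
      ⟨ε.take n, ε.drop n, by simp, by simp; omega⟩
    have hε' : ε'.length = m := by
      simp at hε
      omega
    rw [selprod_append _ _ _ _ (by simp [hds]), zval_selprod] at heq
    obtain ⟨z, hz⟩ := xval_selprod T b m (r ++ [none]) 0 0 ε'
    rw [zpow_zero, one_mul] at hz
    rw [hz, ← mul_assoc, ← cfg_append] at heq
    have hperm := zsel_perm m (List.range n) ds List.nodup_range (by simp [hds])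
      (r ++ [none]) 0 hvr
    have hperm2 : (zsel m 0 (r ++ [none]) (List.range n) ds ++ run m 0 0 (r ++ [none]) ε').Perm
        (zrun m (dl (List.range n) ds) 0 (r ++ [none]) ++ run m 0 0 (r ++ [none]) ε') :=
      List.Perm.append_right _ hperm
    rw [cfg_perm T b hG hb hperm2] at heq
    have h1 : ∀ q ∈ zrun m (dl (List.range n) ds) 0 (r ++ [none]) ++
        run m 0 0 (r ++ [none]) ε', 0 ≤ q ∧ q ≤ (N : ℤ) := by
      apply hbound
      intro q hq
      rcases List.mem_append.1 hq with h | h
      · exact zrun_ge m _ _ 0 q h
      · exact run_ge m _ 0 0 ε' (by rw [hrl]; simp) q h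
    have h2 : ∀ q ∈ tgt m 0 (r ++ [none]), 0 ≤ q ∧ q ≤ (N : ℤ) := by
      apply hbound
      intro q hq
      exact tgt_ge m _ 0 q hq
    have hmN : 2 * m ≤ N := by nlinarith
    have h3 := zrun_length_le m (dl (List.range n) ds) (r ++ [none]) 0
    have h4 := run_length_le m (r ++ [none]) 0 0 ε'
    have h5 := tgt_length m (r ++ [none]) 0
    rw [hrl] at h3 h4 h5
    obtain ⟨_, h6⟩ := hclk _ _ z h1 h2 (by rw [List.length_append]; omega) (by omega) heq
    refine ⟨fun v => !(dl (List.range n) ds v), ?_⟩
    apply sem_of_dvd hp m _ (r ++ [none]) 0 false ε' (by rw [hε', hrl]) (by rw [hrl])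
    intro q
    have h7 := h6 q
    rw [List.count_append] at h7
    push_cast at h7
    simpa using h7
  · rintro ⟨x, hx⟩
    refine ⟨(List.range n).map (fun v => !x v) ++ ch x (r ++ [none]), ?_, ?_⟩
    · rw [List.length_append, ch_length, hrl]
      simp
    · rw [selprod_append _ _ _ _ (by simp), zval_selprod]
      have h1 := xval_selprod_sem T b m x r 0 false hx
      simp only [Bool.false_eq_true, if_false, zpow_zero, one_mul] at h1
      rw [h1, ← cfg_append]
      apply cfg_perm T b hG hb
      have hdl : ∀ v, v ∈ List.range n → dl (List.range n) ((List.range n).map (fun v => !x v)) v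
          = !x v := by
        intro v
        generalize List.range n = l
        intro hv
        induction l with
        | nil => simp at hv
        | cons i l ih =>
          simp only [List.map_cons, dl]
          split
          · rename_i h; rw [h]
          · rename_i h
            apply ih
            rcases List.mem_cons.1 hv with h' | h'
            · exact absurd h' h
            · exact h'
      have hperm := zsel_perm m (List.range n) ((List.range n).map (fun v => !x v))
        List.nodup_range (by simp) (r ++ [none]) 0 hvr
      have hz : ∀ (r' : List (Option ℕ)) (k : ℕ), (∀ v, some v ∈ r' → v ∈ List.range n) →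
          zrun m (dl (List.range n) ((List.range n).map (fun v => !x v))) k r' =
          zrun m (fun v => !x v) k r' := by
        intro r'
        induction r' with
        | nil => intro k _; rfl
        | cons a r' ih =>
          intro k h
          have h1 := ih (k + 1) (fun v hv => h v (by simp [hv]))
          cases a with
          | none => simp only [zrun, h1]
          | some v =>
            simp only [zrun, h1]
            rw [hdl v (h v (by simp))]
      rw [hz _ 0 hvr] at hperm
      refine (List.Perm.append_right _ hperm).trans ?_
      simpa using perm_of_sem m x (r ++ [none]) 0 false hx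

end Pool.Agent.H.MP_521f94_lc
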