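import Pool.Agent.H.MP_521f94_lc.Raw
import Pool.Agent.H.MP_521f94_lc.Dec
import Pool.Agent.H.MP_84f0af_lc.CnfSat

/-!
NP membership and NP-hardness with polynomial-time functions given by `Poly`.
-/

namespace Pool.Agent.H.MP_521f94_lc

open Pool.Agent.H.MP_5be563_lc.PT Turing
open Pool.Agent.H.MP_84f0af_lc (InNP CnfSat encCnf encLit Cnf cook_levin)

/-- encoding of a finite type -/
@[reducible] noncomputable def encFinite (Γ : Type) [Finite Γ] : Enc Γ where
  enc a := enc ((@Fintype.equivFin Γ (Fintype.ofFinite Γ)) a).val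
  inj a b h := by
    apply (@Fintype.equivFin Γ (Fintype.ofFinite Γ)).injective
    exact Fin.ext (Enc.inj h)

/-- left symbols -/
def lsym {Γ : Type} : Γ ⊕ Bool → List Γ
  | .inl a => [a]
  | .inr _ => []

/-- right symbols -/
def rsym {Γ : Type} : Γ ⊕ Bool → List Bool
  | .inl _ => []
  | .inr b => [b]

/-- the first component of a pair string -/
def sp1 {Γ : Type} (z : List (Γ ⊕ Bool)) : List Γ := z.flatMap lsym

/-- the second component of a pair string -/
def sp2 {Γ : Type} (z : List (Γ ⊕ Bool)) : List Bool := z.flatMap rsym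

theorem sp1_eq {Γ : Type} (a : List Γ) (b : List Bool) :
    sp1 (a.map Sum.inl ++ b.map Sum.inr) = a := by
  unfold sp1
  rw [List.flatMap_append]
  have h1 : (a.map (Sum.inl : Γ → Γ ⊕ Bool)).flatMap lsym = a := by
    induction a with
    | nil => rfl
    | cons x a ih => rw [List.map_cons, List.flatMap_cons, ih]; rfl
  have h2 : (b.map (Sum.inr : Bool → Γ ⊕ Bool)).flatMap lsym = [] := by
    induction b with
    | nil => rfl
    | cons x b ih => rw [List.map_cons, List.flatMap_cons, ih]; rfl
  rw [h1, h2, List.append_nil]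

theorem sp2_eq {Γ : Type} (a : List Γ) (b : List Bool) :
    sp2 (a.map Sum.inl ++ b.map (Sum.inr : Bool → Γ ⊕ Bool)) = b := by
  unfold sp2
  rw [List.flatMap_append]
  have h1 : (a.map (Sum.inl : Γ → Γ ⊕ Bool)).flatMap rsym = [] := by
    induction a with
    | nil => rfl
    | cons x a ih => rw [List.map_cons, List.flatMap_cons, ih]; rfl
  have h2 : (b.map (Sum.inr : Bool → Γ ⊕ Bool)).flatMap rsym = b := by
    induction b with
    | nil => rfl
    | cons x b ih => rw [List.map_cons, List.flatMap_cons, ih]; rfl
  rw [h1, h2, List.nil_append]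

/-- NP membership from a `Poly` checker with short certificates -/
theorem inNP_of_poly {Γ : Type} [Finite Γ] [Enc Γ] {C : Type} [Enc C] [Dec C]
    (L : Set (List Γ)) (chk : List Γ × C → Bool) (hchk : Poly chk) (p : Polynomial ℕ)
    (hs : ∀ s c, chk (s, c) = true → s ∈ L)
    (hc : ∀ s ∈ L, ∃ c : C, sz c ≤ p.eval s.length ∧ chk (s, c) = true) : InNP L := by
  let _ : Enc (Γ ⊕ Bool) := encFinite _
  have h1 : Poly (fun z : List (Γ ⊕ Bool) => sp1 z) := by
    unfold sp1
    exact Poly.flatMap (f := fun _ c => lsym c)
      (Poly.comp (f := fun c : Γ ⊕ Bool => lsym c) (Poly.of_finite _) Poly.snd) Poly.id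
  have h2 : Poly (fun z : List (Γ ⊕ Bool) => sp2 z) := by
    unfold sp2
    exact Poly.flatMap (f := fun _ c => rsym c)
      (Poly.comp (f := fun c : Γ ⊕ Bool => rsym c) (Poly.of_finite _) Poly.snd) Poly.id
  refine ⟨p, fun z => chk (z.1, dec (parseD z.2)), ?_, ?_⟩
  · refine Raw.tm2_of_poly_enc (α := List Γ × List Bool) (fun z => (sp1 z, sp2 z))
      (by fun_prop) (fun a => ?_) (by fun_prop) (by fun_prop)
    rw [sp1_eq, sp2_eq]
  · intro s
    constructor
    · intro h
      obtain ⟨c, hc1, hc2⟩ := hc s h
      refine ⟨(enc c).bits, ?_, ?_⟩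
      · rw [D.bits_length]; exact hc1
      · simp only [parseD_bits, dec_enc]; exact hc2
    · rintro ⟨w, _, hw⟩
      exact hs s _ hw

/-! ### decoding formulas -/

/-- one step of the decoder, from the right -/
def cstep (a : Option (Option Bool)) (st : Cnf) : Cnf :=
  if a.isSome = true then
    (if (a.getD none).isSome = true then
      ((((a.getD none).getD false, 0) : Bool × ℕ) :: st.headD []) :: st.tail
    else [] :: st)
  else ((((st.headD []).headD (true, 0)).1, ((st.headD []).headD (true, 0)).2 + 1) ::
    (st.headD []).tail) :: st.tail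

/-- the decoder -/
def decCnf (s : List (Option (Option Bool))) : Cnf := s.foldr cstep []

theorem foldr_encLit (l : Bool × ℕ) (c : List (Bool × ℕ)) (st : Cnf) :
    (encLit l).foldr cstep (c :: st) = (l :: c) :: st := by
  rcases l with ⟨b, v⟩
  unfold encLit
  rw [List.foldr_append]
  have h1 : ([some (some b)] : List (Option (Option Bool))).foldr cstep (c :: st) =
      (((b, 0) : Bool × ℕ) :: c) :: st := rfl
  simp only
  rw [h1]
  induction v with
  | zero => rfl
  | succ v ih => rw [List.replicate_succ, List.foldr_cons, ih]; rfl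

theorem decCnf_encCnf (F : Cnf) : decCnf (encCnf F) = F := by
  unfold decCnf encCnf
  induction F with
  | nil => rfl
  | cons c F ih =>
    rw [List.flatMap_cons, List.foldr_append, ih, List.foldr_append]
    have h1 : ([some none] : List (Option (Option Bool))).foldr cstep F = [] :: F := rfl
    rw [h1]
    induction c with
    | nil => rfl
    | cons l c ih2 => rw [List.flatMap_cons, List.foldr_append, ih2, foldr_encLit]

theorem sz_headD_tail {α : Type} [Enc α] (l : List α) (d : α) :
    sz (l.headD d) + sz l.tail ≤ sz l + sz d := by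
  cases l with
  | nil => simp
  | cons a l => simp; omega

theorem sz_cstep (a : Option (Option Bool)) (st : Cnf) : sz (cstep a st) ≤ sz st + 20 := by
  unfold cstep
  split
  · split
    · have h1 := sz_headD_tail st []
      have h2 := sz_bool_le ((a.getD none).getD false)
      simp only [sz_lcons, sz_pair, sz_nat, sz_lnil] at h1 ⊢
      omega
    · simp; omega
  · have h1 := sz_headD_tail st []
    have h2 := sz_headD_tail (st.headD []) (true, 0)
    have h3 := sz_bool_le ((st.headD []).headD (true, 0)).1
    have h4 := sz_prod ((st.headD []).headD (true, 0))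
    have h5 := sz_nat ((st.headD []).headD (true, 0)).2
    simp only [sz_lcons, sz_pair, sz_nat, sz_lnil, sz_true] at *
    omega

@[fun_prop]
theorem poly_cstep {α : Type} [Enc α] {a : α → Option (Option Bool)} {st : α → Cnf}
    (ha : Poly a) (hst : Poly st) : Poly (fun x => cstep (a x) (st x)) := by
  unfold cstep
  fun_prop

theorem poly_decCnf : Poly decCnf := by
  have key := Poly.foldr (f := fun p : List (Option (Option Bool)) × Cnf × Option (Option Bool) =>
    cstep p.2.2 p.2.1) (l := fun s => s) (s0 := fun _ => ([] : Cnf))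
    (B := fun s => 20 * sz s + 1) (by fun_prop) (by fun_prop) (by fun_prop)
    (((PBdd.const 20).mul PBdd.sz_self).add (PBdd.const 1)) (by
      intro s l₁ l₂ h
      simp only
      have h1 : ∀ l : List (Option (Option Bool)), sz (l.foldr cstep []) ≤ 20 * sz l + 1 := by
        intro l
        induction l with
        | nil => simp
        | cons a l ih =>
          have := sz_cstep a (l.foldr cstep [])
          have h2 := sz_pos a
          rw [List.foldr_cons, sz_lcons]
          omega
      have h2 : sz l₂ ≤ sz s := by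
        rw [h]; exact sz_sublist_le (List.sublist_append_right _ _)
      have h3 := h1 l₂
      have h4 : (l₂.foldr (fun b s => cstep b s) []) = l₂.foldr cstep [] := rfl
      rw [h4]
      omega)
  exact key

/-- NP-hardness from a `Poly` reduction of the satisfiability of formulas -/
theorem hard_of_sat {Δ : Type} [Finite Δ] [Enc Δ] (L : Set (List Δ)) (g : Cnf → List Δ)
    (hg : Poly g) (h : ∀ F, CnfSat F ↔ g F ∈ L) (Γ : Type) [Fintype Γ] (A : Set (List Γ))
    (hA : InNP A) : ∃ f : List Γ → List Δ,
      Nonempty (TM2ComputableInPolyTime (id : List Γ → List Γ) (id : List Δ → List Δ) f) ∧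
      ∀ s, s ∈ A ↔ f s ∈ L := by
  let _ : Enc Γ := encFinite _
  obtain ⟨f, ⟨hf⟩, _, hf2⟩ := cook_levin A hA
  have h1 := poly_of_tm2 (ea := (id : List Γ → List Γ)) hf Poly.id
  have h2 : Poly (fun s : List Γ => g (decCnf (encCnf (f s)))) :=
    Poly.comp hg (Poly.comp poly_decCnf h1)
  refine ⟨fun s => g (f s), Raw.tm2_of_poly ?_, ?_⟩
  · simpa only [decCnf_encCnf] using h2
  · intro s
    rw [hf2, h]

end Pool.Agent.H.MP_521f94_lc
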