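import Pool.Agent.H.MP_521f94_lc.Dec
import Pool.Agent.H.MP_521f94_lc.Cert
import Pool.Agent.H.MP_521f94_lc.Embed

/-!
The certificate checker runs in polynomial time.
-/

namespace Pool.Agent.H.MP_521f94_lc

open Pool.Agent.H.MP_5be563_lc.PT

section

variable {α β : Type} [Enc α] [Enc β]

@[fun_prop]
theorem poly_eqm (m : ℕ) {f g : α → List ℕ} (hf : Poly f) (hg : Poly g) :
    Poly (fun a => eqm m (f a) (g a)) := by
  unfold eqm
  fun_prop

@[fun_prop]
theorem poly_cnt (m : ℕ) {s : α → Bool} {f : α → List ℕ} {L : α → List Term} (hs : Poly s)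
    (hf : Poly f) (hL : Poly L) : Poly (fun a => cnt m (s a) (f a) (L a)) := by
  unfold cnt
  fun_prop

@[fun_prop]
theorem poly_same (m : ℕ) {L1 L2 : α → List Term} (h1 : Poly L1) (h2 : Poly L2) :
    Poly (fun a => same m (L1 a) (L2 a)) := by
  unfold same
  fun_prop

@[fun_prop]
theorem poly_mulT {s : α → Bool} {f : α → List ℕ} {g : α → List Term} (hs : Poly s)
    (hf : Poly f) (hg : Poly g) : Poly (fun a => mulT (s a) (f a) (g a)) := by
  unfold mulT
  fun_prop

@[fun_prop]
theorem poly_recon (gens : List (List Term)) {c : α → CStep} (hc : Poly c) :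
    Poly (fun a => recon gens (c a)) := by
  have h := Poly.ocase (l := fun a => (c a).1) (f := fun a => (c a).2 ++ (c a).2)
    (g := fun a o => mulT o.1 o.2.1 (gens.getD o.2.2 []) ++ (c a).2) (by fun_prop)
    (by fun_prop) (by fun_prop)
  refine (show (fun a => recon gens (c a)) = _ from ?_) ▸ h
  funext a
  unfold recon
  cases (c a).1 <;> rfl

theorem check_eq_foldl (m : ℕ) (gens : List (List Term)) : ∀ (cs : List CStep) (f : List Term)
    (b : Bool), (b && check m gens f cs) =
      ((cs.foldl (fun s c => (c.2, s.2 && same m s.1 (recon gens c))) (f, b)).2 &&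
        same m (cs.foldl (fun s c => (c.2, s.2 && same m s.1 (recon gens c))) (f, b)).1 []) := by
  intro cs
  induction cs with
  | nil => intro f b; rfl
  | cons c cs ih =>
    intro f b
    rw [List.foldl_cons, ← ih, check, Bool.and_assoc]

@[fun_prop]
theorem poly_check (m : ℕ) (gens : List (List Term)) {f : α → List Term} {cs : α → List CStep}
    (hf : Poly f) (hcs : Poly cs) : Poly (fun a => check m gens (f a) (cs a)) := by
  have h1 : Poly (fun a => (cs a).foldl (fun s c => (c.2, s.2 && same m s.1 (recon gens c)))
      (f a, true)) := by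
    refine Poly.foldl (f := fun p : α × (List Term × Bool) × CStep =>
      (p.2.2.2, p.2.1.2 && same m p.2.1.1 (recon gens p.2.2))) (l := cs)
      (s0 := fun a => (f a, true)) (B := fun a => sz (f a) + sz (cs a) + 4) (by fun_prop) hcs
      (by fun_prop) ((hf.sz_le.add hcs.sz_le).add (PBdd.const 4)) ?_
    intro a l₁ l₂ h
    have key : ∀ (l : List CStep) (s : List Term × Bool), sz (l.foldl (fun s b =>
        ((b.2, s.2 && same m s.1 (recon gens b)) : List Term × Bool)) s) ≤
        max (sz s.1) (sz l) + 4 := by
      intro l
      induction l with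
      | nil =>
        intro s
        rw [List.foldl_nil, sz_prod]
        have := sz_bool_le s.2
        omega
      | cons c l ih =>
        intro s
        rw [List.foldl_cons]
        refine (ih _).trans ?_
        have h1 : sz c.2 < sz c := by
          rw [sz_prod]; have := sz_pos c.1; omega
        simp only [sz_lcons]
        omega
    refine (key l₁ (f a, true)).trans ?_
    have h2 : sz l₁ ≤ sz (cs a) := by
      rw [h]; exact sz_sublist_le (List.sublist_append_left _ _)
    simp only
    omega
  have h2 : Poly (fun a => ((cs a).foldl (fun s c => (c.2, s.2 && same m s.1 (recon gens c)))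
      (f a, true)).2 && same m ((cs a).foldl (fun s c => (c.2, s.2 && same m s.1 (recon gens c)))
      (f a, true)).1 []) := by fun_prop
  refine (show (fun a => check m gens (f a) (cs a)) = _ from ?_) ▸ h2
  funext a
  rw [← check_eq_foldl, Bool.true_and]

@[fun_prop]
theorem poly_qv {w : α → List (ℕ × Bool)} (hw : Poly w) : Poly (fun a => qv (w a)) := by
  unfold qv
  fun_prop

theorem mv_eq : ∀ (w : List (ℕ × Bool)) (q : List ℕ), mv q w =
    (List.range w.length).map (fun j => ((w.getD j (0, true)).2,
      if (w.getD j (0, true)).2 = true then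
        (q ++ qv (w.take j)) ++ [3 * (w.getD j (0, true)).1 + 2]
      else (q ++ qv (w.take j)) ++ [3 * (w.getD j (0, true)).1 + 1,
        3 * (w.getD j (0, true)).1 + 2])) := by
  intro w
  induction w with
  | nil => intro q; rfl
  | cons l w ih =>
    intro q
    rw [mv, ih, List.length_cons, List.range_succ_eq_map, List.map_cons, List.map_map]
    congr 1
    · simp [qv]
    · apply List.map_congr_left
      intro j _
      simp [qv]

@[fun_prop]
theorem poly_mv {q : α → List ℕ} {w : α → List (ℕ × Bool)} (hq : Poly q) (hw : Poly w) :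
    Poly (fun a => mv (q a) (w a)) := by
  have : ∀ a, mv (q a) (w a) = _ := fun a => mv_eq (w a) (q a)
  refine (show (fun a => mv (q a) (w a)) = _ from funext this) ▸ ?_
  fun_prop

@[fun_prop]
theorem poly_wpoly {w : α → List (ℕ × Bool)} (hw : Poly w) : Poly (fun a => wpoly (w a)) := by
  unfold wpoly
  fun_prop

end

end Pool.Agent.H.MP_521f94_lc
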