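import Pool.Agent.H.MP_521f94_lc.Toks
import Pool.Agent.H.MP_521f94_lc.PolyCheck

/-!
The instance of the subset sum problem for a formula.
-/

namespace Pool.Agent.H.MP_521f94_lc

open Pool.Agent.H.MP_5be563_lc.PT

/-- words over numbered letters -/
abbrev NW := List (ℕ × Bool)

/-- inverse word -/
def winv (w : NW) : NW := (w.map (fun l => (l.1, !l.2))).reverse

/-- power of a word -/
def wpow (w : NW) (n : ℕ) : NW := (List.replicate n w).flatten

/-- word for the conjugate of `wb` by the power `a * q` of `wt` -/
def wcj (wt wb : NW) (a q : ℕ) : NW := wpow wt (a * q) ++ (wb ++ wpow (winv wt) (a * q))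

/-- base positions, as natural numbers -/
def bsn (m k : ℕ) : ℕ := (2 * m + 4) * k + (m + 1)

section value

variable {G : Type*} [Group G] (x : ℕ → G)

theorem wval_append (u v : NW) : wval x (u ++ v) = wval x u * wval x v := by
  simp [wval]

theorem wval_nil : wval x [] = 1 := rfl

theorem wval_winv (w : NW) : wval x (winv w) = (wval x w)⁻¹ := by
  induction w with
  | nil => simp [winv, wval]
  | cons l w ih =>
    have h1 : winv (l :: w) = winv w ++ [(l.1, !l.2)] := by simp [winv]
    have h2 : wval x (l :: w) = lval x l * wval x w := by simp [wval]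
    have h3 : wval x [(l.1, !l.2)] = (lval x l)⁻¹ := by
      unfold wval lval
      cases l.2 <;> simp
    rw [h1, wval_append, ih, h2, h3, mul_inv_rev]

theorem wval_wpow (w : NW) (n : ℕ) : wval x (wpow w n) = wval x w ^ n := by
  induction n with
  | zero => simp [wpow, wval]
  | succ n ih =>
    have h1 : wpow w (n + 1) = w ++ wpow w n := by
      simp [wpow, List.replicate_succ]
    rw [h1, wval_append, ih, pow_succ']

theorem wval_wcj (wt wb : NW) (a q : ℕ) :
    wval x (wcj wt wb a q) = cj (wval x wt ^ a) (wval x wb) (q : ℤ) := by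
  unfold wcj cj
  rw [wval_append, wval_append, wval_wpow, wval_wpow, wval_winv, pow_mul, zpow_natCast,
    inv_pow, pow_mul, mul_assoc]

theorem wval_flatMap_wcj {α : Type*} (wt wb : NW) (a : ℕ) (l : List α) (q : α → List ℕ) :
    wval x (l.flatMap (fun p => (q p).flatMap (wcj wt wb a))) =
      cfg (wval x wt ^ a) (wval x wb) ((l.flatMap q).map (fun n : ℕ => (n : ℤ))) := by
  have h1 : ∀ L : List ℕ, wval x (L.flatMap (wcj wt wb a)) =
      cfg (wval x wt ^ a) (wval x wb) (L.map (fun n : ℕ => (n : ℤ))) := by
    intro L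
    induction L with
    | nil => simp [wval, cfg]
    | cons n L ih =>
      rw [List.flatMap_cons, wval_append, ih, List.map_cons, cfg_cons, wval_wcj]
  rw [← h1, List.flatMap_assoc]

end value

theorem range_zip_cons {α : Type*} (a : α) (r : List α) :
    (List.range (a :: r).length).zip (a :: r) =
      (0, a) :: ((List.range r.length).zip r).map (fun p => (p.1 + 1, p.2)) := by
  rw [List.length_cons, List.range_succ_eq_map, List.zip_cons_cons, List.zip_map_left]
  rfl

theorem ztog_eq (m i : ℕ) : ∀ (r : List (Option ℕ)) (k : ℕ), ztog m i k r =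
    (((List.range r.length).zip r).flatMap (fun p => if p.2 = some i then [bsn m (k + p.1)]
      else [])).map (fun n : ℕ => (n : ℤ)) := by
  intro r
  induction r with
  | nil => intro k; rfl
  | cons a r ih =>
    intro k
    have hb : bs m k = ((bsn m k : ℕ) : ℤ) := by
      unfold bs bsn; push_cast; rfl
    have ih' := ih (k + 1)
    simp only [Nat.add_assoc, Nat.add_comm 1] at ih'
    rw [range_zip_cons, List.flatMap_cons, List.flatMap_map, List.map_append]
    simp only [add_zero]
    rw [← ih']
    cases a with
    | none => simp [ztog]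
    | some v =>
      simp only [ztog, Option.some.injEq]
      split <;> simp [hb]

theorem tgt_eq (m : ℕ) : ∀ (r : List (Option ℕ)) (k : ℕ), tgt m k r =
    (((List.range r.length).zip r).flatMap (fun p => [bsn m (k + p.1) +
      (if p.2.isSome = true then 0 else 1)])).map (fun n : ℕ => (n : ℤ)) := by
  intro r
  induction r with
  | nil => intro k; rfl
  | cons a r ih =>
    intro k
    have hb : bs m k = ((bsn m k : ℕ) : ℤ) := by
      unfold bs bsn; push_cast; rfl
    have ih' := ih (k + 1)
    simp only [Nat.add_assoc, Nat.add_comm 1] at ih'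
    rw [range_zip_cons, List.flatMap_cons, List.flatMap_map, List.map_append]
    simp only [add_zero]
    rw [← ih']
    cases a <;> simp [tgt, hb]

theorem xval_eq {G : Type*} [Group G] (T b : G) (m : ℕ) : ∀ (r : List (Option ℕ)) (k : ℕ),
    xval T b m k r = ((List.range r.length).zip r).map (fun p => cj T b (bsn m (k + p.1) : ℕ) *
      (if p.2.isSome = true then T else T⁻¹)) := by
  intro r
  induction r with
  | nil => intro k; rfl
  | cons a r ih =>
    intro k
    have hb : bs m k = ((bsn m k : ℕ) : ℤ) := by
      unfold bs bsn; push_cast; rfl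
    have ih' := ih (k + 1)
    simp only [Nat.add_assoc, Nat.add_comm 1] at ih'
    rw [range_zip_cons, List.map_cons, List.map_map]
    simp only [Function.comp_def, add_zero]
    rw [← ih']
    cases a <;> simp [xval, hb]

/-- bound for the variables in a token list -/
def nvar (r : List (Option ℕ)) : ℕ :=
  (r.flatMap (fun o => List.replicate (o.getD 0 + 1) ())).length

theorem lt_nvar {r : List (Option ℕ)} {v : ℕ} (h : some v ∈ r) : v < nvar r := by
  unfold nvar
  obtain ⟨l1, l2, rfl⟩ := List.append_of_mem h
  rw [List.flatMap_append, List.flatMap_cons, List.length_append, List.length_append]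
  simp only [Option.getD_some, List.length_replicate]
  omega

/-- the words for a token list -/
def wordsOf (wt wb : NW) (a m n : ℕ) (r : List (Option ℕ)) : List NW :=
  (List.range n).map (fun i => ((List.range m).zip r).flatMap (fun p =>
    (if p.2 = some i then [bsn m p.1] else []).flatMap (wcj wt wb a))) ++
  ((List.range m).zip r).map (fun p => wcj wt wb a (bsn m p.1) ++
    (if p.2.isSome = true then wpow wt a else wpow (winv wt) a))

/-- the target word for a token list -/
def targetOf (wt wb : NW) (a m : ℕ) (r : List (Option ℕ)) : NW :=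
  ((List.range m).zip r).flatMap (fun p =>
    [bsn m p.1 + (if p.2.isSome = true then 0 else 1)].flatMap (wcj wt wb a))

/-- all the words of the instance of a formula, with the target -/
def instOf (wt wb : NW) (c : ℕ) (F : List (List (Bool × ℕ))) : List NW × NW :=
  let r := tokOf (eqsOf F)
  let m := r.length + 1
  let a := c * ((2 * m + 4) * m)
  (wordsOf wt wb a m (nvar r) (r ++ [none]), targetOf wt wb a m (r ++ [none]))

theorem instOf_iff {G : Type*} [Group G] (hG : Metab G) (x : ℕ → G) (wt wb : NW)
    (hb : wval x wb ∈ commutator G) {p : ℕ} (hp : p ≠ 1) (c : ℕ)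
    (hclk : ∀ N : ℕ, 1 ≤ N → ∀ (L1 L2 : List ℤ) (s : ℤ), (∀ q ∈ L1, 0 ≤ q ∧ q ≤ N) →
        (∀ q ∈ L2, 0 ≤ q ∧ q ≤ N) → L1.length ≤ N → L2.length ≤ N →
        cfg (wval x wt ^ (c * N)) (wval x wb) L1 * (wval x wt ^ (c * N)) ^ s =
          cfg (wval x wt ^ (c * N)) (wval x wb) L2 →
        s = 0 ∧ ∀ q : ℤ, (p : ℤ) ∣ (L1.count q : ℤ) - (L2.count q : ℤ))
    (F : List (List (Bool × ℕ))) :
    (∃ ε : List Bool, ε.length = (instOf wt wb c F).1.length ∧
      selprod ((instOf wt wb c F).1.map (wval x)) ε = wval x (instOf wt wb c F).2) ↔ Sat F := by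
  rw [← eqs_iff]
  simp only [← sem_tokOf]
  unfold instOf
  simp only
  set r := tokOf (eqsOf F) with hr
  set m := r.length + 1 with hm
  set N := (2 * m + 4) * m with hN
  have hN1 : 1 ≤ N := by rw [hN]; nlinarith
  have hml : (r ++ [none]).length = m := by simp [hm]
  rw [← game hG (wval x wt ^ (c * N)) (wval x wb) hb hp (nvar r) r (fun v hv => lt_nvar hv) N
    (le_of_eq (by rw [hN, hm])) (hclk N hN1)]
  have e1 : (wordsOf wt wb (c * N) m (nvar r) (r ++ [none])).length = nvar r + m := by
    unfold wordsOf
    simp [hm]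
  have e2 : (wordsOf wt wb (c * N) m (nvar r) (r ++ [none])).map (wval x) =
      (List.range (nvar r)).map (fun i => cfg (wval x wt ^ (c * N)) (wval x wb)
        (ztog m i 0 (r ++ [none]))) ++
      xval (wval x wt ^ (c * N)) (wval x wb) m 0 (r ++ [none]) := by
    unfold wordsOf
    rw [List.map_append, List.map_map, List.map_map]
    congr 1
    · apply List.map_congr_left
      intro i _
      simp only [Function.comp]
      rw [wval_flatMap_wcj, ztog_eq, hml]
      simp only [zero_add]
    · rw [xval_eq, hml]
      apply List.map_congr_left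
      intro q _
      simp only [Function.comp]
      rw [wval_append, wval_wcj, zero_add]
      congr 1
      split
      · rw [wval_wpow]
      · rw [wval_wpow, wval_winv, inv_pow]
  have e3 : wval x (targetOf wt wb (c * N) m (r ++ [none])) =
      cfg (wval x wt ^ (c * N)) (wval x wb) (tgt m 0 (r ++ [none])) := by
    unfold targetOf
    rw [wval_flatMap_wcj, tgt_eq, hml]
    simp only [zero_add]
  rw [e1, e2, e3]

section poly

variable {α β : Type} [Enc α] [Enc β]

@[fun_prop]
theorem poly_winv {w : α → NW} (hw : Poly w) : Poly (fun a => winv (w a)) := by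
  unfold winv
  fun_prop

@[fun_prop]
theorem poly_wpow {w : α → NW} {n : α → ℕ} (hw : Poly w) (hn : Poly n) :
    Poly (fun a => wpow (w a) (n a)) := by
  unfold wpow
  fun_prop

@[fun_prop]
theorem poly_wcj {wt wb : α → NW} {n q : α → ℕ} (hwt : Poly wt) (hwb : Poly wb) (hn : Poly n)
    (hq : Poly q) : Poly (fun a => wcj (wt a) (wb a) (n a) (q a)) := by
  unfold wcj
  fun_prop

@[fun_prop]
theorem poly_bsn {m k : α → ℕ} (hm : Poly m) (hk : Poly k) : Poly (fun a => bsn (m a) (k a)) := by
  unfold bsn
  fun_prop

@[fun_prop]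
theorem poly_natPair {m k : α → ℕ} (hm : Poly m) (hk : Poly k) :
    Poly (fun a => Nat.pair (m a) (k a)) := by
  unfold Nat.pair
  fun_prop

@[fun_prop]
theorem poly_lvar {l : α → Bool × ℕ} (hl : Poly l) : Poly (fun a => lvar (l a)) := by
  unfold lvar
  fun_prop

@[fun_prop]
theorem poly_yvar {m k : α → ℕ} (hm : Poly m) (hk : Poly k) :
    Poly (fun a => yvar (m a) (k a)) := by
  unfold yvar
  fun_prop

@[fun_prop]
theorem poly_svar {m k : α → ℕ} (hm : Poly m) (hk : Poly k) :
    Poly (fun a => svar (m a) (k a)) := by
  unfold svar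
  fun_prop

@[fun_prop]
theorem poly_eqsOf {F : α → List (List (Bool × ℕ))} (hF : Poly F) :
    Poly (fun a => eqsOf (F a)) := by
  unfold eqsOf
  fun_prop

@[fun_prop]
theorem poly_tokOf {E : α → List (List ℕ)} (hE : Poly E) :
    Poly (fun a => tokOf (E a)) := by
  unfold tokOf
  fun_prop

@[fun_prop]
theorem poly_nvar {r : α → List (Option ℕ)} (hr : Poly r) :
    Poly (fun a => nvar (r a)) := by
  unfold nvar
  fun_prop

@[fun_prop]
theorem poly_wordsOf (wt wb : NW) {b m n : α → ℕ} {r : α → List (Option ℕ)} (hb : Poly b)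
    (hm : Poly m) (hn : Poly n) (hr : Poly r) :
    Poly (fun a => wordsOf wt wb (b a) (m a) (n a) (r a)) := by
  unfold wordsOf
  fun_prop

@[fun_prop]
theorem poly_targetOf (wt wb : NW) {b m : α → ℕ} {r : α → List (Option ℕ)} (hb : Poly b)
    (hm : Poly m) (hr : Poly r) :
    Poly (fun a => targetOf wt wb (b a) (m a) (r a)) := by
  unfold targetOf
  fun_prop

@[fun_prop]
theorem poly_instOf (wt wb : NW) (c : ℕ) {F : α → List (List (Bool × ℕ))} (hF : Poly F) :
    Poly (fun a => instOf wt wb c (F a)) := by
  unfold instOf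
  fun_prop

end poly

end Pool.Agent.H.MP_521f94_lc
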