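import Pool.Agent.H.MP_521f94_lc.Defs
import Pool.Agent.H.MP_521f94_lc.Words
import Pool.Agent.H.MP_521f94_lc.NPTools

/-!
NP-hardness of the subset sum problem.
-/

namespace Pool.Agent.H.MP_521f94_lc

open Pool.Agent.H.MP_5be563_lc.PT Turing

/-! ### strings of instances -/

/-- decoder of instances -/
def parI {β : Type} : List (Option β) → List (List β) × List β
  | [] => ([], [])
  | some b :: s => match parI s with
    | ([], w) => ([], b :: w)
    | (u :: ws, w) => ((b :: u) :: ws, w)
  | none :: s => ([] :: (parI s).1, (parI s).2)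

/-- instances as strings, for any type of letters -/
def encI {β : Type} (ws : List (List β)) (w : List β) : List (Option β) :=
  (ws.flatMap fun u => u.map some ++ [none]) ++ w.map some

theorem parI_encI {β : Type} (ws : List (List β)) (w : List β) : parI (encI ws w) = (ws, w) := by
  unfold encI
  induction ws with
  | nil =>
    rw [List.flatMap_nil, List.nil_append]
    induction w with
    | nil => rfl
    | cons b w ih => simp only [List.map_cons, parI, ih]
  | cons u ws ih =>
    rw [List.flatMap_cons, List.append_assoc, List.append_assoc]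
    induction u with
    | nil =>
      simp only [List.map_nil, List.nil_append, List.cons_append, parI, ih]
    | cons b u ih2 => rw [List.map_cons, List.cons_append, parI, ih2]

/-! ### the sums -/

theorem selprod_ofFn {G : Type*} [Group G] : ∀ (gs : List G) (ε : Fin gs.length → Bool),
    selprod gs (List.ofFn ε) = (List.ofFn fun i => if ε i = true then gs[i] else 1).prod := by
  intro gs
  induction gs with
  | nil => intro ε; simp [selprod]
  | cons g gs ih =>
    intro ε
    have h1 := ih (fun i => ε i.succ)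
    rw [List.ofFn_succ]
    simp only [selprod]
    rw [List.ofFn_succ, List.prod_cons]
    congr 1

theorem exists_eps_iff {G : Type*} [Group G] (gs : List G) (v : G) :
    (∃ ε : Fin gs.length → Fin 2, v = (List.ofFn fun i => gs[i] ^ (ε i : ℕ)).prod) ↔
      ∃ ε : List Bool, ε.length = gs.length ∧ selprod gs ε = v := by
  constructor
  · rintro ⟨ε, rfl⟩
    refine ⟨List.ofFn (fun i => decide (ε i = 1)), by simp, ?_⟩
    rw [selprod_ofFn]
    congr 2
    funext i
    have h2 : ε i = 0 ∨ ε i = 1 := by
      have := (ε i).isLt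
      rcases h : ε i with ⟨n, hn⟩
      interval_cases n
      · left; rfl
      · right; rfl
    rcases h2 with h | h <;> simp [h]
  · rintro ⟨ε, hε, rfl⟩
    refine ⟨fun i => if ε[i.val]'(by rw [hε]; exact i.isLt) = true then 1 else 0, ?_⟩
    have h1 : ε = List.ofFn (fun i : Fin gs.length => ε[i.val]'(by rw [hε]; exact i.isLt)) := by
      apply List.ext_getElem
      · simp [hε]
      · intro i h1 h2
        simp
    conv_lhs => rw [h1]
    rw [selprod_ofFn]
    congr 2
    funext i
    by_cases h : ε[i.val]'(by rw [hε]; exact i.isLt) = true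
    · simp [h]
    · simp [h]

/-! ### words over numbered letters -/

section letters

variable {r : ℕ}

/-- word with numbered letters -/
def toN (w : List (Fin r × Bool)) : NW := w.map fun l => (l.1.val, l.2)

/-- letter from a numbered letter -/
def toL (r : ℕ) (l : ℕ × Bool) : Option (Fin r × Bool) :=
  if h : l.1 < r then some (⟨l.1, h⟩, l.2) else none

/-- extension of the tuple of generators -/
def ext {G : Type*} [Group G] (x : Fin r → G) (i : ℕ) : G := if h : i < r then x ⟨i, h⟩ else 1

theorem wval_toN {G : Type*} [Group G] (x : Fin r → G) (w : List (Fin r × Bool)) :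
    wval (ext x) (toN w) = wordVal x w := by
  unfold wval toN wordVal
  rw [List.map_map]
  congr 1
  apply List.map_congr_left
  rintro ⟨i, b⟩ _
  simp [lval, ext]

theorem toN_map_toL (w : List (Fin r × Bool)) : (toN w).map (toL r) = w.map some := by
  unfold toN
  rw [List.map_map]
  apply List.map_congr_left
  rintro ⟨i, b⟩ _
  simp [toL]

theorem exists_toN (u : NW) (h : ∀ l ∈ u, l.1 < r) : ∃ w : List (Fin r × Bool), toN w = u := by
  induction u with
  | nil => exact ⟨[], rfl⟩
  | cons l u ih =>
    obtain ⟨w, hw⟩ := ih (fun l hl => h l (by simp [hl]))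
    exact ⟨(⟨l.1, h l (by simp)⟩, l.2) :: w, by simp [toN] at hw ⊢; exact hw⟩

theorem exists_toNs (us : List NW) (h : ∀ u ∈ us, ∀ l ∈ u, l.1 < r) :
    ∃ ws : List (List (Fin r × Bool)), ws.map toN = us := by
  induction us with
  | nil => exact ⟨[], rfl⟩
  | cons u us ih =>
    obtain ⟨ws, hws⟩ := ih (fun u hu => h u (by simp [hu]))
    obtain ⟨w, hw⟩ := exists_toN u (h u (by simp))
    exact ⟨w :: ws, by simp [hw, hws]⟩

/-- the string of an instance with numbered letters -/
def strOf (r : ℕ) (p : List NW × NW) : List (Option (Fin r × Bool)) :=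
  (p.1.flatMap fun u => u.map (toL r) ++ [none]) ++ p.2.map (toL r)

theorem strOf_toN (ws : List (List (Fin r × Bool))) (w : List (Fin r × Bool)) :
    strOf r (ws.map toN, toN w) = encodeInst ws w := by
  unfold strOf encodeInst
  simp only [List.flatMap_map, toN_map_toL]

theorem mem_SSP_iff {G : Type*} [Group G] (x : Fin r → G) (ws : List (List (Fin r × Bool)))
    (w : List (Fin r × Bool)) : encodeInst ws w ∈ SSP x ↔ ∃ ε : List Bool,
      ε.length = ws.length ∧ selprod ((ws.map toN).map (wval (ext x))) ε =
        wval (ext x) (toN w) := by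
  have e1 : (ws.map toN).map (wval (ext x)) = ws.map (wordVal x) := by
    rw [List.map_map]
    apply List.map_congr_left
    intro u _
    exact wval_toN x u
  rw [e1, wval_toN]
  have h1 := exists_eps_iff (ws.map (wordVal x)) (wordVal x w)
  have e2 : (∃ ε : List Bool, ε.length = ws.length ∧
      selprod (ws.map (wordVal x)) ε = wordVal x w) ↔ (∃ ε : List Bool,
      ε.length = (ws.map (wordVal x)).length ∧
      selprod (ws.map (wordVal x)) ε = wordVal x w) := by
    rw [List.length_map]
  rw [e2, ← h1]
  constructor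
  · rintro ⟨ws', w', he, ε, hε⟩
    have h2 := congrArg parI he
    have h3 : parI (encodeInst ws w) = (ws, w) := parI_encI ws w
    have h4 : parI (encodeInst ws' w') = (ws', w') := parI_encI ws' w'
    rw [h3, h4, Prod.mk.injEq] at h2
    obtain ⟨rfl, rfl⟩ := h2
    refine ⟨fun i => ε (Fin.cast (by simp) i), ?_⟩
    rw [hε]
    congr 1
    apply List.ext_getElem
    · simp
    · intro i h1 h2
      simp
  · rintro ⟨ε, hε⟩
    refine ⟨ws, w, rfl, fun i => ε (Fin.cast (by simp) i), ?_⟩
    rw [hε]
    congr 1
    apply List.ext_getElem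
    · simp
    · intro i h1 h2
      simp

theorem letters_wpow {w : NW} (h : ∀ l ∈ w, l.1 < r) (n : ℕ) : ∀ l ∈ wpow w n, l.1 < r := by
  intro l hl
  unfold wpow at hl
  obtain ⟨u, hu, hl⟩ := List.mem_flatten.1 hl
  rw [List.eq_of_mem_replicate hu] at hl
  exact h l hl

theorem letters_winv {w : NW} (h : ∀ l ∈ w, l.1 < r) : ∀ l ∈ winv w, l.1 < r := by
  intro l hl
  unfold winv at hl
  rw [List.mem_reverse] at hl
  obtain ⟨u, hu, rfl⟩ := List.mem_map.1 hl
  exact h u hu

theorem letters_wcj {wt wb : NW} (ht : ∀ l ∈ wt, l.1 < r) (hb : ∀ l ∈ wb, l.1 < r) (a q : ℕ) :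
    ∀ l ∈ wcj wt wb a q, l.1 < r := by
  intro l hl
  unfold wcj at hl
  rcases List.mem_append.1 hl with hl | hl
  · exact letters_wpow ht _ l hl
  · rcases List.mem_append.1 hl with hl | hl
    · exact hb l hl
    · exact letters_wpow (letters_winv ht) _ l hl

theorem letters_instOf {wt wb : NW} (ht : ∀ l ∈ wt, l.1 < r) (hb : ∀ l ∈ wb, l.1 < r) (c : ℕ)
    (F : List (List (Bool × ℕ))) :
    (∀ u ∈ (instOf wt wb c F).1, ∀ l ∈ u, l.1 < r) ∧ ∀ l ∈ (instOf wt wb c F).2, l.1 < r := by
  unfold instOf
  simp only
  constructor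
  · intro u hu l hl
    unfold wordsOf at hu
    rcases List.mem_append.1 hu with hu | hu
    · obtain ⟨i, _, rfl⟩ := List.mem_map.1 hu
      obtain ⟨p, _, hl⟩ := List.mem_flatMap.1 hl
      obtain ⟨q, _, hl⟩ := List.mem_flatMap.1 hl
      exact letters_wcj ht hb _ _ l hl
    · obtain ⟨p, _, rfl⟩ := List.mem_map.1 hu
      rcases List.mem_append.1 hl with hl | hl
      · exact letters_wcj ht hb _ _ l hl
      · split at hl
        · exact letters_wpow ht _ l hl
        · exact letters_wpow (letters_winv ht) _ l hl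
  · intro l hl
    unfold targetOf at hl
    obtain ⟨p, _, hl⟩ := List.mem_flatMap.1 hl
    obtain ⟨q, _, hl⟩ := List.mem_flatMap.1 hl
    exact letters_wcj ht hb _ _ l hl

theorem exists_word {G : Type*} [Group G] (x : Fin r → G)
    (hx : Subgroup.closure (Set.range x) = ⊤) (g : G) :
    ∃ w : List (Fin r × Bool), wordVal x w = g := by
  have hg : g ∈ Subgroup.closure (Set.range x) := by rw [hx]; trivial
  induction hg using Subgroup.closure_induction with
  | mem g hg =>
    obtain ⟨i, rfl⟩ := hg
    exact ⟨[(i, true)], by simp [wordVal]⟩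
  | one => exact ⟨[], by simp [wordVal]⟩
  | mul a b _ _ iha ihb =>
    obtain ⟨u, hu⟩ := iha
    obtain ⟨v, hv⟩ := ihb
    exact ⟨u ++ v, by rw [← hu, ← hv]; simp [wordVal]⟩
  | inv a _ iha =>
    obtain ⟨u, hu⟩ := iha
    refine ⟨(u.map (fun l => (l.1, !l.2))).reverse, ?_⟩
    rw [← hu]
    unfold wordVal
    rw [List.prod_inv_reverse, List.map_reverse, List.map_map, List.map_map]
    congr 2
    apply List.map_congr_left
    rintro ⟨i, b⟩ _
    cases b <;> simp

instance : Enc (Fin r) := ⟨fun i => enc i.val, fun _ _ h => Fin.ext (Enc.inj h)⟩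

theorem poly_toL {α : Type} [Enc α] {f : α → ℕ × Bool} (hf : Poly f) :
    Poly (fun a => toL r (f a)) := by
  have h : Poly (fun a => if (f a).1 < r then some (f a) else (none : Option (ℕ × Bool))) := by
    fun_prop
  refine h.congr_enc fun a => ?_
  unfold toL
  split <;> rfl

theorem poly_strOf {α : Type} [Enc α] {f : α → List NW × NW} (hf : Poly f) :
    Poly (fun a => strOf r (f a)) := by
  unfold strOf
  have h1 : Poly (fun a => (f a).1) := by fun_prop
  have h2 : Poly (fun a => (f a).2) := by fun_prop
  refine Poly.append (Poly.flatMap (f := fun _ u => u.map (toL r) ++ [none]) ?_ h1)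
    (Pool.Agent.H.MP_5be563_lc.PT.Poly.map (f := fun _ u => toL r u) (poly_toL (α := α × (ℕ × Bool)) Poly.snd) h2)
  refine Poly.append (Pool.Agent.H.MP_5be563_lc.PT.Poly.map (f := fun _ u => toL r u)
    (poly_toL (α := (α × NW) × (ℕ × Bool)) Poly.snd) Poly.snd) ?_
  fun_prop

end letters

/-- The reduction: satisfiability of formulas to the subset sum problem. -/
theorem exists_reduction {G : Type*} [Group G] (hG : Metab G) (hV : ¬ VNilp G) {r : ℕ}
    (x : Fin r → G) (hx : Subgroup.closure (Set.range x) = ⊤) :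
    ∃ g : List (List (Bool × ℕ)) → List (Option (Fin r × Bool)), Poly g ∧
      ∀ F, Sat F ↔ g F ∈ SSP x := by
  have hfg : Group.FG G := by
    rw [Group.fg_iff]
    exact ⟨Set.range x, hx, Set.finite_range x⟩
  obtain ⟨t, b, p, c, hp, _, hb, hclk⟩ := exists_clock hG hV
  obtain ⟨wt, hwt⟩ := exists_word x hx t
  obtain ⟨wb, hwb⟩ := exists_word x hx b
  have ht' : wval (ext x) (toN wt) = t := by rw [wval_toN, hwt]
  have hb' : wval (ext x) (toN wb) = b := by rw [wval_toN, hwb]
  have hlt : ∀ w : List (Fin r × Bool), ∀ l ∈ toN w, l.1 < r := by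
    intro w l hl
    obtain ⟨u, _, rfl⟩ := List.mem_map.1 hl
    exact u.1.isLt
  refine ⟨fun F => strOf r (instOf (toN wt) (toN wb) c F), poly_strOf (by fun_prop), ?_⟩
  intro F
  have h1 := instOf_iff hG (ext x) (toN wt) (toN wb) (by rw [hb']; exact hb) hp c
    (by rw [ht', hb']; exact hclk) F
  rw [← h1]
  obtain ⟨h2, h3⟩ := letters_instOf (hlt wt) (hlt wb) c F
  obtain ⟨ws, hws⟩ := exists_toNs _ h2
  obtain ⟨w, hw⟩ := exists_toN _ h3
  have h4 : instOf (toN wt) (toN wb) c F = (ws.map toN, toN w) := by
    rw [hws, hw]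
  simp only [h4]
  rw [strOf_toN, mem_SSP_iff, List.length_map]

end Pool.Agent.H.MP_521f94_lc
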