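import Pool.Agent.H.MP_521f94_lc.Hard

/-!
The subset sum problem of a metabelian group is in NP.
-/

namespace Pool.Agent.H.MP_521f94_lc

open Pool.Agent.H.MP_5be563_lc.PT Turing

/-- selected words -/
def selW (ws : List NW) (ε : List Bool) : NW :=
  (ws.zip ε).flatMap (fun p => if p.2 = true then p.1 else [])

theorem wval_selW {G : Type*} [Group G] (x : ℕ → G) : ∀ (ws : List NW) (ε : List Bool),
    wval x (selW ws ε) = selprod (ws.map (wval x)) ε := by
  intro ws
  induction ws with
  | nil => intro ε; rfl
  | cons u ws ih =>
    intro ε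
    cases ε with
    | nil => rfl
    | cons e ε =>
      have h1 : selW (u :: ws) (e :: ε) = (if e = true then u else []) ++ selW ws ε := rfl
      rw [h1, wval_append, ih]
      cases e <;> simp [selprod, wval_nil]

theorem mem_selW {ws : List NW} {ε : List Bool} {l : ℕ × Bool} (h : l ∈ selW ws ε) :
    ∃ u ∈ ws, l ∈ u := by
  unfold selW at h
  obtain ⟨p, hp, hl⟩ := List.mem_flatMap.1 h
  refine ⟨p.1, (List.of_mem_zip hp).1, ?_⟩
  split at hl
  · exact hl
  · simp at hl

/-- the first part of the string of an instance -/
def flat {β : Type} (ws : List (List β)) : List (Option β) :=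
  ws.flatMap fun u => u.map some ++ [none]

theorem flat_cons {β : Type} (u : List β) (ws : List (List β)) :
    flat (u :: ws) = (u.map some ++ [none]) ++ flat ws := rfl

theorem encI_eq {β : Type} (ws : List (List β)) (w : List β) :
    encI ws w = flat ws ++ w.map some := rfl

theorem selW_length_le : ∀ (ws : List NW) (ε : List Bool),
    (selW ws ε).length ≤ (flat ws).length := by
  intro ws
  induction ws with
  | nil => intro ε; simp [selW]
  | cons u ws ih =>
    intro ε
    cases ε with
    | nil => simp [selW]
    | cons e ε =>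
      have h1 : selW (u :: ws) (e :: ε) = (if e = true then u else []) ++ selW ws ε := rfl
      have h2 := ih ε
      rw [h1, flat_cons, List.length_append, List.length_append]
      have h3 : (if e = true then u else []).length ≤ u.length := by cases e <;> simp
      simp only [List.length_append, List.length_map]
      omega

@[fun_prop]
theorem poly_selW {α : Type} [Enc α] {ws : α → List NW} {ε : α → List Bool} (hws : Poly ws)
    (hε : Poly ε) : Poly (fun a => selW (ws a) (ε a)) := by
  unfold selW
  fun_prop

@[fun_prop]
theorem poly_encI {α : Type} [Enc α] {ws : α → List NW} {w : α → NW} (hws : Poly ws)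
    (hw : Poly w) : Poly (fun a => encI (ws a) (w a)) := by
  unfold encI
  fun_prop

/-- certificates -/
abbrev Cert := (List NW × NW) × (List Bool × List CStep)

/-- strings with numbered letters -/
def strN {r : ℕ} (s : List (Option (Fin r × Bool))) : List (Option (ℕ × Bool)) :=
  s.map (Option.map fun l => (l.1.val, l.2))

/-- the checker -/
def chk (r : ℕ) (gens : List (List Term)) (z : List (Option (Fin r × Bool)) × Cert) : Bool :=
  decide (strN z.1 = encI z.2.1.1 z.2.1.2) && (decide (z.2.2.1.length = z.2.1.1.length) &&
    check (3 * r) gens (wpoly (selW z.2.1.1 z.2.2.1 ++ winv z.2.1.2)) z.2.2.2)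

theorem enc_strN {r : ℕ} (s : List (Option (Fin r × Bool))) : enc (strN s) = enc s := by
  induction s with
  | nil => rfl
  | cons a s ih =>
    change D.cons (enc (Option.map _ a)) (enc (strN s)) = D.cons (enc a) (enc s)
    rw [ih]
    cases a <;> rfl

@[fun_prop]
theorem poly_strN {r : ℕ} {α : Type} [Enc α] {s : α → List (Option (Fin r × Bool))}
    (hs : Poly s) : Poly (fun a => strN (s a)) := hs.congr_enc fun a => enc_strN (s a)

theorem poly_chk (r : ℕ) (gens : List (List Term)) : Poly (chk r gens) := by
  have h : Poly (fun z : List (Option (Fin r × Bool)) × Cert =>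
      decide (strN z.1 = encI z.2.1.1 z.2.1.2) && (decide (z.2.2.1.length = z.2.1.1.length) &&
      check (3 * r) gens (wpoly (selW z.2.1.1 z.2.2.1 ++ winv z.2.1.2)) z.2.2.2)) := by
    fun_prop
  exact h

theorem strN_encodeInst {r : ℕ} (ws : List (List (Fin r × Bool))) (w : List (Fin r × Bool)) :
    strN (encodeInst ws w) = encI (ws.map toN) (toN w) := by
  unfold strN encodeInst encI toN
  simp only [List.map_append, List.map_flatMap, List.flatMap_map, List.map_map, List.map_cons,
    List.map_nil, Option.map_none]
  rfl

theorem strN_injective {r : ℕ} : Function.Injective (strN : List (Option (Fin r × Bool)) → _) := by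
  apply List.map_injective_iff.2
  apply Option.map_injective
  rintro ⟨i, a⟩ ⟨j, b⟩ h
  simp only [Prod.mk.injEq] at h
  rw [Prod.mk.injEq]
  exact ⟨Fin.ext h.1, h.2⟩

theorem letters_of_strN {r : ℕ} {s : List (Option (Fin r × Bool))} {ws : List NW} {w : NW}
    (h : strN s = encI ws w) : (∀ u ∈ ws, ∀ l ∈ u, l.1 < r) ∧ ∀ l ∈ w, l.1 < r := by
  have key : ∀ l, some l ∈ encI ws w → l.1 < r := by
    intro l hl
    rw [← h] at hl
    obtain ⟨a, _, ha⟩ := List.mem_map.1 hl
    cases a with
    | none => simp at ha
    | some a =>
      simp only [Option.map_some, Option.some.injEq] at ha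
      rw [← ha]
      exact a.1.isLt
  constructor
  · intro u hu l hl
    apply key
    unfold encI
    rw [List.mem_append]
    left
    exact List.mem_flatMap.2 ⟨u, hu, by simp [hl]⟩
  · intro l hl
    apply key
    unfold encI
    rw [List.mem_append]
    right
    simpa using hl

theorem mv_length : ∀ (w : NW) (q : List ℕ), (mv q w).length = w.length := by
  intro w
  induction w with
  | nil => intro q; rfl
  | cons l w ih => intro q; simp [mv, ih]

theorem mv_bound : ∀ (w : NW) (q : List ℕ), ∀ t ∈ mv q w, t.2.length ≤ q.length + w.length + 1 := by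
  intro w
  induction w with
  | nil => intro q t ht; simp [mv] at ht
  | cons l w ih =>
    intro q t ht
    rw [mv] at ht
    rcases List.mem_cons.1 ht with rfl | ht
    · simp only
      split <;> simp
    · have := ih _ t ht
      simp at this ⊢
      omega

theorem wpoly_length (w : NW) : (wpoly w).length = w.length + 2 := by
  simp [wpoly, mv_length]

theorem wpoly_bound (w : NW) : ∀ t ∈ wpoly w, t.2.length ≤ w.length + 1 := by
  intro t ht
  unfold wpoly at ht
  rcases List.mem_cons.1 ht with rfl | ht
  · simp [qv]
  · rcases List.mem_cons.1 ht with rfl | ht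
    · simp
    · have := mv_bound w [] t ht
      simpa using this

/-! ### sizes -/

theorem sz_map_some (w : NW) : sz w ≤ sz (w.map some) := by
  induction w with
  | nil => simp
  | cons l w ih =>
    simp only [List.map_cons, sz_lcons, sz_some]
    omega

theorem sz_flat (ws : List NW) : sz ws ≤ sz (flat ws) := by
  induction ws with
  | nil => exact le_rfl
  | cons u ws ih =>
    rw [flat_cons, sz_lcons]
    have h1 := sz_append (u.map some ++ [none]) (flat ws)
    have h2 := sz_append (u.map some) ([none] : List (Option (ℕ × Bool)))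
    have h3 := sz_map_some u
    have h4 : sz ([none] : List (Option (ℕ × Bool))) = 3 := by simp
    omega

theorem sz_encI (ws : List NW) (w : NW) : sz (ws, w) ≤ sz (encI ws w) + 2 := by
  rw [encI_eq]
  have h1 := sz_append (flat ws) (w.map some)
  have h2 := sz_flat ws
  have h3 := sz_map_some w
  rw [sz_pair]
  omega

theorem length_le_flat (ws : List NW) : ws.length ≤ (flat ws).length := by
  induction ws with
  | nil => exact le_rfl
  | cons u ws ih =>
    rw [flat_cons, List.length_append, List.length_cons]
    simp only [List.length_append, List.length_cons, List.length_nil]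
    omega

theorem sz_list_lt {l : List ℕ} {m A : ℕ} (h1 : l.length ≤ A) (h2 : ∀ i ∈ l, i < m) :
    sz l ≤ A * (2 * m + 2) + 1 := by
  have h3 : sz l ≤ l.length * (2 * m + 2) + 1 := sz_le_of_forall l (2 * m + 1) (fun i hi => by
    have := h2 i hi
    rw [sz_nat]; omega)
  have h4 := Nat.mul_le_mul_right (2 * m + 2) h1
  omega

theorem sz_terms {m A : ℕ} {L : List Term} (h : TBd m A A L) :
    sz L ≤ A * (A * (2 * m + 2) + 6) + 1 := by
  have h3 : sz L ≤ L.length * (A * (2 * m + 2) + 6) + 1 :=
    sz_le_of_forall L (A * (2 * m + 2) + 5) (fun t ht => by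
      have h1 := sz_list_lt (h.2 t ht).1 (h.2 t ht).2
      have h2 := sz_bool_le t.1
      rw [sz_prod]; omega)
  have h4 := Nat.mul_le_mul_right (A * (2 * m + 2) + 6) h.1
  omega

theorem sz_cstep' {m A r : ℕ} {c : CStep} (h : CBd m A A r c) :
    sz c ≤ A * (A * (2 * m + 2) + 6) + A * (2 * m + 2) + 2 * r + 20 := by
  have h1 := sz_terms h.1
  have h2 : sz c.1 ≤ A * (2 * m + 2) + 2 * r + 15 := by
    cases hc : c.1 with
    | none => simp
    | some o =>
      have h3 := h.2 o (by rw [hc]; rfl)
      have h4 := sz_list_lt h3.1 h3.2.1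
      have h5 := sz_bool_le o.1
      rw [sz_some, sz_prod, sz_prod, sz_nat]
      omega
  rw [sz_prod]
  omega

/-- The subset sum problem is in NP. -/
theorem inNP_SSP {G : Type*} [Group G] (hG : Metab G) {r : ℕ} (x : Fin r → G) :
    InNP (SSP x) := by
  obtain ⟨gens, P, hsound, hcomp⟩ := exists_cert (RingHom.ker (ev hG (ext x) (3 * r)))
  obtain ⟨K, hK⟩ : ∃ K : ℕ, ∀ g : Option (Fin r × Bool), sz g ≤ K := by
    obtain ⟨K, hK⟩ := (Set.finite_range (fun g : Option (Fin r × Bool) => sz g)).bddAbove
    exact ⟨K, fun g => hK ⟨g, rfl⟩⟩
  have hsz : ∀ s : List (Option (Fin r × Bool)), sz s ≤ s.length * (K + 1) + 1 := fun s =>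
    sz_le_of_forall s K (fun g _ => hK g)
  let A : Polynomial ℕ := P.comp (Polynomial.X + 2)
  let S : Polynomial ℕ := A * (A * Polynomial.C (2 * (3 * r) + 2) + 6) +
    A * Polynomial.C (2 * (3 * r) + 2) + Polynomial.C (2 * gens.length) + 20
  let p : Polynomial ℕ := (Polynomial.X * Polynomial.C (K + 1) + 1 + 2) +
    (4 * Polynomial.X + 1) + (A * (S + 1) + 1) + 2
  refine inNP_of_poly (C := Cert) (SSP x) (chk r gens) (poly_chk r gens) p ?_ ?_
  · rintro s ⟨⟨ws, w⟩, ε, cs⟩ h
    simp only [chk, Bool.and_eq_true, decide_eq_true_eq] at h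
    obtain ⟨h1, h2, h3⟩ := h
    obtain ⟨h4, h5⟩ := letters_of_strN h1
    obtain ⟨ws', rfl⟩ := exists_toNs ws h4
    obtain ⟨w', rfl⟩ := exists_toN w h5
    have h6 : s = encodeInst ws' w' := by
      apply strN_injective
      rw [h1, strN_encodeInst]
    rw [h6, mem_SSP_iff]
    refine ⟨ε, by rw [h2, List.length_map], ?_⟩
    have h7 := hsound _ _ h3
    rw [← wval_eq_one_iff hG (ext x) (3 * r) _ ?_] at h7
    · rw [wval_append, wval_winv, wval_selW, mul_inv_eq_one] at h7
      exact h7
    · intro l hl
      have : l.1 < r := by
        rcases List.mem_append.1 hl with hl | hl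
        · obtain ⟨u, hu, hl⟩ := mem_selW hl
          exact h4 u hu l hl
        · exact letters_winv h5 l hl
      omega
  · rintro s hs
    obtain ⟨ws', w', rfl, hε⟩ := hs
    have hs : encodeInst ws' w' ∈ SSP x := ⟨ws', w', rfl, hε⟩
    rw [mem_SSP_iff] at hs
    obtain ⟨ε, hl, hε⟩ := hs
    set s := encodeInst ws' w' with hsdef
    have e1 : strN s = encI (ws'.map toN) (toN w') := strN_encodeInst ws' w'
    have hlen : s.length = (encI (ws'.map toN) (toN w')).length := by
      rw [← e1]; simp [strN]
    have hlet := letters_of_strN e1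
    -- the word to be checked
    have hlen2 : (selW (ws'.map toN) ε ++ winv (toN w')).length ≤ s.length := by
      rw [hlen, encI_eq]
      have h1 := selW_length_le (ws'.map toN) ε
      have h2 : (winv (toN w')).length = (toN w').length := by simp [winv]
      simp only [List.length_append, List.length_map] at *
      omega
    have hmem : polyOf (3 * r) (wpoly (selW (ws'.map toN) ε ++ winv (toN w'))) ∈
        RingHom.ker (ev hG (ext x) (3 * r)) := by
      rw [← wval_eq_one_iff hG (ext x) (3 * r) _ ?_]
      · rw [wval_append, wval_winv, wval_selW, mul_inv_eq_one]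
        exact hε
      · intro l hl
        have : l.1 < r := by
          rcases List.mem_append.1 hl with hl | hl
          · obtain ⟨u, hu, hl⟩ := mem_selW hl
            exact hlet.1 u hu l hl
          · exact letters_winv hlet.2 l hl
        omega
    obtain ⟨cs, hcs1, hcs2, hcs3⟩ := hcomp (s.length + 2) _ hmem
      (by rw [wpoly_length]; omega)
      (fun t ht => (wpoly_bound _ t ht).trans (by omega))
    refine ⟨((ws'.map toN, toN w'), (ε, cs)), ?_, ?_⟩
    · have h1 : sz (ws'.map toN, toN w') ≤ s.length * (K + 1) + 1 + 2 := by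
        refine (sz_encI _ _).trans ?_
        have h2 : sz (encI (ws'.map toN) (toN w')) = sz s := by
          unfold sz; rw [← e1, enc_strN]
        have := hsz s
        omega
      have h2 : sz ε ≤ 4 * s.length + 1 := by
        have h3 := sz_lbool_le ε
        have h4 : ε.length ≤ s.length := by
          rw [hlen, hl]
          have h5 := length_le_flat (ws'.map toN)
          rw [encI_eq, List.length_append]
          rw [List.length_map] at h5
          omega
        omega
      have h3 : sz cs ≤ A.eval s.length * (S.eval s.length + 1) + 1 := by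
        have h4 := sz_le_of_forall cs (S.eval s.length) (fun c hc => by
          refine (sz_cstep' (hcs3 c hc)).trans (le_of_eq ?_)
          simp [S, A])
        refine h4.trans ?_
        have h5 : cs.length ≤ A.eval s.length := by
          simpa [A] using hcs1
        have := Nat.mul_le_mul_right (S.eval s.length + 1) h5
        omega
      rw [sz_pair, sz_pair (a := ε)]
      simp only [p, Polynomial.eval_add, Polynomial.eval_mul, Polynomial.eval_X,
        Polynomial.eval_C, Polynomial.eval_one, Polynomial.eval_ofNat]
      omega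
    · simp only [chk, Bool.and_eq_true, decide_eq_true_eq]
      exact ⟨e1, by rw [hl, List.length_map], hcs2⟩

end Pool.Agent.H.MP_521f94_lc
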