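import Mathlib

namespace Pool.Agent.H.MP_521f94_lc

open MvPolynomial

variable {σ : Type*}

/-- sum of the absolute values of the coefficients -/
noncomputable def N1 (f : MvPolynomial σ ℤ) : ℕ := ∑ α ∈ f.support, (coeff α f).natAbs

theorem N1_eq_of_subset (f : MvPolynomial σ ℤ) (s : Finset (σ →₀ ℕ)) (h : f.support ⊆ s) :
    N1 f = ∑ α ∈ s, (coeff α f).natAbs := by
  unfold N1
  apply Finset.sum_subset h
  intro α _ hα
  rw [notMem_support_iff] at hα
  simp [hα]

theorem N1_zero : N1 (0 : MvPolynomial σ ℤ) = 0 := by simp [N1]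

theorem coeff_le_N1 (f : MvPolynomial σ ℤ) (α : σ →₀ ℕ) : (coeff α f).natAbs ≤ N1 f := by
  by_cases h : α ∈ f.support
  · exact Finset.single_le_sum (f := fun α => (coeff α f).natAbs) (fun _ _ => Nat.zero_le _) h
  · rw [notMem_support_iff] at h
    simp [h]

theorem N1_add_le (f g : MvPolynomial σ ℤ) : N1 (f + g) ≤ N1 f + N1 g := by
  classical
  rw [N1_eq_of_subset (f + g) (f.support ∪ g.support) support_add,
    N1_eq_of_subset f (f.support ∪ g.support) Finset.subset_union_left,
    N1_eq_of_subset g (f.support ∪ g.support) Finset.subset_union_right,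
    ← Finset.sum_add_distrib]
  apply Finset.sum_le_sum
  intro α _
  rw [coeff_add]
  exact Int.natAbs_add_le _ _

theorem N1_neg (f : MvPolynomial σ ℤ) : N1 (-f) = N1 f := by
  unfold N1
  rw [show (-f).support = f.support from by ext; simp [mem_support_iff]]
  apply Finset.sum_congr rfl
  intro α _
  rw [coeff_neg, Int.natAbs_neg]

theorem N1_double (f : MvPolynomial σ ℤ) : N1 (f + f) = 2 * N1 f := by
  rw [N1_eq_of_subset (f + f) f.support (by
    intro α h
    rw [mem_support_iff] at h ⊢
    rw [coeff_add] at h
    intro h2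
    rw [h2] at h
    simp at h)]
  unfold N1
  rw [Finset.mul_sum]
  apply Finset.sum_congr rfl
  intro α _
  rw [coeff_add]
  omega

theorem N1_smul (c : ℤ) (f : MvPolynomial σ ℤ) : N1 (c • f) ≤ c.natAbs * N1 f := by
  rw [N1_eq_of_subset (c • f) f.support (support_smul)]
  unfold N1
  rw [Finset.mul_sum]
  apply Finset.sum_le_sum
  intro α _
  rw [coeff_smul, smul_eq_mul, Int.natAbs_mul]

theorem N1_monomial_mul (β : σ →₀ ℕ) (f : MvPolynomial σ ℤ) :
    N1 (monomial β 1 * f) ≤ N1 f := by
  classical
  rw [N1_eq_of_subset (monomial β 1 * f) (f.support.image (fun α => β + α)) (by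
    intro α h
    rw [mem_support_iff, coeff_monomial_mul'] at h
    split at h
    · rename_i hle
      rw [Finset.mem_image]
      refine ⟨α - β, ?_, ?_⟩
      · rw [mem_support_iff]
        intro h2
        rw [h2] at h
        simp at h
      · exact add_tsub_cancel_of_le hle
    · exact absurd rfl h)]
  rw [Finset.sum_image (by intro a _ b _ h; exact add_left_cancel h)]
  unfold N1
  apply Finset.sum_le_sum
  intro α _
  rw [coeff_monomial_mul', if_pos (by simp), one_mul, add_tsub_cancel_left]

theorem N1_sum_le {ι : Type*} (s : Finset ι) (f : ι → MvPolynomial σ ℤ) :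
    N1 (∑ i ∈ s, f i) ≤ ∑ i ∈ s, N1 (f i) := by
  classical
  induction s using Finset.induction_on with
  | empty => simp [N1_zero]
  | insert a s ha ih =>
    rw [Finset.sum_insert ha, Finset.sum_insert ha]
    exact (N1_add_le _ _).trans (by omega)

/-- bounded coefficients for ideals of the integers -/
theorem int_span_bound {ι : Type*} [Fintype ι] (b : ι → ℤ) :
    ∃ U : ℕ, ∀ c ∈ Ideal.span (Set.range b), ∃ a : ι → ℤ, c = ∑ i, a i * b i ∧
      ∀ i, (a i).natAbs ≤ U * c.natAbs := by
  obtain ⟨d, hd⟩ := (IsPrincipalIdealRing.principal (Ideal.span (Set.range b))).principal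
  have hd1 : d ∈ Ideal.span (Set.range b) := by
    rw [hd]; exact Submodule.mem_span_singleton_self d
  rw [Ideal.span, Submodule.mem_span_range_iff_exists_fun] at hd1
  obtain ⟨u, hu⟩ := hd1
  refine ⟨∑ i, (u i).natAbs, fun c hc => ?_⟩
  rw [hd] at hc
  obtain ⟨k, rfl⟩ := Submodule.mem_span_singleton.1 hc
  by_cases hd0 : d = 0
  · subst hd0
    exact ⟨0, by simp, by simp⟩
  · refine ⟨fun i => k * u i, ?_, fun i => ?_⟩
    · rw [← hu, Finset.smul_sum]
      apply Finset.sum_congr rfl
      intro i _
      simp [mul_assoc]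
    · rw [Int.natAbs_mul, smul_eq_mul, Int.natAbs_mul, mul_comm]
      have h1 : (u i).natAbs ≤ ∑ i, (u i).natAbs :=
        Finset.single_le_sum (f := fun i => (u i).natAbs) (fun _ _ => Nat.zero_le _)
          (Finset.mem_univ i)
      have h2 : 1 ≤ d.natAbs := by omega
      calc (u i).natAbs * k.natAbs ≤ (∑ i, (u i).natAbs) * (k.natAbs * 1) := by
            rw [mul_one]; exact Nat.mul_le_mul_right _ h1
        _ ≤ _ := Nat.mul_le_mul_left _ (Nat.mul_le_mul_left _ h2)

/-- the monomial order -/
noncomputable abbrev od (m : ℕ) : MonomialOrder (Fin m) := MonomialOrder.degLex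

theorem exists_gens {m : ℕ} (J : Ideal (MvPolynomial (Fin m) ℤ)) :
    ∃ gs : Finset (MvPolynomial (Fin m) ℤ), (∀ g ∈ gs, g ∈ J) ∧
      ∀ f ∈ J, ∃ h : gs → MvPolynomial (Fin m) ℤ,
        monomial ((od m).degree f) ((od m).leadingCoeff f) =
          ∑ g : gs, h g * monomial ((od m).degree g.1) ((od m).leadingCoeff g.1) := by
  classical
  let lt : MvPolynomial (Fin m) ℤ → MvPolynomial (Fin m) ℤ := fun f =>
    monomial ((od m).degree f) ((od m).leadingCoeff f)
  have hfg : (Submodule.span (MvPolynomial (Fin m) ℤ) (lt '' (J : Set _))).FG :=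
    IsNoetherian.noetherian _
  rw [Submodule.fg_span_iff_fg_span_finset_subset] at hfg
  obtain ⟨s, hs1, hs2⟩ := hfg
  -- choose preimages
  obtain ⟨gs, hgs1, hgs2⟩ : ∃ gs : Finset (MvPolynomial (Fin m) ℤ),
      (gs : Set (MvPolynomial (Fin m) ℤ)) ⊆ (J : Set (MvPolynomial (Fin m) ℤ)) ∧
      gs.image lt = s := by
    obtain ⟨gs, h1, h2⟩ := Finset.subset_set_image_iff.1 hs1
    exact ⟨gs, h1, h2⟩
  refine ⟨gs, fun g hg => hgs1 hg, fun f hf => ?_⟩
  have h1 : lt f ∈ Submodule.span (MvPolynomial (Fin m) ℤ) (lt '' (J : Set _)) :=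
    Submodule.subset_span ⟨f, hf, rfl⟩
  rw [hs2, ← hgs2, Finset.coe_image] at h1
  have h2 : lt '' (gs : Set (MvPolynomial (Fin m) ℤ)) = Set.range (fun g : gs => lt g.1) := by
    ext x
    simp
  rw [h2, Submodule.mem_span_range_iff_exists_fun] at h1
  obtain ⟨c, hc⟩ := h1
  exact ⟨c, hc.symm⟩

theorem exists_step {m : ℕ} (J : Ideal (MvPolynomial (Fin m) ℤ)) :
    ∃ (gs : Finset (MvPolynomial (Fin m) ℤ)) (U : ℕ), (∀ g ∈ gs, g ∈ J) ∧
      ∀ f ∈ J, f ≠ 0 → ∃ a : gs → ℤ,
        (∀ g, a g ≠ 0 → (od m).degree g.1 ≤ (od m).degree f) ∧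
        (∀ g, (a g).natAbs ≤ U * ((od m).leadingCoeff f).natAbs) ∧
        (od m).leadingCoeff f = ∑ g : gs, a g * (od m).leadingCoeff g.1 := by
  classical
  obtain ⟨gs, hgs, hgen⟩ := exists_gens J
  let b : Finset gs → gs → ℤ := fun T g => if g ∈ T then (od m).leadingCoeff g.1 else 0
  choose U hU using fun T => int_span_bound (b T)
  refine ⟨gs, ∑ T : Finset gs, U T, hgs, fun f hf hf0 => ?_⟩
  obtain ⟨h, hh⟩ := hgen f hf
  let T : Finset gs := Finset.univ.filter fun g => (od m).degree g.1 ≤ (od m).degree f
  have h1 : (od m).leadingCoeff f = ∑ g : gs, coeff ((od m).degree f - (od m).degree g.1) (h g) *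
      b T g := by
    have h2 := congrArg (coeff ((od m).degree f)) hh
    rw [coeff_monomial, if_pos rfl, coeff_sum] at h2
    rw [h2]
    apply Finset.sum_congr rfl
    intro g _
    rw [coeff_mul_monomial']
    simp only [b, T, Finset.mem_filter, Finset.mem_univ, true_and]
    split <;> simp
  obtain ⟨a, ha1, ha2⟩ := hU T ((od m).leadingCoeff f) (by
    rw [h1]
    exact Ideal.sum_mem _ fun g _ => Ideal.mul_mem_left _ _ (Ideal.subset_span ⟨g, rfl⟩))
  refine ⟨fun g => if g ∈ T then a g else 0, ?_, ?_, ?_⟩
  · intro g hg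
    by_contra hcon
    apply hg
    beta_reduce
    rw [if_neg]
    simp [T, hcon]
  · intro g
    beta_reduce
    have h3 : U T ≤ ∑ T : Finset gs, U T :=
      Finset.single_le_sum (f := U) (fun _ _ => Nat.zero_le _) (Finset.mem_univ T)
    split
    · exact (ha2 g).trans (Nat.mul_le_mul_right _ h3)
    · simp
  · rw [ha1]
    apply Finset.sum_congr rfl
    intro g _
    simp only [b]
    split <;> simp

/-- the box of exponents -/
noncomputable def box (m d : ℕ) : Finset (Fin m →₀ ℕ) :=
  Finset.Iic (Finsupp.equivFunOnFinite.symm fun _ => d)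

theorem mem_box {m d : ℕ} {α : Fin m →₀ ℕ} : α ∈ box m d ↔ ∀ i, α i ≤ d := by
  rw [box, Finset.mem_Iic, Finsupp.le_def]
  rfl

theorem card_box_le (m d : ℕ) : (box m d).card ≤ (d + 1) ^ m := by
  rw [box, Finsupp.card_Iic]
  have h1 : ∀ i ∈ (Finsupp.equivFunOnFinite.symm (fun _ : Fin m => d)).support,
      (Finset.Iic ((Finsupp.equivFunOnFinite.symm (fun _ : Fin m => d)) i)).card = d + 1 := by
    intro i _
    simp
  rw [Finset.prod_congr rfl h1, Finset.prod_const]
  apply Nat.pow_le_pow_right (by omega)
  refine (Finset.card_le_univ _).trans ?_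
  simp

theorem totalDegree_le_box {m d : ℕ} {f : MvPolynomial (Fin m) ℤ} (h : f.totalDegree ≤ d)
    {α : Fin m →₀ ℕ} (hα : α ∈ f.support) : α ∈ box m d := by
  rw [mem_box]
  intro i
  refine le_trans ?_ ((le_totalDegree hα).trans h)
  by_cases hi : i ∈ α.support
  · exact Finset.single_le_sum (f := fun i => α i) (fun _ _ => Nat.zero_le _) hi
  · rw [Finsupp.notMem_support_iff] at hi
    omega

theorem exists_rep {m : ℕ} (J : Ideal (MvPolynomial (Fin m) ℤ)) :
    ∃ (gs : Finset (MvPolynomial (Fin m) ℤ)) (C : ℕ), (∀ g ∈ gs, g ∈ J) ∧ 1 ≤ C ∧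
      ∀ (d : ℕ) (f : MvPolynomial (Fin m) ℤ), f ∈ J → f.totalDegree ≤ d →
        ∃ c : gs → (Fin m →₀ ℕ) → ℤ,
          (∀ g α, (c g α).natAbs ≤ N1 f * C ^ ((d + 1) ^ m)) ∧
          f = ∑ g : gs, ∑ α ∈ box m d, c g α • (monomial α 1 * g.1) := by
  classical
  obtain ⟨gs, U, hgs, hstep⟩ := exists_step J
  let C1 : ℕ := 1 + U * ∑ g : gs, N1 g.1
  let C : ℕ := C1 + U
  refine ⟨gs, C, hgs, by simp only [C, C1]; omega, ?_⟩
  intro d
  have key : ∀ (n : ℕ) (f : MvPolynomial (Fin m) ℤ), f ∈ J → f.totalDegree ≤ d →
      (f ≠ 0 → ((box m d).filter fun ν => (od m).toSyn ν ≤ (od m).toSyn ((od m).degree f)).card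
        ≤ n) →
      ∃ c : gs → (Fin m →₀ ℕ) → ℤ,
          (∀ g α, (c g α).natAbs ≤ N1 f * C ^ n) ∧
          f = ∑ g : gs, ∑ α ∈ box m d, c g α • (monomial α 1 * g.1) := by
    intro n
    induction n with
    | zero =>
      intro f hf hd hn
      have hf0 : f = 0 := by
        by_contra hne
        have := hn hne
        rw [Nat.le_zero, Finset.card_eq_zero, Finset.filter_eq_empty_iff] at this
        exact this (totalDegree_le_box hd ((od m).degree_mem_support hne)) le_rfl
      subst hf0
      exact ⟨fun _ _ => 0, by simp, by simp⟩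
    | succ n ih =>
      intro f hf hd hn
      by_cases hf0 : f = 0
      · subst hf0
        exact ⟨fun _ _ => 0, by simp, by simp⟩
      obtain ⟨a, ha1, ha2, ha3⟩ := hstep f hf hf0
      let μ := (od m).degree f
      let f' := f - ∑ g : gs, a g • (monomial (μ - (od m).degree g.1) 1 * g.1)
      have hf'J : f' ∈ J := by
        refine J.sub_mem hf (J.sum_mem fun g _ => ?_)
        rw [zsmul_eq_mul]
        exact J.mul_mem_left _ (J.mul_mem_left _ (hgs g.1 g.2))
      -- coefficients of f' at large monomials vanish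
      have hcoeff : ∀ ν, (od m).toSyn μ ≤ (od m).toSyn ν → coeff ν f' = 0 := by
        intro ν hν
        have hterm : ∀ g : gs, a g * coeff ν (monomial (μ - (od m).degree g.1) 1 * g.1) =
            if ν = μ then a g * (od m).leadingCoeff g.1 else 0 := by
          intro g
          by_cases hag : a g = 0
          · simp [hag]
          have hle := ha1 g hag
          rw [coeff_monomial_mul', one_mul]
          by_cases hνμ : ν = μ
          · subst hνμ
            rw [if_pos tsub_le_self, if_pos rfl]
            congr 1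
            rw [MonomialOrder.leadingCoeff]
            congr 1
            exact tsub_tsub_cancel_of_le hle
          · rw [if_neg hνμ]
            have hlt : (od m).toSyn μ < (od m).toSyn ν := by
              refine lt_of_le_of_ne hν ?_
              intro h
              exact hνμ ((od m).toSyn.injective h).symm
            split
            · rename_i hβ
              rw [(od m).coeff_eq_zero_of_lt, mul_zero]
              have h1 : (od m).toSyn (μ - (od m).degree g.1) + (od m).toSyn ((od m).degree g.1) <
                  (od m).toSyn (μ - (od m).degree g.1) +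
                    (od m).toSyn (ν - (μ - (od m).degree g.1)) := by
                rw [← map_add, ← map_add, tsub_add_cancel_of_le hle, add_tsub_cancel_of_le hβ]
                exact hlt
              exact lt_of_add_lt_add_left h1
            · rw [mul_zero]
        simp only [f', coeff_sub, coeff_sum, coeff_smul, smul_eq_mul]
        rw [Finset.sum_congr rfl fun g _ => hterm g]
        by_cases hνμ : ν = μ
        · subst hνμ
          simp only [if_true]
          rw [← ha3, MonomialOrder.leadingCoeff, sub_self]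
        · simp only [hνμ, if_false, Finset.sum_const_zero, sub_zero]
          apply (od m).coeff_eq_zero_of_lt
          refine lt_of_le_of_ne hν ?_
          intro h
          exact hνμ ((od m).toSyn.injective h).symm
      have hlc : ((od m).leadingCoeff f).natAbs ≤ N1 f := coeff_le_N1 f _
      have hN : N1 f' ≤ N1 f * C1 := by
        have h1 : N1 f' ≤ N1 f + ∑ g : gs, N1 (a g • (monomial (μ - (od m).degree g.1) 1 * g.1)) := by
          simp only [f']
          rw [sub_eq_add_neg]
          refine (N1_add_le _ _).trans ?_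
          rw [N1_neg]
          exact Nat.add_le_add_left (N1_sum_le _ _) _
        refine h1.trans ?_
        have h2 : ∀ g : gs, N1 (a g • (monomial (μ - (od m).degree g.1) 1 * g.1)) ≤
            N1 f * (U * N1 g.1) := by
          intro g
          refine (N1_smul _ _).trans ?_
          calc (a g).natAbs * N1 (monomial (μ - (od m).degree g.1) 1 * g.1)
              ≤ (U * ((od m).leadingCoeff f).natAbs) * N1 g.1 :=
                Nat.mul_le_mul (ha2 g) (N1_monomial_mul _ _)
            _ ≤ (U * N1 f) * N1 g.1 := Nat.mul_le_mul_right _ (Nat.mul_le_mul_left _ hlc)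
            _ = _ := by ring
        refine (Nat.add_le_add_left (Finset.sum_le_sum fun g _ => h2 g) _).trans ?_
        rw [← Finset.mul_sum, ← Finset.mul_sum]
        simp only [C1]
        exact le_of_eq (by ring)
      have hsupp : ∀ ν ∈ f'.support, (od m).toSyn ν < (od m).toSyn μ := by
        intro ν hν
        by_contra hcon
        push Not at hcon
        exact (mem_support_iff.1 hν) (hcoeff ν hcon)
      have hd' : f'.totalDegree ≤ d := by
        refine le_trans ?_ hd
        apply MvPolynomial.degLex_totalDegree_monotone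
        rw [(od m).degree_le_iff]
        intro ν hν
        exact (hsupp ν hν).le
      have hμbox : μ ∈ box m d := totalDegree_le_box hd ((od m).degree_mem_support hf0)
      have hn' : f' ≠ 0 → ((box m d).filter fun ν => (od m).toSyn ν ≤
          (od m).toSyn ((od m).degree f')).card ≤ n := by
        intro hf'0
        have h1 := hsupp _ ((od m).degree_mem_support hf'0)
        have h2 := hn hf0
        have h3 : ((box m d).filter fun ν => (od m).toSyn ν ≤
            (od m).toSyn ((od m).degree f')).card < ((box m d).filter fun ν => (od m).toSyn ν ≤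
            (od m).toSyn ((od m).degree f)).card := by
          apply Finset.card_lt_card
          rw [Finset.ssubset_iff_of_subset]
          · exact ⟨μ, by simp [hμbox, μ], by simp [hμbox, h1]⟩
          · intro ν hν
            rw [Finset.mem_filter] at hν ⊢
            exact ⟨hν.1, hν.2.trans h1.le⟩
        omega
      obtain ⟨c', hc1, hc2⟩ := ih f' hf'J hd' hn'
      refine ⟨fun g α => c' g α + if α = μ - (od m).degree g.1 then a g else 0, ?_, ?_⟩
      · intro g α
        have h1 : (if α = μ - (od m).degree g.1 then a g else 0).natAbs ≤ U * N1 f := by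
          split
          · exact (ha2 g).trans (Nat.mul_le_mul_left _ hlc)
          · simp
        refine (Int.natAbs_add_le _ _).trans ?_
        have h2 := (hc1 g α).trans (Nat.mul_le_mul_right (C ^ n) hN)
        have h3 : 1 ≤ C ^ n := Nat.one_le_pow _ _ (by simp only [C, C1]; omega)
        calc (c' g α).natAbs + (if α = μ - (od m).degree g.1 then a g else 0).natAbs
            ≤ N1 f * C1 * C ^ n + U * N1 f := Nat.add_le_add h2 h1
          _ = N1 f * (C1 * C ^ n + U * 1) := by ring
          _ ≤ N1 f * (C1 * C ^ n + U * C ^ n) :=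
              Nat.mul_le_mul_left _ (Nat.add_le_add_left (Nat.mul_le_mul_left _ h3) _)
          _ = N1 f * C ^ (n + 1) := by simp only [C]; ring
      · have h1 : f = f' + ∑ g : gs, a g • (monomial (μ - (od m).degree g.1) 1 * g.1) := by
          simp only [f']; ring
        have h2 : ∀ g : gs, ∑ α ∈ box m d, (c' g α + if α = μ - (od m).degree g.1 then a g else 0) •
            (monomial α 1 * g.1) = (∑ α ∈ box m d, c' g α • (monomial α 1 * g.1)) +
              a g • (monomial (μ - (od m).degree g.1) 1 * g.1) := by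
          intro g
          have h3 : μ - (od m).degree g.1 ∈ box m d := by
            rw [mem_box] at hμbox ⊢
            intro i
            exact (Nat.sub_le _ _).trans (hμbox i)
          simp only [add_smul, Finset.sum_add_distrib, ite_smul, zero_smul]
          rw [Finset.sum_ite_eq' (box m d) (μ - (od m).degree g.1), if_pos h3]
        conv_lhs => rw [h1, hc2]
        rw [Finset.sum_congr rfl fun g _ => h2 g, Finset.sum_add_distrib]
  intro f hf hd
  obtain ⟨c, hc1, hc2⟩ := key ((d + 1) ^ m) f hf hd (fun _ => by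
    exact (Finset.card_filter_le _ _).trans (card_box_le m d))
  exact ⟨c, hc1, hc2⟩

end Pool.Agent.H.MP_521f94_lc
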