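import Mathlib

namespace Pool.Agent.H.MP_521f94_lc

open scoped commutatorElement

/-- the commutator subgroup is abelian -/
def Metab (G : Type*) [Group G] : Prop :=
  ∀ a ∈ commutator G, ∀ b ∈ commutator G, a * b = b * a

/-- there is a nilpotent subgroup of finite index -/
def VNilp (G : Type*) [Group G] : Prop :=
  ∃ H : Subgroup G, H.FiniteIndex ∧ Group.IsNilpotent H

section algebra

variable {R M : Type*} [CommRing R] [IsNoetherianRing R] [AddCommGroup M] [Module R M]
  [Module.Finite R M]

theorem exists_pow_sub_one_mem (u : R)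
    (h : ∀ P : Ideal R, P.IsPrime → ∀ b : M, (∀ r : R, r ∈ P ↔ r • b = 0) →
      ∃ n : ℕ, 1 ≤ n ∧ u ^ n - 1 ∈ P) :
    ∃ n : ℕ, 1 ≤ n ∧ u ^ n - 1 ∈ (Module.annihilator R M).radical := by
  classical
  have hfin : (Module.annihilator R M).minimalPrimes.Finite :=
    Ideal.finite_minimalPrimes_of_isNoetherianRing R _
  have hP : ∀ P ∈ (Module.annihilator R M).minimalPrimes, ∃ n : ℕ, 1 ≤ n ∧ u ^ n - 1 ∈ P := by
    intro P hP
    have h1 := Module.associatedPrimes.minimalPrimes_annihilator_subset_associatedPrimes R M hP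
    have h2 : IsAssociatedPrime P M := h1
    rw [isAssociatedPrime_iff] at h2
    obtain ⟨h3, b, hb⟩ := h2
    refine h P h3 b fun r => ?_
    rw [hb, Submodule.mem_colon_singleton, Submodule.mem_bot]
  choose! n hn1 hn2 using hP
  refine ⟨∏ P ∈ hfin.toFinset, n P, ?_, ?_⟩
  · apply Nat.one_le_iff_ne_zero.2
    rw [Finset.prod_ne_zero_iff]
    intro P hP
    have := hn1 P (hfin.mem_toFinset.1 hP)
    omega
  · rw [← Ideal.sInf_minimalPrimes, Ideal.mem_sInf]
    intro P hP
    obtain ⟨k, hk⟩ := Finset.dvd_prod_of_mem n (hfin.mem_toFinset.2 hP)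
    rw [hk, pow_mul]
    exact P.mem_of_dvd (sub_one_dvd_pow_sub_one _ _) (hn2 P hP)

end algebra

section module

variable {G : Type*} [Group G]

/-- the commutator subgroup, written additively -/
def CM (G : Type*) [Group G] (_ : Metab G) : Type _ := Additive (commutator G)

variable (hG : Metab G)

noncomputable instance : AddCommGroup (CM G hG) :=
  { (inferInstance : AddGroup (Additive (commutator G))) with
    add_comm := fun a b => Subtype.ext (hG _ a.toMul.2 _ b.toMul.2) }

/-- from the group to the module -/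
def toCM (a : G) (h : a ∈ commutator G) : CM G hG := Additive.ofMul ⟨a, h⟩

/-- from the module to the group -/
def ofCM (m : CM G hG) : G := (Additive.toMul m : commutator G).1

theorem ofCM_mem (m : CM G hG) : ofCM hG m ∈ commutator G := (Additive.toMul m : commutator G).2

@[simp] theorem ofCM_toCM (a : G) (h : a ∈ commutator G) : ofCM hG (toCM hG a h) = a := rfl

theorem ofCM_inj {m m' : CM G hG} (h : ofCM hG m = ofCM hG m') : m = m' := by
  apply Additive.toMul.injective
  exact Subtype.ext h

@[simp] theorem ofCM_zero : ofCM hG (0 : CM G hG) = 1 := rfl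
@[simp] theorem ofCM_add (m m' : CM G hG) : ofCM hG (m + m') = ofCM hG m * ofCM hG m' := rfl
@[simp] theorem ofCM_neg (m : CM G hG) : ofCM hG (-m) = (ofCM hG m)⁻¹ := rfl

theorem conj_mem (g : G) {a : G} (h : a ∈ commutator G) : g * a * g⁻¹ ∈ commutator G :=
  (inferInstance : (commutator G).Normal).conj_mem a h g

/-- conjugation -/
noncomputable def conjEnd (g : G) : Module.End ℤ (CM G hG) :=
  AddMonoidHom.toIntLinearMap
    { toFun := fun m => toCM hG (g * ofCM hG m * g⁻¹) (conj_mem g (ofCM_mem hG m))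
      map_zero' := by apply ofCM_inj; simp
      map_add' := by intro a b; apply ofCM_inj; simp }

theorem ofCM_conjEnd (g : G) (m : CM G hG) :
    ofCM hG (conjEnd hG g m) = g * ofCM hG m * g⁻¹ := rfl

/-- conjugation action -/
noncomputable def conjRep : G →* Module.End ℤ (CM G hG) where
  toFun := conjEnd hG
  map_one' := by
    ext m
    apply ofCM_inj
    rw [ofCM_conjEnd]; simp
  map_mul' := by
    intro g h
    ext m
    apply ofCM_inj
    rw [ofCM_conjEnd, Module.End.mul_apply, ofCM_conjEnd, ofCM_conjEnd]; group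

/-- conjugation action of the abelianization -/
noncomputable def abRep : Abelianization G →* Module.End ℤ (CM G hG) :=
  QuotientGroup.lift (commutator G) (conjRep hG) (by
    intro g hg
    ext m
    apply ofCM_inj
    change ofCM hG (conjEnd hG g m) = ofCM hG m
    rw [ofCM_conjEnd, hG g hg _ (ofCM_mem hG m)]; group)

noncomputable instance : Module (MonoidAlgebra ℤ (Abelianization G)) (CM G hG) :=
  Module.compHom (CM G hG)
    (MonoidAlgebra.lift ℤ (Module.End ℤ (CM G hG)) (Abelianization G) (abRep hG)).toRingHom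

/-- the element of the group ring -/
noncomputable def gr (g : G) : MonoidAlgebra ℤ (Abelianization G) :=
  MonoidAlgebra.of ℤ (Abelianization G) (Abelianization.of g)

theorem gr_mul (g h : G) : gr (g * h) = gr g * gr h := by simp [gr]
theorem gr_one : gr (1 : G) = 1 := by rw [gr, map_one, map_one]
theorem gr_pow (g : G) (n : ℕ) : gr (g ^ n) = gr g ^ n := by simp [gr]

theorem ofCM_gr_smul (g : G) (m : CM G hG) :
    ofCM hG (gr g • m) = g * ofCM hG m * g⁻¹ := by
  have : gr g • m = conjEnd hG g m := by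
    change (MonoidAlgebra.lift ℤ (Module.End ℤ (CM G hG)) (Abelianization G) (abRep hG)) (gr g) m
      = _
    rw [gr, MonoidAlgebra.lift_of]
    rfl
  rw [this, ofCM_conjEnd]

theorem gr_inv_mul (g : G) : gr g⁻¹ * gr g = 1 := by
  rw [← gr_mul, inv_mul_cancel, gr_one]

theorem isUnit_gr (g : G) : IsUnit (gr g) :=
  ⟨⟨gr g, gr g⁻¹, by rw [← gr_mul, mul_inv_cancel, gr_one], gr_inv_mul g⟩, rfl⟩

/-- a submodule is a normal subgroup -/
def subOf (N : Submodule (MonoidAlgebra ℤ (Abelianization G)) (CM G hG)) : Subgroup G where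
  carrier := {g | ∃ m ∈ N, ofCM hG m = g}
  mul_mem' := by
    rintro _ _ ⟨m, hm, rfl⟩ ⟨m', hm', rfl⟩
    exact ⟨m + m', N.add_mem hm hm', rfl⟩
  one_mem' := ⟨0, N.zero_mem, rfl⟩
  inv_mem' := by
    rintro _ ⟨m, hm, rfl⟩
    exact ⟨-m, N.neg_mem hm, rfl⟩

theorem subOf_normal (N : Submodule (MonoidAlgebra ℤ (Abelianization G)) (CM G hG)) :
    (subOf hG N).Normal := by
  refine ⟨?_⟩
  rintro _ ⟨m, hm, rfl⟩ g
  exact ⟨gr g • m, N.smul_mem _ hm, ofCM_gr_smul hG g m⟩

theorem comm_mem (x y : G) : ⁅x, y⁆ ∈ commutator G :=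
  Subgroup.commutator_mem_commutator (Subgroup.mem_top x) (Subgroup.mem_top y)

theorem finite_CM [Group.FG G] :
    Module.Finite (MonoidAlgebra ℤ (Abelianization G)) (CM G hG) := by
  classical
  obtain ⟨S, hS⟩ := Group.fg_def.1 (inferInstance : Group.FG G)
  let T : Set (CM G hG) := Set.range (fun p : S × S => toCM hG ⁅p.1.1, p.2.1⁆ (comm_mem _ _))
  have hT : T.Finite := Set.finite_range _
  let N := Submodule.span (MonoidAlgebra ℤ (Abelianization G)) T
  have hN : (subOf hG N).Normal := subOf_normal hG N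
  let π := QuotientGroup.mk' (subOf hG N)
  have hgen : ∀ x ∈ S, ∀ y ∈ S, π x * π y = π y * π x := by
    intro x hx y hy
    have h1 : ⁅x, y⁆ ∈ subOf hG N :=
      ⟨toCM hG ⁅x, y⁆ (comm_mem _ _), Submodule.subset_span ⟨(⟨x, hx⟩, ⟨y, hy⟩), rfl⟩, rfl⟩
    have h2 : π ⁅x, y⁆ = 1 := (QuotientGroup.eq_one_iff _).2 h1
    rw [commutatorElement_def, map_mul, map_mul, map_mul, map_inv, map_inv] at h2
    have h3 := congrArg (fun z => z * π y * π x) h2
    simpa [mul_assoc] using h3
  -- each generator commutes with everything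
  have h1 : ∀ x ∈ S, ∀ g : G, π x * π g = π g * π x := by
    intro x hx g
    have hg : g ∈ Subgroup.closure (S : Set G) := by rw [hS]; trivial
    induction hg using Subgroup.closure_induction with
    | mem y hy => exact hgen x hx y hy
    | one => simp
    | mul a b _ _ iha ihb =>
      rw [map_mul, ← mul_assoc, iha, mul_assoc, ihb, mul_assoc]
    | inv a _ iha =>
      rw [map_inv, mul_inv_eq_iff_eq_mul, mul_assoc, iha, inv_mul_cancel_left]
  have h2 : ∀ h g : G, π h * π g = π g * π h := by
    intro h g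
    have hh : h ∈ Subgroup.closure (S : Set G) := by rw [hS]; trivial
    induction hh using Subgroup.closure_induction with
    | mem y hy => exact h1 y hy g
    | one => simp
    | mul a b _ _ iha ihb =>
      rw [map_mul, mul_assoc, ihb, ← mul_assoc, iha, mul_assoc]
    | inv a _ iha =>
      rw [map_inv, inv_mul_eq_iff_eq_mul, ← mul_assoc, iha, mul_inv_cancel_right]
  have h3 : commutator G ≤ subOf hG N := by
    rw [commutator_def, Subgroup.commutator_le]
    intro a _ b _
    have h5 : π ⁅a, b⁆ = 1 := by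
      rw [commutatorElement_def, map_mul, map_mul, map_mul, map_inv, map_inv, h2 a b]
      group
    exact (QuotientGroup.eq_one_iff _).1 h5
  have h4 : N = ⊤ := by
    rw [eq_top_iff]
    intro m _
    obtain ⟨m', hm', h⟩ := h3 (ofCM_mem hG m)
    rwa [← ofCM_inj hG h]
  exact ⟨⟨hT.toFinset, by rw [Set.Finite.coe_toFinset]; exact h4⟩⟩

/-- the criterion for virtual nilpotency -/
theorem vnilp_of [Group.FG G]
    (h : ∀ t : G, ∀ P : Ideal (MonoidAlgebra ℤ (Abelianization G)), P.IsPrime →
      ∀ b : CM G hG, (∀ r, r ∈ P ↔ r • b = 0) → ∃ n : ℕ, 1 ≤ n ∧ gr t ^ n - 1 ∈ P) :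
    VNilp G := by
  classical
  have hfin := finite_CM hG
  have hFG : Group.FG (Abelianization G) :=
    Group.fg_of_surjective (f := (Abelianization.of : G →* Abelianization G))
      (QuotientGroup.mk'_surjective _)
  have hft : Algebra.FiniteType ℤ (MonoidAlgebra ℤ (Abelianization G)) := by
    have : Monoid.FG (Abelianization G) := Group.fg_iff_monoid_fg.1 hFG
    infer_instance
  have hnoeth : IsNoetherianRing (MonoidAlgebra ℤ (Abelianization G)) :=
    Algebra.FiniteType.isNoetherianRing ℤ _
  let R := MonoidAlgebra ℤ (Abelianization G)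
  let rad := (Module.annihilator R (CM G hG)).radical
  obtain ⟨S, hS⟩ := Group.fg_def.1 (inferInstance : Group.FG G)
  have h1 : ∀ t : G, ∃ n : ℕ, 1 ≤ n ∧ gr t ^ n - 1 ∈ rad := fun t =>
    exists_pow_sub_one_mem (gr t) (h t)
  choose n hn1 hn2 using h1
  let n0 := ∏ s ∈ S, n s
  have hn0 : n0 ≠ 0 := by
    rw [Finset.prod_ne_zero_iff]
    intro s _
    have := hn1 s
    omega
  have hn3 : ∀ s ∈ S, gr s ^ n0 - 1 ∈ rad := by
    intro s hs
    obtain ⟨k, hk⟩ := Finset.dvd_prod_of_mem n hs
    change gr s ^ (∏ s ∈ S, n s) - 1 ∈ rad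
    rw [hk, pow_mul]
    exact rad.mem_of_dvd (sub_one_dvd_pow_sub_one _ _) (hn2 s)
  let J : Ideal R := Ideal.span ((fun s => gr s ^ n0 - 1) '' (S : Set G))
  have hJ : J ≤ rad := by
    rw [Ideal.span_le]
    rintro _ ⟨s, hs, rfl⟩
    exact hn3 s hs
  obtain ⟨L, hL⟩ := Ideal.exists_pow_le_of_le_radical_of_fg hJ (IsNoetherian.noetherian J)
  -- all n0-th powers act as the identity modulo J
  have hpow : ∀ g : G, gr g ^ n0 - 1 ∈ J := by
    intro g
    have hg : g ∈ Subgroup.closure (S : Set G) := by rw [hS]; trivial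
    rw [← Ideal.Quotient.eq, map_one, map_pow]
    induction hg using Subgroup.closure_induction with
    | mem y hy =>
      rw [← map_pow, ← map_one (Ideal.Quotient.mk J), Ideal.Quotient.eq]
      exact Ideal.subset_span ⟨y, hy, rfl⟩
    | one => rw [gr_one, map_one, one_pow]
    | mul a b _ _ iha ihb => rw [gr_mul, map_mul, mul_pow, iha, ihb, one_mul]
    | inv a _ iha =>
      have h3 := congrArg (fun z => (Ideal.Quotient.mk J z) ^ n0) (gr_inv_mul a)
      simp only [map_mul, mul_pow, map_one, one_pow] at h3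
      rwa [iha, mul_one] at h3
  let Pn : Subgroup (Abelianization G) := (powMonoidHom n0 : Abelianization G →* _).range
  let H : Subgroup G := Pn.comap Abelianization.of
  have hH : ∀ g ∈ H, gr g - 1 ∈ J := by
    rintro g ⟨q, hq⟩
    obtain ⟨g', rfl⟩ := QuotientGroup.mk'_surjective _ q
    have h3 : gr g = gr g' ^ n0 := by
      rw [gr, gr, ← map_pow]
      congr 1
      exact hq.symm
    rw [h3]
    exact hpow g'
  have hPn : Pn.FiniteIndex := by
    have h4 : Finite (Abelianization G ⧸ Pn) := by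
      apply CommGroup.finite_of_fg_isMulTorsion
      intro q
      obtain ⟨q, rfl⟩ := QuotientGroup.mk'_surjective _ q
      rw [isOfFinOrder_iff_pow_eq_one]
      refine ⟨n0, Nat.pos_of_ne_zero hn0, ?_⟩
      rw [← map_pow]
      exact (QuotientGroup.eq_one_iff _).2 ⟨q, rfl⟩
    exact Subgroup.finiteIndex_of_finite_quotient
  have hHf : H.FiniteIndex := by
    refine ⟨?_⟩
    have h8 : (Pn.comap (Abelianization.of : G →* Abelianization G)).index = Pn.index :=
      Subgroup.index_comap_of_surjective _ (QuotientGroup.mk'_surjective _)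
    change (Pn.comap (Abelianization.of : G →* Abelianization G)).index ≠ 0
    rw [h8]
    exact hPn.index_ne_zero
  refine ⟨H, hHf, ?_⟩
  rw [Subgroup.nilpotent_iff_finite_descending_central_series]
  let K : ℕ → Subgroup H := fun k => match k with
    | 0 => ⊤
    | k + 1 => (subOf hG (J ^ k • (⊤ : Submodule R (CM G hG)))).comap H.subtype
  refine ⟨L + 1, K, ⟨rfl, ?_⟩, ?_⟩
  · intro x k hx g
    cases k with
    | zero =>
      change (H.subtype ⁅x, g⁆) ∈ subOf hG (J ^ 0 • (⊤ : Submodule R (CM G hG)))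
      rw [pow_zero, Ideal.one_eq_top, Submodule.top_smul, map_commutatorElement]
      exact ⟨toCM hG ⁅(x : G), (g : G)⁆ (comm_mem _ _), trivial, rfl⟩
    | succ k =>
      obtain ⟨m, hm, hmx⟩ : H.subtype x ∈ subOf hG (J ^ k • (⊤ : Submodule R (CM G hG))) := hx
      change (H.subtype ⁅x, g⁆) ∈ subOf hG (J ^ (k + 1) • (⊤ : Submodule R (CM G hG)))
      rw [map_commutatorElement, ← hmx, pow_succ', Submodule.mul_smul]
      refine ⟨-((gr (g : G) - 1) • m), Submodule.neg_mem _
        (Submodule.smul_mem_smul (hH g g.2) hm), ?_⟩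
      have h5 : -((gr (g : G) - 1) • m) = m + -(gr (g : G) • m) := by
        rw [sub_smul, one_smul]; abel
      rw [h5, ofCM_add, ofCM_neg, ofCM_gr_smul, commutatorElement_def]
      simp [mul_assoc]
  · rw [eq_bot_iff]
    rintro x hx
    obtain ⟨m, hm, hmx⟩ : H.subtype x ∈ subOf hG (J ^ L • (⊤ : Submodule R (CM G hG))) := hx
    have h6 : m = 0 := by
      have h7 : J ^ L • (⊤ : Submodule R (CM G hG)) ≤ ⊥ := by
        refine (Submodule.smul_mono_left hL).trans ?_
        rw [Submodule.smul_le]
        intro r hr m _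
        rw [Module.mem_annihilator] at hr
        rw [hr m]
        exact Submodule.zero_mem _
      exact (Submodule.mem_bot _).1 (h7 hm)
    rw [h6, ofCM_zero] at hmx
    rw [Subgroup.mem_bot]
    exact Subtype.ext hmx.symm

end module

end Pool.Agent.H.MP_521f94_lc
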