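import Pool.Agent.H.MP_521f94_lc.Game

/-!
From formulas to token lists.
-/

namespace Pool.Agent.H.MP_521f94_lc

/-- satisfiability of a formula in conjunctive form -/
def Sat (F : List (List (Bool × ℕ))) : Prop := ∃ τ : ℕ → Bool, ∀ c ∈ F, ∃ l ∈ c, τ l.2 = l.1

/-- number of the variable for a literal -/
def lvar (l : Bool × ℕ) : ℕ := Nat.pair 0 (2 * l.2 + (if l.1 = true then 1 else 0)) + 1
/-- number of the choice variable of an occurrence -/
def yvar (i j : ℕ) : ℕ := Nat.pair 1 (Nat.pair i j) + 1
/-- number of the slack variable of an occurrence -/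
def svar (i j : ℕ) : ℕ := Nat.pair 2 (Nat.pair i j) + 1

/-- the equations (exactly one is true) of a formula -/
def eqsOf (F : List (List (Bool × ℕ))) : List (List ℕ) :=
  (F.flatten.map (fun l => [lvar l, lvar (!l.1, l.2)])) ++
  (((List.range F.length).zip F).flatMap (fun c =>
    ((List.range c.2.length).map (fun j => yvar c.1 j)) ::
    ((List.range c.2.length).zip c.2).map (fun l =>
      [yvar c.1 l.1, svar c.1 l.1, lvar (!l.2.1, l.2.2)])))

/-- the tokens of a list of equations -/
def tokOf (E : List (List ℕ)) : List (Option ℕ) :=
  E.flatMap (fun e => e.map some ++ [none]) ++ [some 0]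

theorem sem_true_append (x : ℕ → Bool) (r : List (Option ℕ)) : ∀ (e : List ℕ),
    sem x true (e.map some ++ none :: r) ↔ (e.countP x = 0 ∧ sem x false r) := by
  intro e
  induction e with
  | nil => simp [sem]
  | cons v e ih =>
    simp only [List.map_cons, List.cons_append, sem, List.countP_cons]
    cases hx : x v with
    | true => simp
    | false => simp [ih]

theorem sem_false_append (x : ℕ → Bool) (r : List (Option ℕ)) : ∀ (e : List ℕ),
    sem x false (e.map some ++ none :: r) ↔ (e.countP x = 1 ∧ sem x false r) := by
  intro e
  induction e with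
  | nil => simp [sem]
  | cons v e ih =>
    simp only [List.map_cons, List.cons_append, sem, List.countP_cons]
    cases hx : x v with
    | true => simp [sem_true_append]
    | false => simp [ih]

theorem sem_tokOf (x : ℕ → Bool) : ∀ (E : List (List ℕ)),
    sem x false (tokOf E ++ [none]) ↔ ((∀ e ∈ E, e.countP x = 1) ∧ x 0 = true) := by
  intro E
  induction E with
  | nil =>
    simp only [tokOf, List.flatMap_nil, List.nil_append, List.cons_append, sem]
    cases hx : x 0 <;> simp
  | cons e E ih =>
    have h1 : tokOf (e :: E) ++ [none] = e.map some ++ none :: (tokOf E ++ [none]) := by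
      simp [tokOf]
    rw [h1, sem_false_append, ih]
    simp [and_assoc]

theorem mem_zip_range {α : Type*} (l : List α) (c : ℕ × α) :
    c ∈ (List.range l.length).zip l ↔ l[c.1]? = some c.2 := by
  constructor
  · intro h
    obtain ⟨i, hi, he⟩ := List.mem_iff_getElem.1 h
    rw [List.getElem_zip] at he
    simp at he
    subst he
    simp only
    rw [List.getElem?_eq_getElem]
  · intro h
    obtain ⟨hi, he⟩ := List.getElem?_eq_some_iff.1 h
    rw [List.mem_iff_getElem]
    refine ⟨c.1, by simpa using hi, ?_⟩
    rw [List.getElem_zip]
    simp [he]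

/-- The equations have a solution exactly when the formula is satisfiable. -/
theorem eqs_iff (F : List (List (Bool × ℕ))) :
    (∃ x : ℕ → Bool, (∀ e ∈ eqsOf F, e.countP x = 1) ∧ x 0 = true) ↔ Sat F := by
  constructor
  · rintro ⟨x, hx, _⟩
    refine ⟨fun v => x (lvar (true, v)), fun c hc => ?_⟩
    obtain ⟨i, hi, rfl⟩ := List.mem_iff_getElem.1 hc
    have hci : (i, F[i]) ∈ (List.range F.length).zip F := by
      rw [mem_zip_range]; simp [hi]
    -- some occurrence is chosen
    have h1 := hx ((List.range F[i].length).map (fun j => yvar i j)) (by
      unfold eqsOf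
      rw [List.mem_append]
      right
      rw [List.mem_flatMap]
      exact ⟨(i, F[i]), hci, by simp⟩)
    obtain ⟨y, hy, hxy⟩ : ∃ y ∈ (List.range F[i].length).map (fun j => yvar i j), x y = true := by
      rw [← List.countP_pos_iff, h1]; norm_num
    obtain ⟨j, hj, rfl⟩ := List.mem_map.1 hy
    rw [List.mem_range] at hj
    refine ⟨F[i][j], List.getElem_mem hj, ?_⟩
    set l := F[i][j] with hl
    have h2 := hx [yvar i j, svar i j, lvar (!l.1, l.2)] (by
      unfold eqsOf
      rw [List.mem_append]
      right
      rw [List.mem_flatMap]
      refine ⟨(i, F[i]), hci, List.mem_cons_of_mem _ ?_⟩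
      rw [List.mem_map]
      refine ⟨(j, l), ?_, rfl⟩
      simp only
      rw [mem_zip_range]; simp [hj, hl])
    have h3 := hx [lvar l, lvar (!l.1, l.2)] (by
      unfold eqsOf
      rw [List.mem_append]
      left
      rw [List.mem_map]
      exact ⟨l, List.mem_flatten.2 ⟨F[i], hc, List.getElem_mem hj⟩, rfl⟩)
    simp only [List.countP_cons, List.countP_nil, hxy, if_true] at h2 h3
    have h4 : x (lvar (!l.1, l.2)) = false := by
      cases h : x (lvar (!l.1, l.2))
      · rfl
      · rw [h] at h2; simp at h2
    rw [h4] at h3
    have h5 : x (lvar l) = true := by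
      cases h : x (lvar l)
      · rw [h] at h3; simp at h3
      · rfl
    rcases hll : l with ⟨b, v⟩
    rw [hll] at h4 h5
    cases b
    · simpa using h4
    · exact h5
  · rintro ⟨τ, hτ⟩
    -- truth value of the occurrence
    let tv : ℕ → ℕ → Bool := fun i j => match F[i]? with
      | none => false
      | some cl => match cl[j]? with
        | none => false
        | some l => τ l.2 == l.1
    let first : ℕ → ℕ := fun i => ((List.range (F[i]?.getD []).length).find? (tv i)).getD 0
    let x : ℕ → Bool := fun n => match n with
      | 0 => true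
      | n + 1 =>
        if n.unpair.1 = 0 then (τ (n.unpair.2 / 2) == decide (n.unpair.2 % 2 = 1))
        else if n.unpair.1 = 1 then decide (n.unpair.2.unpair.2 = first n.unpair.2.unpair.1)
        else (!(decide (n.unpair.2.unpair.2 = first n.unpair.2.unpair.1))) &&
          tv n.unpair.2.unpair.1 n.unpair.2.unpair.2
    have hxl : ∀ l : Bool × ℕ, x (lvar l) = (τ l.2 == l.1) := by
      rintro ⟨b, v⟩
      simp only [x, lvar, Nat.unpair_pair, if_true]
      cases b
      · have h1 : (2 * v + (if (false = true) then 1 else 0)) / 2 = v := by simp
        have h2 : (2 * v + (if (false = true) then 1 else 0)) % 2 = 0 := by simp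
        simp only [h1, h2]
        simp
      · have h1 : (2 * v + 1) / 2 = v := by omega
        have h2 : (2 * v + 1) % 2 = 1 := by omega
        simp only [if_true, h1, h2]
        simp
    have hxy : ∀ i j, x (yvar i j) = decide (j = first i) := by
      intro i j
      simp [x, yvar, Nat.unpair_pair]
    have hxs : ∀ i j, x (svar i j) = ((!(decide (j = first i))) && tv i j) := by
      intro i j
      simp [x, svar, Nat.unpair_pair]
    have hfirst : ∀ i (c : List (Bool × ℕ)), F[i]? = some c → first i < c.length ∧
        tv i (first i) = true := by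
      intro i c hc
      have hcF : c ∈ F := List.mem_of_getElem? hc
      obtain ⟨l, hl, hlt⟩ := hτ c hcF
      obtain ⟨j, hj, rfl⟩ := List.mem_iff_getElem.1 hl
      have htv : tv i j = true := by
        simp [tv, hc, hj, hlt]
      have h1 : ((List.range c.length).find? (tv i)).isSome = true := by
        rw [List.find?_isSome]
        exact ⟨j, by simpa using hj, htv⟩
      obtain ⟨k, hk⟩ := Option.isSome_iff_exists.1 h1
      have h2 : first i = k := by
        simp [first, hc, hk]
      rw [h2]
      exact ⟨by simpa using List.mem_of_find?_eq_some hk, List.find?_some hk⟩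
    refine ⟨x, ?_, rfl⟩
    intro e he
    unfold eqsOf at he
    rw [List.mem_append] at he
    rcases he with he | he
    · obtain ⟨l, _, rfl⟩ := List.mem_map.1 he
      simp only [List.countP_cons, List.countP_nil, hxl]
      cases h1 : τ l.2 <;> cases h2 : l.1 <;> simp
    · obtain ⟨⟨i, c⟩, hc, he⟩ := List.mem_flatMap.1 he
      rw [mem_zip_range] at hc
      simp only at hc he
      rcases List.mem_cons.1 he with rfl | he
      · rw [List.countP_map]
        have h1 : (List.range c.length).countP (x ∘ fun j => yvar i j) =
            (List.range c.length).count (first i) := by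
          rw [List.count]
          apply List.countP_congr
          intro j _
          simp [hxy]
        rw [h1, List.count_eq_one_of_mem List.nodup_range]
        simpa using (hfirst i c hc).1
      · obtain ⟨⟨j, l⟩, hl, rfl⟩ := List.mem_map.1 he
        rw [mem_zip_range] at hl
        simp only at hl ⊢
        have htv : tv i j = (τ l.2 == l.1) := by simp [tv, hc, hl]
        simp only [List.countP_cons, List.countP_nil, hxl, hxy, hxs, htv]
        by_cases hj : j = first i
        · have h3 := (hfirst i c hc).2
          rw [← hj, htv] at h3
          have h4 : τ l.2 = l.1 := by simpa using h3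
          simp [hj, h4]
        · cases h1 : τ l.2 <;> cases h2 : l.1 <;> simp [hj]

end Pool.Agent.H.MP_521f94_lc
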